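import Pool.Agent.Work.MP_749b09_gt.FormA

/-!
# Abs (M): abstract lemmas on spaces on which a form is positive

* `PosD_map`: compose `L` with `T`.
* `PosD_codim`: let `L : ℂ^(k+1) → W` be positive and `ψ = φ ∘ L`, a linear functional on
  `ℂ^(k+1)`.  Its kernel has dimension `≥ k`, so there is an injective linear map
  `M : ℂ^k → ℂ^(k+1)` with `ψ ∘ M = 0` (e.g. take a basis of the kernel, or an explicit one).  Then
  `T ∘ L ∘ M` is positive: for `a ≠ 0`, `v = L (M a)` has `φ v = 0`, `Q' (T v) = Q v > 0`.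
* `PosD_sq`: `L' a = M (L (a ∘ Fin.succ)) + a 0 • Y`.  If `a ∘ succ ≠ 0` then
  `Q' ≥ Q (L (a ∘ succ)) > 0`; otherwise `L 0 = 0`, `Q 0 = 0`, `φ 0 = 0` and
  `Q' = ‖a 0 * c‖² > 0`.
* `PosD_hyp`: a hyperbolic plane.  Put `κ = B w' h f ≠ 0`, `c = (1 - Q w' h) / 2` (real) and
  `Y v s = s • h + α • f` with `α = (c * s - B w' h (T v)) / κ`.  By `Q_add`, `B_add_left`,
  `B_smul_left`, ... : `Q w' (T v + s • h + α • f) = Q w v + ‖s‖² Q w' h
  + 2 Re (conj s * B w' h (T v)) + 2 Re (conj s * α * κ)` (the terms `B f (T v)`, `B f f` vanish,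
  and `B w' (s • h) (α • f) = conj s * α * κ`)
  `= Q w v + ‖s‖² (Q w' h + 2 c) = Q w v + ‖s‖²`.  The map `(v, s) ↦ T v + s • h + α(v, s) • f` is
  linear (`exists_BLin`).  So `PosD_sq` applies with `M v = T v - (B w' h (T v) / κ) • f`,
  `Y = h + (c / κ) • f`, `φ = 0` and the constant `1`.
-/

namespace Pool.Agent.Work.MP_749b09_gt

open ComplexConjugate

theorem PosD_map {W W' : Type*} [AddCommGroup W] [Module ℂ W] [AddCommGroup W'] [Module ℂ W']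
    {Q1 : W → ℝ} {Q2 : W' → ℝ} {k : ℕ} (T : W →ₗ[ℂ] W') (hT : ∀ v, Q1 v ≤ Q2 (T v))
    (h : PosD Q1 k) : PosD Q2 k := by
  obtain ⟨L, hL⟩ := h
  exact ⟨T ∘ₗ L, fun a ha => (hL a ha).trans_le (hT _)⟩

theorem PosD_codim {W W' : Type*} [AddCommGroup W] [Module ℂ W] [AddCommGroup W'] [Module ℂ W']
    {Q1 : W → ℝ} {Q2 : W' → ℝ} {k : ℕ} (T : W →ₗ[ℂ] W') (φ : W →ₗ[ℂ] ℂ)
    (hT : ∀ v, φ v = 0 → Q2 (T v) = Q1 v) (h : PosD Q1 (k + 1)) : PosD Q2 k := by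
  obtain ⟨L, hL⟩ := h
  have h1 : Module.finrank ℂ (Fin k → ℂ) ≤ Module.finrank ℂ (LinearMap.ker (φ ∘ₗ L)) := by
    have h2 := LinearMap.finrank_range_add_finrank_ker (φ ∘ₗ L)
    have h3 : Module.finrank ℂ (LinearMap.range (φ ∘ₗ L)) ≤ 1 := by
      have h4 := Submodule.finrank_le (LinearMap.range (φ ∘ₗ L))
      rwa [Module.finrank_self] at h4
    rw [Module.finrank_fin_fun] at h2
    rw [Module.finrank_fin_fun]
    omega
  obtain ⟨N, hN⟩ := finrank_le_iff_exists_linearMap.1 h1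
  refine ⟨T ∘ₗ L ∘ₗ (LinearMap.ker (φ ∘ₗ L)).subtype ∘ₗ N, fun a ha => ?_⟩
  have h5 : ((N a : Fin (k + 1) → ℂ)) ≠ 0 := by
    intro h6
    apply ha
    apply hN
    rw [map_zero]
    exact Subtype.ext h6
  have h7 : φ (L (N a : Fin (k + 1) → ℂ)) = 0 := (N a).2
  have h8 := hL _ h5
  rw [← hT _ h7] at h8
  exact h8

theorem PosD_sq {W W' : Type*} [AddCommGroup W] [Module ℂ W] [AddCommGroup W'] [Module ℂ W']
    {Q1 : W → ℝ} {Q2 : W' → ℝ} {k : ℕ} (M : W →ₗ[ℂ] W') (Y : W') (φ : W →ₗ[ℂ] ℂ) (c : ℂ)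
    (hc : c ≠ 0) (h0 : Q1 0 = 0) (hM : ∀ v s, Q2 (M v + s • Y) = Q1 v + ‖φ v + s * c‖ ^ 2)
    (h : PosD Q1 k) : PosD Q2 (k + 1) := by
  obtain ⟨L, hL⟩ := h
  refine ⟨M ∘ₗ L ∘ₗ (LinearMap.funLeft ℂ ℂ Fin.succ) +
    (LinearMap.proj (0 : Fin (k + 1)) : (Fin (k + 1) → ℂ) →ₗ[ℂ] ℂ).smulRight Y, fun a ha => ?_⟩
  have h1 : (M ∘ₗ L ∘ₗ (LinearMap.funLeft ℂ ℂ Fin.succ) +
    (LinearMap.proj (0 : Fin (k + 1)) : (Fin (k + 1) → ℂ) →ₗ[ℂ] ℂ).smulRight Y) a =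
      M (L (fun i => a i.succ)) + a 0 • Y := rfl
  rw [h1, hM]
  by_cases h2 : (fun i : Fin k => a i.succ) = 0
  · rw [h2, map_zero, h0, map_zero, zero_add, zero_add]
    have h3 : a 0 ≠ 0 := by
      intro h4
      apply ha
      funext i
      refine Fin.cases h4 (fun j => ?_) i
      exact congrFun h2 j
    have h5 : 0 < ‖a 0 * c‖ := norm_pos_iff.2 (mul_ne_zero h3 hc)
    positivity
  · have h3 := hL _ h2
    positivity

theorem PosD_hyp (w w' : Word) {k : ℕ} (T : V →ₗ[ℂ] V) (hT : ∀ v, Q w' (T v) = Q w v)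
    (f h : V) (hff : B w' f f = 0) (hfT : ∀ v, B w' f (T v) = 0) (hhf : B w' h f ≠ 0)
    (hk : PosD (Q w) k) : PosD (Q w') (k + 1) := by
  obtain ⟨φ, hφ⟩ := exists_BLin w' h
  have hfh : B w' f h = conj (B w' h f) := B_symm w' h f
  have hQf : Q w' f = 0 := by
    unfold Q
    rw [hff, Complex.zero_re]
  have hbf : ∀ (α : ℂ), Q w' (α • f) = 0 := fun α => by rw [Q_smul, hQf, mul_zero]
  refine PosD_sq (T - ((B w' h f)⁻¹ • (φ ∘ₗ T)).smulRight f)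
    (h + ((((1 - Q w' h) / 2 : ℝ) : ℂ) / B w' h f) • f) 0 1 one_ne_zero (Q_zero w) ?_ hk
  intro v s
  obtain ⟨b, hb⟩ : ∃ b, b = B w' h (T v) := ⟨_, rfl⟩
  obtain ⟨r, hr⟩ : ∃ r : ℝ, r = (1 - Q w' h) / 2 := ⟨_, rfl⟩
  obtain ⟨α, hα⟩ : ∃ α, α = (r * s - b) / B w' h f := ⟨_, rfl⟩
  have h1 : (T - ((B w' h f)⁻¹ • (φ ∘ₗ T)).smulRight f) v +
      s • (h + ((((1 - Q w' h) / 2 : ℝ) : ℂ) / B w' h f) • f) = T v + (s • h + α • f) := by
    have h2 : (T - ((B w' h f)⁻¹ • (φ ∘ₗ T)).smulRight f) v =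
        T v - ((B w' h f)⁻¹ * φ (T v)) • f := rfl
    rw [h2, hφ, ← hb, ← hr, hα, smul_add, smul_smul, sub_add_eq_add_sub, sub_eq_add_neg,
      ← neg_smul, add_assoc, add_assoc, ← add_smul]
    congr 3
    field_simp
    ring
  rw [h1, Q_add, Q_add, hT, Q_smul, hbf, B_add_left, B_smul_left, B_smul_left, B_smul_left, hfT,
    mul_zero, add_zero, add_zero, ← hb, B_smul_right, hfh]
  have h3 : (conj α * (s * conj (B w' h f))).re = (conj s * (r * s - b)).re := by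
    have h4 : α * B w' h f = r * s - b := by
      rw [hα, div_mul_cancel₀ _ hhf]
    have h5 : conj s * (r * s - b) = conj (conj α * (s * conj (B w' h f))) := by
      rw [map_mul, map_mul, Complex.conj_conj, Complex.conj_conj, ← h4]
      ring
    rw [h5, Complex.conj_re]
  have h6 : (conj s * (r * s - b)).re = r * ‖s‖ ^ 2 - (conj s * b).re := by
    rw [mul_sub, Complex.sub_re]
    congr 1
    rw [mul_left_comm, Complex.conj_mul']
    norm_cast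
  rw [h3, h6, hr, LinearMap.zero_apply, zero_add, mul_one]
  ring

end Pool.Agent.Work.MP_749b09_gt
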