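import Pool.Agent.Work.MP_749b09_gt.TF

/-!
# ActA (S-M): basic facts on the action of words on colourings

Proofs: `act_append`, `act_add`, `act_smul`, `act_const` by induction on the word, from the case
of one letter (unfold `act1`, `mix`, split the ifs, ring; for constants `mix c c = c`).
`act_aff` from these.  `act_valid`: a letter `(i, e)` with `i + 1 < n` changes only the positions
`i, i + 1 < n`.  `act_congr`: induction on `w` (generalise `x, y`): one letter with `i + 1 < n` maps
functions which agree on `k < n` to such functions.
-/

namespace Pool.Agent.Work.MP_749b09_gt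

open ComplexConjugate

theorem act_append (u v : Word) (x : ℕ → ℂ) : act (u ++ v) x = act v (act u x) := by
  induction u generalizing x with
  | nil => rfl
  | cons a u ih =>
    rw [List.cons_append]
    show act (u ++ v) (act1 a x) = act v (act u (act1 a x))
    exact ih _

theorem act1_add (a : ℕ × Bool) (x y : ℕ → ℂ) :
    act1 a (fun k => x k + y k) = fun k => act1 a x k + act1 a y k := by
  funext k
  unfold act1 mix
  split_ifs <;> ring

theorem act1_smul (a : ℕ × Bool) (c : ℂ) (x : ℕ → ℂ) :
    act1 a (fun k => c * x k) = fun k => c * act1 a x k := by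
  funext k
  unfold act1 mix
  split_ifs <;> ring

theorem act_add (w : Word) (x y : ℕ → ℂ) :
    act w (fun k => x k + y k) = fun k => act w x k + act w y k := by
  induction w generalizing x y with
  | nil => rfl
  | cons a w ih =>
    show act w (act1 a fun k => x k + y k) = fun k => act w (act1 a x) k + act w (act1 a y) k
    rw [act1_add, ih]

theorem act_smul (w : Word) (c : ℂ) (x : ℕ → ℂ) :
    act w (fun k => c * x k) = fun k => c * act w x k := by
  induction w generalizing x with
  | nil => rfl
  | cons a w ih =>
    show act w (act1 a fun k => c * x k) = fun k => c * act w (act1 a x) k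
    rw [act1_smul, ih]

theorem act1_const (a : ℕ × Bool) (c : ℂ) : act1 a (fun _ => c) = fun _ => c := by
  funext k
  unfold act1 mix
  split_ifs <;> ring

theorem act_const (w : Word) (c : ℂ) : act w (fun _ => c) = fun _ => c := by
  induction w with
  | nil => rfl
  | cons a w ih =>
    show act w (act1 a fun _ => c) = fun _ => c
    rw [act1_const, ih]

theorem act1_aff (a : ℕ × Bool) (c s : ℂ) (x : ℕ → ℂ) :
    act1 a (fun k => c + s * x k) = fun k => c + s * act1 a x k := by
  funext k
  unfold act1 mix
  split_ifs <;> ring

theorem act_aff (w : Word) (c s : ℂ) (x : ℕ → ℂ) :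
    act w (fun k => c + s * x k) = fun k => c + s * act w x k := by
  induction w generalizing x with
  | nil => rfl
  | cons a w ih =>
    show act w (act1 a fun k => c + s * x k) = fun k => c + s * act w (act1 a x) k
    rw [act1_aff, ih]

theorem act_valid {n : ℕ} {w : Word} (hw : Valid n w) (x : ℕ → ℂ) {k : ℕ} (hk : n ≤ k) :
    act w x k = x k := by
  induction w generalizing x with
  | nil => rfl
  | cons a w ih =>
    have h1 : a.1 + 1 < n := hw a List.mem_cons_self
    have h2 : Valid n w := fun b hb => hw b (List.mem_cons_of_mem _ hb)
    show act w (act1 a x) k = x k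
    rw [ih h2]
    unfold act1
    rw [if_neg (by omega), if_neg (by omega)]

theorem act_congr {n : ℕ} {w : Word} (hw : Valid n w) {x y : ℕ → ℂ} (h : ∀ k < n, x k = y k) :
    ∀ k < n, act w x k = act w y k := by
  induction w generalizing x y with
  | nil => exact h
  | cons a w ih =>
    have h1 : a.1 + 1 < n := hw a List.mem_cons_self
    have h2 : Valid n w := fun b hb => hw b (List.mem_cons_of_mem _ hb)
    refine ih h2 fun k hk => ?_
    unfold act1
    rw [h a.1 (by omega), h (a.1 + 1) h1, h k hk]

/-- A crossing whose two colours agree does nothing. -/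
theorem act1_triv {a : ℕ × Bool} {x : ℕ → ℂ} (h : x a.1 = x (a.1 + 1)) : act1 a x = x := by
  funext k
  unfold act1 mix
  split_ifs with h1 h2 h3 h4
  · rw [h1, ← h]; ring
  · rw [h1, ← h]
  · rw [h3, h]
  · rw [h3, ← h]; ring
  · rfl

/-- The action as a linear map. -/
theorem exists_actLin (w : Word) :
    ∃ T : (ℕ → ℂ) →ₗ[ℂ] (ℕ → ℂ), ∀ x, T x = act w x := by
  refine ⟨{ toFun := act w, map_add' := ?_, map_smul' := ?_ }, fun x => rfl⟩
  · intro x y
    exact act_add w x y
  · intro c x
    exact act_smul w c x

end Pool.Agent.Work.MP_749b09_gt
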