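import Pool.Agent.Work.MP_749b09_gt.Defs

/-!
# Auxiliary definitions (colourings, the state sum, the Hermitian form)

Conventions: `t` is a primitive sixth root of unity, `t ^ 2 = t - 1`, `conj t = 1 - t`,
`t * (1 - t) = 1`.  A colouring is a function `x : ℕ → ℂ` (the colours of the strands, at the top
of the word); the letters act on it one after the other.
-/

namespace Pool.Agent.Work.MP_749b09_gt

open ComplexConjugate

/-- The primitive sixth root of unity `t`. -/
noncomputable def t : ℂ := ⟨1 / 2, Real.sqrt 3 / 2⟩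

/-- `mix l r = t l + (1 - t) r`. -/
noncomputable def mix (l r : ℂ) : ℂ := t * l + (1 - t) * r

/-- The action of one letter on a colouring.  Positive letter: `(l, r) ↦ (mix l r, l)`;
negative letter: `(l, r) ↦ (r, mix l r)`. -/
noncomputable def act1 (a : ℕ × Bool) (x : ℕ → ℂ) : ℕ → ℂ :=
  fun k =>
    if k = a.1 then (if a.2 then mix (x a.1) (x (a.1 + 1)) else x (a.1 + 1))
    else if k = a.1 + 1 then (if a.2 then x a.1 else mix (x a.1) (x (a.1 + 1)))
    else x k

/-- The action of a word on a colouring (the first letter acts first). -/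
noncomputable def act : Word → (ℕ → ℂ) → (ℕ → ℂ)
  | [], x => x
  | a :: w, x => act w (act1 a x)

/-- The labels of the regions: `reg x v k` is the label of the region to the left of strand `k`,
if the leftmost region has the label `v`. -/
noncomputable def reg (x : ℕ → ℂ) (v : ℂ) : ℕ → ℂ
  | 0 => v
  | k + 1 => (1 - t) * x k + t * reg x v k

/-- The contribution of one crossing to the state sum. -/
noncomputable def loc (a : ℕ × Bool) (x : ℕ → ℂ) (v : ℂ) : ℂ :=
  if a.2 then
    x a.1 * (mix (x a.1) (x (a.1 + 1)) - reg x v a.1)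
      * (conj (x a.1 - mix (x a.1) (x (a.1 + 1)))) ^ 2
  else
    -(x (a.1 + 1) * (x a.1 - reg x v a.1) * (conj (x (a.1 + 1) - x a.1)) ^ 2)

/-- The state sum. -/
noncomputable def xi : Word → (ℕ → ℂ) → ℂ → ℂ
  | [], _, _ => 0
  | a :: w, x, v => loc a x v + xi w (act1 a x) v

/-- The vector space of the Hermitian form: a pair `(Z, y)`, where `Z k` is the variable of the
strand `k` at the top of the word and `y j` is the variable of the letter number `j`. -/
abbrev V : Type := (ℕ → ℂ) × (ℕ → ℂ)

/-- The unit function with value `c` at `i`. -/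
def sg (i : ℕ) (c : ℂ) : ℕ → ℂ := fun k => if k = i then c else 0

/-- Passing one letter with index `i`: the variable `y 0` is added to `Z i`, and the letter is
dropped. -/
def nxt (i : ℕ) (p : V) : V := (fun k => p.1 k + sg i (p.2 0) k, fun k => p.2 (k + 1))

/-- The state of the variables after the word `w`. -/
def run : Word → V → V
  | [], p => p
  | a :: w, p => run w (nxt a.1 p)

/-- `0` for a positive letter, `1` for a negative letter. -/
def dl (e : Bool) : ℂ := if e then 0 else 1

/-- The contribution of the first letter to the form. -/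
noncomputable def locB (a : ℕ × Bool) (p q : V) : ℂ :=
  conj (p.2 0) * (t * (q.1 a.1 + dl a.2 * q.2 0 - q.1 (a.1 + 1)))
    + (1 - t) * conj (p.1 a.1 + dl a.2 * p.2 0 - p.1 (a.1 + 1)) * q.2 0

/-- The Hermitian form of a word (conjugate linear in the first argument `p`). -/
noncomputable def B : Word → V → V → ℂ
  | [], _, _ => 0
  | a :: w, p, q => locB a p q + B w (nxt a.1 p) (nxt a.1 q)

/-- `PosD Q k`: the function `Q` is positive on a `k`-dimensional space (without zero). -/
def PosD {W : Type*} [AddCommGroup W] [Module ℂ W] (Q : W → ℝ) (k : ℕ) : Prop :=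
  ∃ L : (Fin k → ℂ) →ₗ[ℂ] W, ∀ a : Fin k → ℂ, a ≠ 0 → 0 < Q (L a)

/-- The quadratic form of a word. -/
noncomputable def Q (w : Word) (p : V) : ℝ := (B w p p).re

/-- `Dfc D m`: the form of the closed braid `D = (n, w)` is positive on a space of dimension `k`
with `n + length w ≤ 2 k + m`. -/
def Dfc (D : ℕ × Word) (m : ℤ) : Prop :=
  ∃ k : ℕ, PosD (Q D.2) k ∧ ((D.1 : ℤ) + (D.2.length : ℤ)) ≤ 2 * (k : ℤ) + m

/-- Apply the map `f` to the letter variables number `p, p + 1, ...`. -/
def tl (p : ℕ) (f : (ℕ → ℂ) → (ℕ → ℂ)) (y : ℕ → ℂ) : ℕ → ℂ :=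
  fun k => if k < p then y k else f (fun j => y (j + p)) (k - p)

/-- Put the value `s` in front. -/
def cns (s : ℂ) (y : ℕ → ℂ) : ℕ → ℂ
  | 0 => s
  | k + 1 => y k

/-- The vector of the kernel given by a colouring: the letter variables. -/
noncomputable def kv : Word → (ℕ → ℂ) → (ℕ → ℂ)
  | [], _ => fun _ => 0
  | a :: w, x => cns ((if a.2 then t else t - 1) * (x a.1 - x (a.1 + 1))) (kv w (act1 a x))

/-- The vector of the kernel of the form given by a closed colouring. -/
noncomputable def KV (w : Word) (x : ℕ → ℂ) : V := (fun k => (1 - t) * x k, kv w x)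

/-- Like `Bounds`, but positive double points are allowed: reading towards the centre, a positive
crossing may become a negative one. -/
inductive ImmB : ℕ → ℤ → ℕ × Word → Prop
  | empty : ImmB 0 0 (0, [])
  | iso {b : ℕ} {χ : ℤ} {D D' : ℕ × Word} (h : Isotopic D D') (h' : ImmB b χ D') : ImmB b χ D
  | rem {b : ℕ} {χ : ℤ} {n : ℕ} {u v : Word} {a : ℕ × Bool}
      (h : ImmB b χ (n, u ++ v)) : ImmB b (χ - 1) (n, u ++ a :: v)
  | ins {b : ℕ} {χ : ℤ} {n : ℕ} {u v : Word} {a : ℕ × Bool}
      (h : ImmB b χ (n, u ++ a :: v)) : ImmB b (χ - 1) (n, u ++ v)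
  | min {b : ℕ} {χ : ℤ} {n : ℕ} {w : Word} (h : ImmB b χ (n, w)) : ImmB b (χ + 1) (n + 1, w)
  | max {b : ℕ} {χ : ℤ} {n : ℕ} {w : Word} (h : ImmB b χ (n + 1, w)) :
      ImmB (b + 1) (χ + 1) (n, w)
  | cross {b : ℕ} {χ : ℤ} {n : ℕ} {u v : Word} {i : ℕ}
      (h : ImmB b χ (n, u ++ (i, false) :: v)) : ImmB b χ (n, u ++ (i, true) :: v)

/-- Shift all letters of a word by `m` strands. -/
def shiftW (m : ℕ) (w : Word) : Word := w.map fun a => (a.1 + m, a.2)

end Pool.Agent.Work.MP_749b09_gt
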