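import Pool.Agent.Work.MP_749b09_gt.FormA

/-!
# FormZ (S-M): vectors supported on the strands

Let `y` denote the letter variables of `q`; the sum of `y j` over the letters `j` of `w` with index
`k` is `(run w q).1 k - q.1 k`.
* `B_Z`: for `p = (Z, 0)`: induction on `w` (generalise `q`): the first letter `(i, e)` contributes
  `(1-t) conj (Z i - Z (i+1)) y 0`, and `nxt i (Z, 0) = (Z, 0)`.  For `Z = sg (k+1) c` the factor
  `conj (Z i - Z (i+1))` is `conj c` for `i = k + 1`, `- conj c` for `i = k` and `0` otherwise, and the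
  first letter changes `q.1 i` by `y 0`.
* `B_Z0`: the same with `Z = sg 0 c` (no letter has index `-1`).
* `B_const`: for constant `Z` all contributions vanish.
* `Q_const`: `Q_add` with `B_const` and `B_symm`.
-/

namespace Pool.Agent.Work.MP_749b09_gt

open ComplexConjugate

private theorem fz_nxt (i : ℕ) (Z : ℕ → ℂ) : nxt i (Z, 0) = (Z, 0) := by
  unfold nxt
  refine Prod.ext ?_ rfl
  funext k
  simp [sg]

private theorem fz_loc (a : ℕ × Bool) (Z : ℕ → ℂ) (q : V) :
    locB a (Z, 0) q = (1 - t) * conj (Z a.1 - Z (a.1 + 1)) * q.2 0 := by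
  unfold locB
  simp

theorem B_Z (w : Word) (k : ℕ) (c : ℂ) (q : V) :
    B w (sg (k + 1) c, 0) q
      = (1 - t) * conj c * (((run w q).1 (k + 1) - q.1 (k + 1)) - ((run w q).1 k - q.1 k)) := by
  induction w generalizing q with
  | nil => simp [B, run]
  | cons a w ih =>
    change locB a (sg (k + 1) c, 0) q + B w (nxt a.1 (sg (k + 1) c, 0)) (nxt a.1 q) =
      (1 - t) * conj c * (((run w (nxt a.1 q)).1 (k + 1) - q.1 (k + 1)) -
        ((run w (nxt a.1 q)).1 k - q.1 k))
    rw [fz_nxt, ih, fz_loc]
    change _ + (1 - t) * conj c * (((run w (nxt a.1 q)).1 (k + 1) -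
      (q.1 (k + 1) + sg a.1 (q.2 0) (k + 1))) - ((run w (nxt a.1 q)).1 k -
      (q.1 k + sg a.1 (q.2 0) k))) = _
    have h : conj (sg (k + 1) c a.1 - sg (k + 1) c (a.1 + 1)) * q.2 0 =
        conj c * (sg a.1 (q.2 0) (k + 1) - sg a.1 (q.2 0) k) := by
      unfold sg
      by_cases h1 : a.1 = k + 1
      · have h2 : ¬ a.1 + 1 = k + 1 := by omega
        have h3 : k + 1 = a.1 := h1.symm
        have h4 : ¬ k = a.1 := by omega
        rw [if_pos h1, if_neg h2, if_pos h3, if_neg h4, sub_zero, sub_zero]
      · by_cases h2 : a.1 = k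
        · have h3 : a.1 + 1 = k + 1 := by omega
          have h4 : ¬ k + 1 = a.1 := by omega
          have h5 : k = a.1 := h2.symm
          rw [if_neg h1, if_pos h3, if_neg h4, if_pos h5, zero_sub, zero_sub, map_neg]
          ring
        · have h3 : ¬ a.1 + 1 = k + 1 := by omega
          have h4 : ¬ k + 1 = a.1 := by omega
          have h5 : ¬ k = a.1 := by omega
          rw [if_neg h1, if_neg h3, if_neg h4, if_neg h5, sub_zero, map_zero]
          ring
    linear_combination (1 - t) * h

theorem B_Z0 (w : Word) (c : ℂ) (q : V) :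
    B w (sg 0 c, 0) q = (1 - t) * conj c * ((run w q).1 0 - q.1 0) := by
  induction w generalizing q with
  | nil => simp [B, run]
  | cons a w ih =>
    change locB a (sg 0 c, 0) q + B w (nxt a.1 (sg 0 c, 0)) (nxt a.1 q) =
      (1 - t) * conj c * ((run w (nxt a.1 q)).1 0 - q.1 0)
    rw [fz_nxt, ih, fz_loc]
    change _ + (1 - t) * conj c * ((run w (nxt a.1 q)).1 0 -
      (q.1 0 + sg a.1 (q.2 0) 0)) = _
    have h : conj (sg 0 c a.1 - sg 0 c (a.1 + 1)) * q.2 0 = conj c * sg a.1 (q.2 0) 0 := by
      unfold sg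
      by_cases h1 : a.1 = 0
      · rw [if_pos h1, if_neg (Nat.succ_ne_zero _), if_pos h1.symm, sub_zero]
      · rw [if_neg h1, if_neg (Nat.succ_ne_zero _), if_neg (fun h => h1 h.symm), sub_zero,
          map_zero]
        ring
    linear_combination (1 - t) * h

theorem B_const (w : Word) (c : ℂ) (q : V) : B w ((fun _ => c), 0) q = 0 := by
  induction w generalizing q with
  | nil => rfl
  | cons a w ih =>
    change locB a ((fun _ => c), 0) q + B w (nxt a.1 ((fun _ => c), 0)) (nxt a.1 q) = 0
    rw [fz_nxt, ih, fz_loc, sub_self, map_zero]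
    ring

theorem Q_const (w : Word) (c : ℂ) (q : V) :
    Q w ((fun k => q.1 k + c), q.2) = Q w q := by
  have h1 : ((fun k => q.1 k + c), q.2) = q + (((fun _ => c), 0) : V) := by
    refine Prod.ext rfl ?_
    exact (add_zero q.2).symm
  rw [h1, Q_add, B_const]
  have h2 : Q w ((fun _ => c), 0) = 0 := by
    unfold Q
    rw [B_const, Complex.zero_re]
  rw [h2, Complex.zero_re]
  ring

end Pool.Agent.Work.MP_749b09_gt
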