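import Pool.Agent.Work.MP_749b09_gt.FormT
import Pool.Agent.Work.MP_749b09_gt.FormZ
import Pool.Agent.Work.MP_749b09_gt.Abs

/-!
# FStab (S-M): insertion and removal of a letter, stabilisation, change of a crossing

Put `p = length u`.
* `Q_insert`: `B_local` with `f = cns 0`: the new letter sees the variable `0`, so `locB = 0`.
* `Q_change`: the forms of the words with `(i, false)` and `(i, true)` differ in the contribution of
  this letter only: `dl false = 1`, `dl true = 0`: difference
  `conj y * t * y + (1-t) * conj y * y = ‖y‖²`, `y = q.2 p`.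
* `FIns`: `PosD_map` with `T (Z, y) = (Z, tl p (cns 0) y)`.
* `FDel`: `PosD_codim` with `φ (Z, y) = y p`, `T (Z, y) = (Z, tl p drop y)`: if `y p = 0`, then
  `(Z, y) = (Z, tl p (cns 0) (tl p drop y))`, use `Q_insert`.
* `FCross`: `PosD_map` with `T = id` and `Q_change`.
* `FStab_ins`: `PosD_hyp` with `T (Z, y) = (Z, tl (length w) (cns 0) y)` (`Q_insert` with `v = []`),
  `f = (sg (n+1) 1, 0)`, `h = (0, sg (length w) 1)`.  `B_Z` gives
  `B w' f q = (1-t) (S (n+1) - S n)`, where `S k` is the sum of the letter variables of `q` over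
  the letters of `w' = w ++ [(n, e)]` with index `k`: for `q = T v` both are `0` (the letters of `w` have
  indices `< n` because of `Valid (n+1) w`, and the last letter has the variable `0`); for `q = f` too.
  `B w' h f = B [(n, e)] (0, sg 0 1) (sg (n+1) 1, 0) = - t` (`B_run_zero`).
* `FStab_del`: `FDel` with `v = []`.
-/

namespace Pool.Agent.Work.MP_749b09_gt

open ComplexConjugate

private theorem fs_conj_dl (e : Bool) : conj (dl e) = dl e := by
  cases e <;> simp [dl]

private theorem fs_nxt (i : ℕ) (z : V) : nxt i (z.1, cns 0 z.2) = z := by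
  refine Prod.ext ?_ ?_
  · funext j
    simp [nxt, cns, sg]
  · funext j
    simp [nxt, cns]

theorem B_insert (u v : Word) (a : ℕ × Bool) (p q : V) :
    B (u ++ a :: v) (p.1, tl u.length (cns 0) p.2) (q.1, tl u.length (cns 0) q.2)
      = B (u ++ v) p q := by
  obtain ⟨g, hg⟩ := exists_cnsLin
  have hg' : (⇑g : (ℕ → ℂ) → (ℕ → ℂ)) = cns 0 := funext hg
  have h := B_local u v (a :: v) g ?_ p q
  · rw [hg'] at h
    exact h
  · intro p1 q1
    rw [hg]
    rw [hg]
    change locB a (p1.1, cns 0 p1.2) (q1.1, cns 0 q1.2) +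
      B v (nxt a.1 (p1.1, cns 0 p1.2)) (nxt a.1 (q1.1, cns 0 q1.2)) = _
    rw [fs_nxt, fs_nxt]
    simp [locB, cns]

theorem Q_insert (u v : Word) (a : ℕ × Bool) (q : V) :
    Q (u ++ a :: v) (q.1, tl u.length (cns 0) q.2) = Q (u ++ v) q :=
  congrArg Complex.re (B_insert u v a q q)

/-- Removal of a letter whose variable vanishes. -/
theorem Q_remove (u v : Word) (a : ℕ × Bool) (q : V) (h : q.2 u.length = 0) :
    Q (u ++ v) (q.1, tl u.length (fun y k => y (k + 1)) q.2) = Q (u ++ a :: v) q := by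
  rw [← Q_insert u v a]
  congr 1
  refine Prod.ext rfl ?_
  funext k
  show tl u.length (cns 0) (tl u.length (fun y k => y (k + 1)) q.2) k = q.2 k
  by_cases hk : k < u.length
  · simp [tl, hk]
  · obtain ⟨j, rfl⟩ : ∃ j, k = j + u.length := ⟨k - u.length, by omega⟩
    cases j with
    | zero => simp [tl, cns, h]
    | succ j =>
      have h1 : ¬ (j + 1 + u.length < u.length) := by omega
      have h2 : j + 1 + u.length - u.length = j + 1 := by omega
      simp only [tl, if_neg h1, h2, cns]
      have h3 : ¬ (j + u.length < u.length) := by omega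
      have h4 : j + u.length - u.length = j := by omega
      rw [if_neg h3, h4]

theorem Q_change (u v : Word) (i : ℕ) (q : V) :
    Q (u ++ (i, false) :: v) q = Q (u ++ (i, true) :: v) q + ‖q.2 u.length‖ ^ 2 := by
  unfold Q
  rw [B_append, B_append]
  have hy : (run u q).2 0 = q.2 u.length := by rw [run_snd, Nat.zero_add]
  have h1 : B ((i, false) :: v) (run u q) (run u q) =
      B ((i, true) :: v) (run u q) (run u q) + q.2 u.length * conj (q.2 u.length) := by
    change locB (i, false) (run u q) (run u q) + B v (nxt i (run u q)) (nxt i (run u q)) =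
      locB (i, true) (run u q) (run u q) + B v (nxt i (run u q)) (nxt i (run u q)) + _
    have h2 : dl false = 1 := rfl
    have h3 : dl true = 0 := rfl
    simp only [locB, h2, h3, hy, map_add, map_sub, map_mul, map_one, map_zero]
    ring
  rw [h1, Complex.mul_conj, Complex.normSq_eq_norm_sq, Complex.add_re, Complex.add_re, Complex.add_re,
    Complex.ofReal_re]
  ring

theorem FIns (u v : Word) (a : ℕ × Bool) {k : ℕ} (h : PosD (Q (u ++ v)) k) :
    PosD (Q (u ++ a :: v)) k := by
  obtain ⟨g, hg⟩ := exists_cnsLin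
  have hg' : (⇑g : (ℕ → ℂ) → (ℕ → ℂ)) = cns 0 := funext hg
  obtain ⟨T, hT⟩ := exists_tlLin u.length g
  refine PosD_map T (fun q => ?_) h
  rw [hT, hg', Q_insert]

theorem FDel (u v : Word) (a : ℕ × Bool) {k : ℕ} (h : PosD (Q (u ++ a :: v)) (k + 1)) :
    PosD (Q (u ++ v)) k := by
  obtain ⟨g, hg⟩ := exists_dropLin
  have hg' : (⇑g : (ℕ → ℂ) → (ℕ → ℂ)) = fun y k => y (k + 1) := funext hg
  obtain ⟨T, hT⟩ := exists_tlLin u.length g
  refine PosD_codim T ((LinearMap.proj (R := ℂ) (φ := fun _ : ℕ => ℂ) u.length).comp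
    (LinearMap.snd ℂ (ℕ → ℂ) (ℕ → ℂ))) (fun q hq => ?_) h
  have hq' : q.2 u.length = 0 := hq
  rw [hT, hg', Q_remove u v a q hq']

theorem FCross (u v : Word) (i : ℕ) {k : ℕ} (h : PosD (Q (u ++ (i, true) :: v)) k) :
    PosD (Q (u ++ (i, false) :: v)) k := by
  refine PosD_map LinearMap.id (fun q => ?_) h
  rw [LinearMap.id_apply, Q_change]
  have := sq_nonneg ‖q.2 u.length‖
  linarith

private theorem fs_strand {n : ℕ} {w : Word} (hw : Valid (n + 1) w) (q : V) {k : ℕ} (hk : n ≤ k) :
    (run w q).1 k = q.1 k := by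
  induction w generalizing q with
  | nil => rfl
  | cons a w ih =>
    have h1 : Valid (n + 1) w := fun b hb => hw b (List.mem_cons_of_mem _ hb)
    have h2 : a.1 + 1 < n + 1 := hw a List.mem_cons_self
    change (run w (nxt a.1 q)).1 k = _
    rw [ih h1]
    have h3 : k ≠ a.1 := by omega
    simp [nxt, sg, h3]

theorem FStab_ins (n : ℕ) (w : Word) (e : Bool) (hw : Valid (n + 1) w) {k : ℕ}
    (h : PosD (Q w) k) : PosD (Q (w ++ [(n, e)])) (k + 1) := by
  obtain ⟨g, hg⟩ := exists_cnsLin
  have hg' : (⇑g : (ℕ → ℂ) → (ℕ → ℂ)) = cns 0 := funext hg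
  obtain ⟨T, hT⟩ := exists_tlLin w.length g
  have hrun : ∀ q : V, q.2 w.length = 0 → ∀ j, n ≤ j → (run (w ++ [(n, e)]) q).1 j = q.1 j := by
    intro q hq j hj
    rw [run_append]
    change (run w q).1 j + sg n ((run w q).2 0) j = _
    rw [fs_strand hw q hj, run_snd, Nat.zero_add, hq]
    simp [sg]
  have hB : ∀ q : V, q.2 w.length = 0 → B (w ++ [(n, e)]) (sg (n + 1) 1, 0) q = 0 := by
    intro q hq
    rw [B_Z, hrun q hq n le_rfl, hrun q hq (n + 1) (Nat.le_succ n)]
    ring
  refine PosD_hyp w (w ++ [(n, e)]) T ?_ (sg (n + 1) 1, 0) (0, sg w.length 1) ?_ ?_ ?_ h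
  · intro q
    rw [hT, hg']
    have h1 := Q_insert w [] (n, e) q
    rw [List.append_nil] at h1
    exact h1
  · exact hB _ rfl
  · intro q
    refine hB _ ?_
    rw [hT, hg']
    simp [tl, cns]
  · have h2 : ∀ j < w.length, ((0, sg w.length 1) : V).2 j = 0 := by
      intro j hj
      have : j ≠ w.length := by omega
      simp [sg, this]
    rw [B_run_zero w [(n, e)] (0, sg w.length 1) _ rfl h2]
    have h3 : (run w ((sg (n + 1) 1, 0) : V)).1 n = 0 := by
      rw [fs_strand hw _ le_rfl]
      simp [sg]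
    have h4 : (run w ((sg (n + 1) 1, 0) : V)).1 (n + 1) = 1 := by
      rw [fs_strand hw _ (Nat.le_succ n)]
      simp [sg]
    have h5 : (run w ((sg (n + 1) 1, 0) : V)).2 0 = 0 := by
      rw [run_snd]
      rfl
    change locB (n, e) _ _ + 0 ≠ 0
    have h6 : sg w.length 1 (0 + w.length) = 1 := by simp [sg]
    simp only [locB, h3, h4, h5, h6, map_one]
    intro h7
    apply t_ne
    linear_combination -h7

theorem FStab_del (n : ℕ) (w : Word) (e : Bool) {k : ℕ}
    (h : PosD (Q (w ++ [(n, e)])) (k + 1)) : PosD (Q w) k := by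
  have h1 := FDel w [] (n, e) h
  rw [List.append_nil] at h1
  exact h1

end Pool.Agent.Work.MP_749b09_gt
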