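import Pool.Agent.Work.MP_749b09_gt.Ker
import Pool.Agent.Work.MP_749b09_gt.FStab

/-!
# Bad (M): gain of one dimension at a nontrivially coloured crossing

`Y = KV w x` is in the kernel of the form of the word `w` (`Ker_closed`, and by `B_symm` also
`B w Y p = 0`); `p = length u`.
* `Bad_ins`: `PosD_hyp` with `T (Z, y) = (Z, tl p (cns 0) y)` (linear by `exists_tlLin`,
  `exists_cnsLin`; `Q_insert`), `f = T Y`, `h = (0, sg p 1)`: `B w' f f = B w Y Y = 0`,
  `B w' f (T v) = B w Y v = 0` (`B_insert`), `B w' h f ≠ 0` by `Ker_ins`.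
* `Bad_del`: `Y.2 p ≠ 0` by `kv_at` (`t ≠ 0`, `t - 1 ≠ 0`).  `PosD_map` with
  `T v = R (v - (v.2 p / Y.2 p) • Y)`, `R (Z, y) = (Z, tl p drop y)`: the vector
  `v - (v.2 p / Y.2 p) • Y` has the letter variable `0` at `p`, so `Q_remove` gives
  `Q (u ++ v') (T v) = Q w (v - c • Y) = Q w v` (expand with `Q_add`; all terms with `Y` vanish).
* `Bad_cross`: `PosD_sq` with `M = id`, `Y`, `φ v = v.2 p`, `c = Y.2 p ≠ 0`: by `Q_change`
  `Q w' (v + s • Y) = Q w (v + s • Y) + ‖v.2 p + s * Y.2 p‖² = Q w v + ‖φ v + s * c‖²`.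
-/

namespace Pool.Agent.Work.MP_749b09_gt

open ComplexConjugate

private theorem bd_left {w : Word} {x : ℕ → ℂ} (hx : act w x = x) (q : V) : B w (KV w x) q = 0 := by
  rw [B_symm w q (KV w x), Ker_closed hx, map_zero]

private theorem bd_add {w : Word} {x : ℕ → ℂ} (hx : act w x = x) (q : V) (s : ℂ) :
    Q w (q + s • KV w x) = Q w q := by
  have h1 : Q w (KV w x) = 0 := by
    unfold Q
    rw [bd_left hx]
    rfl
  rw [Q_add, Q_smul, h1, B_smul_left, bd_left hx]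
  simp

private theorem bd_kv {u v : Word} {a : ℕ × Bool} {x : ℕ → ℂ}
    (hne : act u x a.1 ≠ act u x (a.1 + 1)) : (KV (u ++ a :: v) x).2 u.length ≠ 0 := by
  have h1 : (KV (u ++ a :: v) x).2 u.length =
      (if a.2 then t else t - 1) * (act u x a.1 - act u x (a.1 + 1)) := kv_at u v a x
  rw [h1]
  refine mul_ne_zero ?_ (sub_ne_zero.2 hne)
  split_ifs
  · exact t_ne
  · intro h
    apply one_sub_t_ne
    linear_combination -h

/-- the letter variable number `p` -/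
private noncomputable def bdφ (p : ℕ) : V →ₗ[ℂ] ℂ :=
  (LinearMap.proj (R := ℂ) (φ := fun _ : ℕ => ℂ) p).comp (LinearMap.snd ℂ (ℕ → ℂ) (ℕ → ℂ))

private theorem bdφ_apply (p : ℕ) (q : V) : bdφ p q = q.2 p := rfl

theorem Bad_ins {u v : Word} {a : ℕ × Bool} {x : ℕ → ℂ} (hx : act (u ++ v) x = x)
    (hne : act u x a.1 ≠ act u x (a.1 + 1)) {k : ℕ} (h : PosD (Q (u ++ v)) k) :
    PosD (Q (u ++ a :: v)) (k + 1) := by
  obtain ⟨g, hg⟩ := exists_cnsLin
  have hg' : (⇑g : (ℕ → ℂ) → (ℕ → ℂ)) = cns 0 := funext hg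
  obtain ⟨T, hT⟩ := exists_tlLin u.length g
  refine PosD_hyp (u ++ v) (u ++ a :: v) T (fun q => ?_) (T (KV (u ++ v) x)) (0, sg u.length 1)
    ?_ (fun q => ?_) ?_ h
  · rw [hT, hg', Q_insert]
  · rw [hT, hg', B_insert, Ker_closed hx]
  · rw [hT, hT, hg', B_insert, bd_left hx]
  · rw [hT, hg', Ker_ins hx]
    exact sub_ne_zero.2 hne

theorem Bad_del {u v : Word} {a : ℕ × Bool} {x : ℕ → ℂ} (hx : act (u ++ a :: v) x = x)
    (hne : act u x a.1 ≠ act u x (a.1 + 1)) {k : ℕ} (h : PosD (Q (u ++ a :: v)) k) :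
    PosD (Q (u ++ v)) k := by
  obtain ⟨g, hg⟩ := exists_dropLin
  have hg' : (⇑g : (ℕ → ℂ) → (ℕ → ℂ)) = fun y k => y (k + 1) := funext hg
  obtain ⟨R, hR⟩ := exists_tlLin u.length g
  have hd : (KV (u ++ a :: v) x).2 u.length ≠ 0 := bd_kv hne
  set Y := KV (u ++ a :: v) x with hY
  refine PosD_map (R.comp (LinearMap.id - (bdφ u.length).smulRight ((Y.2 u.length)⁻¹ • Y)))
    (fun q => ?_) h
  have e1 : ((LinearMap.id - (bdφ u.length).smulRight ((Y.2 u.length)⁻¹ • Y) : V →ₗ[ℂ] V)) q =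
      q + (-(q.2 u.length * (Y.2 u.length)⁻¹)) • Y := by
    rw [LinearMap.sub_apply, LinearMap.id_apply, LinearMap.smulRight_apply, bdφ_apply, smul_smul,
      neg_smul, ← sub_eq_add_neg]
  have e2 : (q + (-(q.2 u.length * (Y.2 u.length)⁻¹)) • Y).2 u.length = 0 := by
    change q.2 u.length + (-(q.2 u.length * (Y.2 u.length)⁻¹)) * Y.2 u.length = 0
    field_simp
    ring
  rw [LinearMap.comp_apply, e1, hR, hg', Q_remove u v a _ e2, hY, bd_add hx]

theorem Bad_cross {u v : Word} {i : ℕ} {x : ℕ → ℂ} (hx : act (u ++ (i, true) :: v) x = x)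
    (hne : act u x i ≠ act u x (i + 1)) {k : ℕ} (h : PosD (Q (u ++ (i, true) :: v)) k) :
    PosD (Q (u ++ (i, false) :: v)) (k + 1) := by
  have hd : (KV (u ++ (i, true) :: v) x).2 u.length ≠ 0 := bd_kv (a := (i, true)) hne
  refine PosD_sq LinearMap.id (KV (u ++ (i, true) :: v) x) (bdφ u.length)
    ((KV (u ++ (i, true) :: v) x).2 u.length) hd (Q_zero _) (fun q s => ?_) h
  rw [LinearMap.id_apply, Q_change, bd_add hx]
  rfl

end Pool.Agent.Work.MP_749b09_gt
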