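import Pool.Agent.Work.MP_749b09_gt.XiA

/-!
# Col (S-M): transport of closed colourings, local moves

`Tr D D'`: a linear map carries the closed colourings of `D` to closed colourings of `D'` and
preserves the state sum.

* `Tr_refl`: `T = id`; `Tr_trans`: composition.
* `Tr_local`: `T = id`; if the words `a`, `b` have the same action and the same state sum (for all
  colourings and all labels of the left region), then so do `u ++ a ++ v` and `u ++ b ++ v`, by
  `act_append`, `xi_append`.
* `act_cancel`, `xi_cancel`: the colours after `(i, e)` are `(m, l)` (positive) or `(r, m)`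
  (negative), `m = mix l r`; the second letter restores `(l, r)`:
  `mix m l = t m + (1-t) l`.  Positive then negative: `(m, l) ↦ (l, mix m l)` and
  `t (t l + (1-t) r) + (1-t) l = (t² + 1 - t) l + t (1-t) r = r`.  Negative then positive:
  `(r, m) ↦ (mix r m, r)` and `t r + (1-t) (t l + (1-t) r) = l + (t + (1-t)²) r = l`, since
  `(1-t)² = -t`.  State sum: first `e = true`: `l (m - ρ) conj(l-m)² - (over' (under' - ρ)
  conj(over'-under')²)` with (negative letter on `(m, l)`) over' `= l`, under' `= m`: the two terms
  cancel (the label `ρ = reg x s i` does not change).  `e = false`: `- r (l - ρ) conj(r-l)²` and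
  then the positive letter on `(r, m)`: over `= r`, under `= mix r m = l`: cancel.
* `act_far`, `xi_far`: the letters `(i, e)`, `(j, f)` with `i + 2 ≤ j` act on disjoint pairs of
  strands; the label `reg x s j` does not change under `act1 (i, e)` (`reg_act1`, `j ≠ i + 1`),
  the label `reg x s i` does not change under `act1 (j, f)` (`reg_congr`).
-/

namespace Pool.Agent.Work.MP_749b09_gt

open ComplexConjugate

/-- Transport of closed colourings from `D` to `D'`. -/
def Tr (D D' : ℕ × Word) : Prop :=
  ∃ T : (ℕ → ℂ) →ₗ[ℂ] (ℕ → ℂ), ∀ x : ℕ → ℂ, act D.2 x = x →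
    act D'.2 (T x) = T x ∧ xi D'.2 (T x) 0 = xi D.2 x 0

theorem Tr_refl (D : ℕ × Word) : Tr D D :=
  ⟨LinearMap.id, fun x hx => ⟨hx, rfl⟩⟩

theorem Tr_trans {D D' D'' : ℕ × Word} (h : Tr D D') (h' : Tr D' D'') : Tr D D'' := by
  obtain ⟨T, hT⟩ := h
  obtain ⟨T', hT'⟩ := h'
  refine ⟨T'.comp T, fun x hx => ?_⟩
  obtain ⟨h1, h2⟩ := hT x hx
  obtain ⟨h3, h4⟩ := hT' _ h1
  exact ⟨h3, h4.trans h2⟩

theorem Tr_local (n : ℕ) (u v a b : Word) (h : ∀ x, act a x = act b x)
    (h' : ∀ x s, xi a x s = xi b x s) : Tr (n, u ++ a ++ v) (n, u ++ b ++ v) := by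
  have h1 : ∀ x, act (u ++ b ++ v) x = act (u ++ a ++ v) x := by
    intro x; rw [act_append, act_append, act_append, act_append, h]
  have h2 : ∀ x s, xi (u ++ b ++ v) x s = xi (u ++ a ++ v) x s := by
    intro x s
    rw [xi_append, xi_append, xi_append, xi_append, act_append, act_append, h, h']
  refine ⟨LinearMap.id, fun x hx => ⟨?_, ?_⟩⟩
  · simp only [LinearMap.id_apply]
    rw [h1]; exact hx
  · simp only [LinearMap.id_apply]
    rw [h2]

private theorem mix_a (l r : ℂ) : mix (mix l r) l = r := by
  unfold mix; linear_combination (l - r) * t_sq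

private theorem mix_b (l r : ℂ) : mix r (mix l r) = l := by
  unfold mix; linear_combination (r - l) * t_sq

theorem act_cancel (i : ℕ) (e : Bool) (x : ℕ → ℂ) : act [(i, e), (i, !e)] x = x := by
  funext k
  cases e
  · simp only [act, act1, Bool.not_false, if_true, Bool.false_eq_true, if_false]
    by_cases h1 : k = i
    · subst h1; simp [mix_b]
    · by_cases h2 : k = i + 1
      · subst h2; simp
      · simp [h1, h2]
  · simp only [act, act1, Bool.not_true, if_true, Bool.false_eq_true, if_false]
    by_cases h1 : k = i
    · subst h1; simp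
    · by_cases h2 : k = i + 1
      · subst h2; simp [mix_a]
      · simp [h1, h2]

theorem xi_cancel (i : ℕ) (e : Bool) (x : ℕ → ℂ) (s : ℂ) : xi [(i, e), (i, !e)] x s = 0 := by
  have hr : ∀ e', reg (act1 (i, e') x) s i = reg x s i := fun e' => reg_act1 i e' x s (by omega)
  cases e
  · simp only [xi, loc, Bool.not_false, if_true, Bool.false_eq_true, if_false, hr, add_zero]
    have h1 : act1 (i, false) x i = x (i + 1) := by simp [act1]
    have h2 : act1 (i, false) x (i + 1) = mix (x i) (x (i + 1)) := by simp [act1]
    rw [h1, h2, mix_b]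
    ring
  · simp only [xi, loc, Bool.not_true, if_true, Bool.false_eq_true, if_false, hr, add_zero]
    have h1 : act1 (i, true) x i = mix (x i) (x (i + 1)) := by simp [act1]
    have h2 : act1 (i, true) x (i + 1) = x i := by simp [act1]
    rw [h1, h2]
    ring

private theorem act1_at (i : ℕ) (e : Bool) (x : ℕ → ℂ) :
    act1 (i, e) x i = if e then mix (x i) (x (i + 1)) else x (i + 1) := by
  simp [act1]

private theorem act1_at' (i : ℕ) (e : Bool) (x : ℕ → ℂ) :
    act1 (i, e) x (i + 1) = if e then x i else mix (x i) (x (i + 1)) := by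
  simp [act1]

private theorem act1_off (i : ℕ) (e : Bool) (x : ℕ → ℂ) {k : ℕ} (h1 : k ≠ i) (h2 : k ≠ i + 1) :
    act1 (i, e) x k = x k := by
  simp [act1, h1, h2]

theorem act_far (i j : ℕ) (e f : Bool) (h : i + 2 ≤ j) (x : ℕ → ℂ) :
    act [(i, e), (j, f)] x = act [(j, f), (i, e)] x := by
  funext k
  simp only [act]
  by_cases h1 : k = i
  · subst h1
    rw [act1_off j f _ (by omega) (by omega), act1_at, act1_at, act1_off j f _ (by omega) (by omega),
      act1_off j f _ (by omega) (by omega)]
  · by_cases h2 : k = i + 1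
    · subst h2
      rw [act1_off j f _ (by omega) (by omega), act1_at', act1_at',
        act1_off j f _ (by omega) (by omega), act1_off j f _ (by omega) (by omega)]
    · by_cases h3 : k = j
      · subst h3
        rw [act1_off i e _ h1 h2, act1_at, act1_at, act1_off i e _ (by omega) (by omega),
          act1_off i e _ (by omega) (by omega)]
      · by_cases h4 : k = j + 1
        · subst h4
          rw [act1_off i e _ h1 h2, act1_at', act1_at', act1_off i e _ (by omega) (by omega),
            act1_off i e _ (by omega) (by omega)]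
        · rw [act1_off j f _ h3 h4, act1_off i e _ h1 h2, act1_off i e _ h1 h2,
            act1_off j f _ h3 h4]

theorem xi_far (i j : ℕ) (e f : Bool) (h : i + 2 ≤ j) (x : ℕ → ℂ) (s : ℂ) :
    xi [(i, e), (j, f)] x s = xi [(j, f), (i, e)] x s := by
  have r1 : reg (act1 (i, e) x) s j = reg x s j := reg_act1 i e x s (by omega)
  have r2 : reg (act1 (j, f) x) s i = reg x s i := reg_act1 j f x s (by omega)
  have e1 : act1 (i, e) x j = x j := act1_off i e x (by omega) (by omega)
  have e2 : act1 (i, e) x (j + 1) = x (j + 1) := act1_off i e x (by omega) (by omega)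
  have e3 : act1 (j, f) x i = x i := act1_off j f x (by omega) (by omega)
  have e4 : act1 (j, f) x (i + 1) = x (i + 1) := act1_off j f x (by omega) (by omega)
  simp only [xi, add_zero]
  have l1 : loc (j, f) (act1 (i, e) x) s = loc (j, f) x s := by
    simp only [loc, r1, e1, e2]
  have l2 : loc (i, e) (act1 (j, f) x) s = loc (i, e) x s := by
    simp only [loc, r2, e3, e4]
  rw [l1, l2]
  ring

end Pool.Agent.Work.MP_749b09_gt
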