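import Pool.Agent.Work.MP_749b09_gt.Col

/-!
# ColCS (S-M): conjugation and stabilisation of closed colourings

* `Tr_conj`: `T = act [a]` (`exists_actLin`).  If `act (a :: v) x = x` then `x' = act [a] x`
  satisfies `act v x' = x`, so `act (v ++ [a]) x' = act [a] (act v x') = act [a] x = x'`, and
  `xi (v ++ [a]) x' 0 = xi v x' 0 + xi [a] x 0 = loc a x 0 + xi v x' 0 = xi (a :: v) x 0`.
* `Tr_conj'`: `T = act v`.  If `act (v ++ [a]) x = x` then `x' = act v x` satisfies
  `act [a] x' = x`, so `act (a :: v) x' = act v x = x'`; state sum as before.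
* `Tr_stab`: `T x = x` with the value at `n + 1` replaced by `x n` (a linear map).  `w` has only
  letters with index `< n` (`Valid (n+1) w`), so it acts on the positions `≤ n`: by `act_congr`
  and `act_valid` (positions `≥ n + 1` do not change) `act w (T x) = T x` for a closed colouring `x`
  of `w`; then the letter `(n, e)` has equal colours `x n, x n`: `act1_triv`, `loc_triv`, `xi_congr`.
* `Tr_stab'`: `T = id`.  Let `act (w ++ [(n, e)]) x = x`, `x1 = act w x`, so `act1 (n, e) x1 = x`
  and `x1 (n+1) = x (n+1)` (`act_valid`).  With `l = x1 n`, `r = x1 (n+1)`: positive letter: the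
  value at `n + 1` of `act1 (n, true) x1` is `l`, so `l = x (n+1) = r`.  Negative letter: it is
  `mix l r = t l + (1-t) r = r`, so `t (l - r) = 0`, `l = r`.  Hence `act1 (n, e) x1 = x1`
  (`act1_triv`), `x1 = x`, and the last letter contributes `0` (`loc_triv`).
-/

namespace Pool.Agent.Work.MP_749b09_gt

open ComplexConjugate

private theorem xi_single (a : ℕ × Bool) (x : ℕ → ℂ) (s : ℂ) : xi [a] x s = loc a x s := by
  simp only [xi, add_zero]

theorem Tr_conj (n : ℕ) (a : ℕ × Bool) (v : Word) : Tr (n, a :: v) (n, v ++ [a]) := by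
  obtain ⟨T, hT⟩ := exists_actLin [a]
  refine ⟨T, fun x hx => ?_⟩
  have h1 : T x = act1 a x := hT x
  have h2 : act v (act1 a x) = x := hx
  rw [h1]
  refine ⟨?_, ?_⟩
  · show act (v ++ [a]) (act1 a x) = act1 a x
    rw [act_append, h2]
    rfl
  · show xi (v ++ [a]) (act1 a x) 0 = xi (a :: v) x 0
    rw [xi_append, h2, xi_single]
    show xi v (act1 a x) 0 + loc a x 0 = loc a x 0 + xi v (act1 a x) 0
    rw [add_comm]

theorem Tr_conj' (n : ℕ) (a : ℕ × Bool) (v : Word) : Tr (n, v ++ [a]) (n, a :: v) := by
  obtain ⟨T, hT⟩ := exists_actLin v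
  refine ⟨T, fun x hx => ?_⟩
  have h0 : act (v ++ [a]) x = x := hx
  have h2 : act1 a (act v x) = x := by
    rw [act_append] at h0
    exact h0
  rw [hT x]
  refine ⟨?_, ?_⟩
  · show act v (act1 a (act v x)) = act v x
    rw [h2]
  · show loc a (act v x) 0 + xi v (act1 a (act v x)) 0 = xi (v ++ [a]) x 0
    rw [h2, xi_append, xi_single, add_comm]

theorem Tr_stab (n : ℕ) (w : Word) (e : Bool) (h : Valid (n + 1) w) :
    Tr (n + 1, w) (n + 2, w ++ [(n, e)]) := by
  refine ⟨{ toFun := fun x k => if k = n + 1 then x n else x k, map_add' := ?_,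
            map_smul' := ?_ }, fun x hx => ?_⟩
  · intro x y
    funext k
    show (if k = n + 1 then (x + y) n else (x + y) k) =
      (if k = n + 1 then x n else x k) + (if k = n + 1 then y n else y k)
    split_ifs <;> rfl
  · intro c x
    funext k
    show (if k = n + 1 then (c • x) n else (c • x) k) = c • (if k = n + 1 then x n else x k)
    split_ifs <;> rfl
  · show act (w ++ [(n, e)]) (fun k => if k = n + 1 then x n else x k) =
        (fun k => if k = n + 1 then x n else x k) ∧
      xi (w ++ [(n, e)]) (fun k => if k = n + 1 then x n else x k) 0 = xi w x 0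
    have hx1 : act w x = x := hx
    obtain ⟨y, hy⟩ : ∃ y : ℕ → ℂ, y = fun k => if k = n + 1 then x n else x k := ⟨_, rfl⟩
    rw [← hy]
    have hyk : ∀ k < n + 1, y k = x k := by
      intro k hk
      rw [hy]
      exact if_neg (by omega)
    have hyn : y (n + 1) = x n := by
      rw [hy]
      exact if_pos rfl
    have h1 : act w y = y := by
      funext k
      rcases Nat.lt_or_ge k (n + 1) with hk | hk
      · rw [act_congr h hyk k hk, hx1, hyk k hk]
      · exact act_valid h y hk
    have h2 : y (n, e).1 = y ((n, e).1 + 1) := by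
      show y n = y (n + 1)
      rw [hyn, hyk n (by omega)]
    refine ⟨?_, ?_⟩
    · rw [act_append, h1]
      exact act1_triv h2
    · rw [xi_append, h1, xi_single, loc_triv 0 h2, add_zero]
      exact xi_congr h 0 hyk

theorem Tr_stab' (n : ℕ) (w : Word) (e : Bool) (h : Valid (n + 1) w) :
    Tr (n + 2, w ++ [(n, e)]) (n + 1, w) := by
  refine ⟨LinearMap.id, fun x hx => ?_⟩
  show act w x = x ∧ xi w x 0 = xi (w ++ [(n, e)]) x 0
  have hx1 : act (w ++ [(n, e)]) x = x := hx
  have h1 : act1 (n, e) (act w x) = x := by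
    rw [act_append] at hx1
    exact hx1
  have h2 : act w x (n + 1) = x (n + 1) := act_valid h x (le_refl _)
  have h3 : (if e then act w x n else mix (act w x n) (act w x (n + 1))) = x (n + 1) := by
    have h4 := congrFun h1 (n + 1)
    unfold act1 at h4
    rw [if_neg (by show n + 1 ≠ n; omega), if_pos rfl] at h4
    exact h4
  have h5 : act w x n = act w x (n + 1) := by
    cases e
    · have h6 : mix (act w x n) (act w x (n + 1)) = x (n + 1) := h3
      rw [← h2] at h6
      unfold mix at h6
      have h7 : t * (act w x n - act w x (n + 1)) = 0 := by linear_combination h6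
      rcases mul_eq_zero.1 h7 with h8 | h8
      · exact absurd h8 t_ne
      · exact sub_eq_zero.1 h8
    · have h6 : act w x n = x (n + 1) := h3
      rw [h6, h2]
  have h6 : act w x (n, e).1 = act w x ((n, e).1 + 1) := h5
  have h7 : act w x = x := by
    rw [act1_triv h6] at h1
    exact h1
  refine ⟨h7, ?_⟩
  rw [xi_append, xi_single, loc_triv 0 h6, add_zero]

end Pool.Agent.Work.MP_749b09_gt
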