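import Pool.Agent.Work.MP_749b09_gt.XiA

/-!
# ColR3 (M): the braid relation for colourings and for the state sum

Let `(a, b, c) = (x i, x (i+1), x (i+2))`, `m = mix`.  Positive letter: `(l, r) ↦ (m l r, l)`.
* `i, i+1, i`: `(a, b, c) → (m a b, a, c) → (m a b, m a c, a) → (m (m a b) (m a c), m a b, a)`;
* `i+1, i, i+1`: `(a, b, c) → (a, m b c, b) → (m a (m b c), a, b) → (m a (m b c), m a b, a)`;
  equal since `m` is affine: `m (m a b) (m a c) = m a (m b c)` (ring after `unfold mix`; needs no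
  relation: `t (t a + (1-t) b) + (1-t) (t a + (1-t) c) = t a + (1-t) (t b + (1-t) c)`, true).
* State sum.  Let `ρ = reg x s i`.  Left side: three terms
  `a (m a b - ρ) C(a - m a b)²` (label `ρ` at `i`),
  `a (m a c - ρ1) C(a - m a c)²` with `ρ1` = label at `i+1` after the first letter
  `= (1-t) (m a b) + t ρ`,
  `(m a b) (m (m a b) (m a c) - ρ) C(m a b - m (m a b) (m a c))²`,  `C = conj`.
  Right side: `b (m b c - ρ2) C(b - m b c)²` with `ρ2 = (1-t) a + t ρ`,
  `a (m a (m b c) - ρ) C(a - m a (m b c))²`, `a (m a b - ρ3) C(a - m a b)²` with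
  `ρ3 = (1-t) (m a (m b c)) + t ρ`.
  With `p = conj (a - b)`, `q = conj (b - c)`:  `C(a - m a b) = t p` (because
  `a - m a b = (1-t) (a - b)` and `conj (1-t) = t`), `C(a - m a c) = t (p + q)`,
  `m a b - m (m a b) (m a c) = (1-t) (m a b - m a c) = (1-t)² (b - c)`, so its conjugate is
  `t² q`; `C(b - m b c) = t q`; `a - m a (m b c) = (1-t) (a - m b c)`,
  `a - m b c = (a - b) + (1-t) (b - c)`, so its conjugate is `t (p + t q)`.
  Substitute these (generalise `p, q` as independent variables, with `a - b`, `b - c` not related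
  to them); the identity becomes polynomial in `t, a, b, c, ρ, p, q` and follows from
  `t² = t - 1`: `linear_combination (coefficient) * t_sq` (the coefficient is a polynomial; it is
  easiest to replace `t^2, t^3, ...` by hand: `t^2 = t - 1, t^3 = -1, t^4 = -t`, expand both sides
  with `ring_nf` and `simp only [...]`; checked by computer).
-/

namespace Pool.Agent.Work.MP_749b09_gt

open ComplexConjugate

private theorem cr_a (i : ℕ) (x : ℕ → ℂ) : act1 (i, true) x i = mix (x i) (x (i + 1)) := by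
  simp [act1]

private theorem cr_b (i : ℕ) (x : ℕ → ℂ) : act1 (i, true) x (i + 1) = x i := by
  simp [act1]

private theorem cr_c (i : ℕ) (x : ℕ → ℂ) {k : ℕ} (h1 : k ≠ i) (h2 : k ≠ i + 1) :
    act1 (i, true) x k = x k := by
  simp [act1, h1, h2]

theorem act_r3 (i : ℕ) (x : ℕ → ℂ) :
    act [(i, true), (i + 1, true), (i, true)] x
      = act [(i + 1, true), (i, true), (i + 1, true)] x := by
  show act1 (i, true) (act1 (i + 1, true) (act1 (i, true) x)) =
    act1 (i + 1, true) (act1 (i, true) (act1 (i + 1, true) x))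
  funext k
  by_cases h0 : k = i
  · subst h0
    rw [cr_a, cr_c (k + 1) _ (by omega) (by omega), cr_a, cr_a, cr_b,
      cr_c k x (k := k + 1 + 1) (by omega) (by omega),
      cr_c (k + 1) (act1 (k, true) (act1 (k + 1, true) x)) (by omega) (by omega), cr_a, cr_a,
      cr_c (k + 1) x (by omega) (by omega)]
    unfold mix
    ring
  by_cases h1 : k = i + 1
  · subst h1
    rw [cr_b, cr_c (i + 1) _ (k := i) (by omega) (by omega), cr_a, cr_a, cr_b,
      cr_c i (act1 (i + 1, true) x) (k := i + 1 + 1) (by omega) (by omega), cr_b,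
      cr_c (i + 1) x (k := i) (by omega) (by omega)]
  by_cases h2 : k = i + 1 + 1
  · subst h2
    rw [cr_c i (act1 (i + 1, true) (act1 (i, true) x)) (by omega) (by omega), cr_b, cr_b, cr_b,
      cr_b, cr_c (i + 1) x (k := i) (by omega) (by omega)]
  · rw [cr_c i _ h0 h1, cr_c (i + 1) _ h1 h2, cr_c i _ h0 h1, cr_c (i + 1) _ h1 h2,
      cr_c i _ h0 h1, cr_c (i + 1) _ h1 h2]

theorem xi_r3 (i : ℕ) (x : ℕ → ℂ) (s : ℂ) :
    xi [(i, true), (i + 1, true), (i, true)] x s
      = xi [(i + 1, true), (i, true), (i + 1, true)] x s := by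
  have hx1 : reg (act1 (i, true) x) s (i + 1) =
      (1 - t) * mix (x i) (x (i + 1)) + t * reg x s i := by
    show (1 - t) * act1 (i, true) x i + t * reg (act1 (i, true) x) s i = _
    rw [cr_a, reg_act1 i true x s (by omega)]
  have hx2 : reg (act1 (i + 1, true) (act1 (i, true) x)) s i = reg x s i := by
    rw [reg_act1 (i + 1) true _ s (by omega), reg_act1 i true x s (by omega)]
  have hy0 : reg x s (i + 1) = (1 - t) * x i + t * reg x s i := rfl
  have hy1 : reg (act1 (i + 1, true) x) s i = reg x s i := reg_act1 (i + 1) true x s (by omega)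
  have hy2 : reg (act1 (i, true) (act1 (i + 1, true) x)) s (i + 1) =
      (1 - t) * mix (x i) (mix (x (i + 1)) (x (i + 1 + 1))) + t * reg x s i := by
    show (1 - t) * act1 (i, true) (act1 (i + 1, true) x) i +
      t * reg (act1 (i, true) (act1 (i + 1, true) x)) s i = _
    rw [cr_a, cr_a, cr_c (i + 1) x (k := i) (by omega) (by omega),
      reg_act1 i true _ s (by omega), hy1]
  show loc (i, true) x s + (loc (i + 1, true) (act1 (i, true) x) s +
      (loc (i, true) (act1 (i + 1, true) (act1 (i, true) x)) s + 0)) =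
    loc (i + 1, true) x s + (loc (i, true) (act1 (i + 1, true) x) s +
      (loc (i + 1, true) (act1 (i, true) (act1 (i + 1, true) x)) s + 0))
  unfold loc
  simp only [if_true]
  rw [hx1, hx2, hy0, hy1, hy2]
  rw [cr_c (i + 1) (act1 (i, true) x) (k := i) (by omega) (by omega), cr_a (i + 1), cr_a i x,
    cr_b i x, cr_c i x (k := i + 1 + 1) (by omega) (by omega)]
  rw [cr_c (i + 1) x (k := i) (by omega) (by omega), cr_a (i + 1) x, cr_b i,
    cr_c i (act1 (i + 1, true) x) (k := i + 1 + 1) (by omega) (by omega), cr_b (i + 1) x,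
    cr_c (i + 1) x (k := i) (by omega) (by omega)]
  generalize reg x s i = ρ
  generalize x i = a
  generalize x (i + 1 + 1) = c
  generalize x (i + 1) = b
  unfold mix
  simp only [map_sub, map_add, map_mul, map_one, conj_t]
  obtain ⟨p, hp⟩ : ∃ p, p = conj a - conj b := ⟨_, rfl⟩
  obtain ⟨q, hq⟩ : ∃ q, q = conj b - conj c := ⟨_, rfl⟩
  have hb : conj b = conj c + q := by rw [hq]; ring
  have ha : conj a = conj c + q + p := by rw [hp, hq]; ring
  rw [ha, hb]
  generalize conj c = C
  linear_combination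
    (-ρ * a * q ^ 2 * t ^ 3 + ρ * b * q ^ 2 * t ^ 3 - 2 * a * b * p * q * t ^ 2 + 2 * a * b * p
      * q * t ^ 3 - a * b * p ^ 2 * t ^ 2 + a * b * p ^ 2 * t ^ 3 + a * b * q ^ 2 * t ^ 3 - a *
      b * q ^ 2 * t ^ 5 + 2 * a * c * p * q * t ^ 2 - 2 * a * c * p * q * t ^ 3 + a * c * p ^ 2
      * t ^ 2 - a * c * p ^ 2 * t ^ 3 + a * c * q ^ 2 * t ^ 2 - 2 * a * c * q ^ 2 * t ^ 4 + a *
      c * q ^ 2 * t ^ 5 + a ^ 2 * q ^ 2 * t ^ 4 - b * c * q ^ 2 * t ^ 2 + 2 * b * c * q ^ 2 * t
      ^ 4 - b * c * q ^ 2 * t ^ 5 - b ^ 2 * q ^ 2 * t ^ 3 - b ^ 2 * q ^ 2 * t ^ 4 + b ^ 2 * q ^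
      2 * t ^ 5) * t_sq

end Pool.Agent.Work.MP_749b09_gt
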