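import Pool.Agent.Work.MP_749b09_gt.ColCS
import Pool.Agent.Work.MP_749b09_gt.ColR3

/-!
# ColIso (S): transport of closed colourings along isotopies

`Tr_markov`: by cases on the Markov move: `cancel`, `far`, `braid` by `Tr_local` (both directions;
for `cancel` with the empty word as the other side, `u ++ v = u ++ [] ++ v`), `conj`, `stab` by the
lemmas of `ColCS`.  `Tr_iso`: induction on `Relation.EqvGen`, proving `Tr D D' ∧ Tr D' D`.
-/

namespace Pool.Agent.Work.MP_749b09_gt


theorem Tr_markov {D D' : ℕ × Word} (h : Markov D D') : Tr D D' ∧ Tr D' D := by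
  cases h with
  | cancel n u v i e h =>
    have h1 : ∀ x, act [(i, e), (i, !e)] x = act [] x := fun x => act_cancel i e x
    have h2 : ∀ x s, xi [(i, e), (i, !e)] x s = xi [] x s := fun x s => xi_cancel i e x s
    have a1 := Tr_local n u v [(i, e), (i, !e)] [] h1 h2
    have a2 := Tr_local n u v [] [(i, e), (i, !e)] (fun x => (h1 x).symm) (fun x s => (h2 x s).symm)
    simp only [List.append_nil] at a1 a2
    exact ⟨a1, a2⟩
  | far n u v i j e f h =>
    exact ⟨Tr_local n u v _ _ (act_far i j e f h) (xi_far i j e f h),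
      Tr_local n u v _ _ (fun x => (act_far i j e f h x).symm)
        (fun x s => (xi_far i j e f h x s).symm)⟩
  | braid n u v i =>
    exact ⟨Tr_local n u v _ _ (act_r3 i) (xi_r3 i),
      Tr_local n u v _ _ (fun x => (act_r3 i x).symm) (fun x s => (xi_r3 i x s).symm)⟩
  | conj n a v => exact ⟨Tr_conj n a v, Tr_conj' n a v⟩
  | stab n w e h => exact ⟨Tr_stab n w e h, Tr_stab' n w e h⟩

theorem Tr_iso {D D' : ℕ × Word} (h : Isotopic D D') : Tr D D' ∧ Tr D' D := by
  unfold Isotopic at h
  induction h with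
  | rel x y h => exact Tr_markov h
  | refl x => exact ⟨Tr_refl x, Tr_refl x⟩
  | symm x y _ ih => exact ⟨ih.2, ih.1⟩
  | trans x y z _ _ ih1 ih2 => exact ⟨Tr_trans ih1.1 ih2.1, Tr_trans ih2.2 ih1.2⟩

end Pool.Agent.Work.MP_749b09_gt
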