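import Mathlib

/-!
# Links as closed braids, and cobordisms as movies of closed braids

An oriented link in the 3-sphere is given by a pair `(n, w)`: the closure of the braid word `w`
on `n` strands (Alexander's theorem).  The strands are numbered `0, ..., n - 1` and oriented
downwards; the letter `(i, true)` is the positive crossing of the strands `i` and `i + 1`
(the generator), the letter `(i, false)` is the negative crossing (its inverse).
-/

namespace Pool.Agent.Work.MP_749b09_gt

/-- A braid word.  The letter `(i, true)` is the positive crossing of the strands `i` and
`i + 1`, the letter `(i, false)` is the negative crossing of the same strands. -/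
abbrev Word : Type := List (ℕ × Bool)

/-- All letters of `w` act on the strands `0, ..., n - 1`. -/
def Valid (n : ℕ) (w : Word) : Prop := ∀ a ∈ w, a.1 + 1 < n

/-- One relation between braid words, or one Markov move.  `(n, w)` is the closed braid of the
word `w` on `n` strands. -/
inductive Markov : ℕ × Word → ℕ × Word → Prop
  /-- two adjacent inverse crossings cancel (Reidemeister move 2) -/
  | cancel (n : ℕ) (u v : Word) (i : ℕ) (e : Bool) (h : i + 1 < n) :
      Markov (n, u ++ [(i, e), (i, !e)] ++ v) (n, u ++ v)
  /-- crossings of disjoint pairs of strands commute -/
  | far (n : ℕ) (u v : Word) (i j : ℕ) (e f : Bool) (h : i + 2 ≤ j) :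
      Markov (n, u ++ [(i, e), (j, f)] ++ v) (n, u ++ [(j, f), (i, e)] ++ v)
  /-- the braid relation (Reidemeister move 3) -/
  | braid (n : ℕ) (u v : Word) (i : ℕ) :
      Markov (n, u ++ [(i, true), (i + 1, true), (i, true)] ++ v)
        (n, u ++ [(i + 1, true), (i, true), (i + 1, true)] ++ v)
  /-- conjugation -/
  | conj (n : ℕ) (a : ℕ × Bool) (v : Word) : Markov (n, a :: v) (n, v ++ [a])
  /-- stabilisation, with either sign of the new crossing -/
  | stab (n : ℕ) (w : Word) (e : Bool) (h : Valid (n + 1) w) :
      Markov (n + 1, w) (n + 2, w ++ [(n, e)])

/-- Two closed braids are isotopic as oriented links (Markov's theorem): they are joined by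
finitely many braid relations and Markov moves, in either direction. -/
def Isotopic (D D' : ℕ × Word) : Prop := Relation.EqvGen Markov D D'

/-- `Bounds b χ D`: the closed braid `D` bounds in the 4-ball an oriented surface of Euler
characteristic `χ` (possibly with closed components or several components) on which the distance
from the centre is a Morse function with exactly `b` local maxima.  The surface is read from the
boundary towards the centre as a movie: an isotopy; a saddle, which is the removal or the
insertion of one crossing; a local minimum, at which an unknotted split strand disappears; a local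
maximum, at which such a strand appears; the movie ends with the empty link. -/
inductive Bounds : ℕ → ℤ → ℕ × Word → Prop
  | empty : Bounds 0 0 (0, [])
  | iso {b : ℕ} {χ : ℤ} {D D' : ℕ × Word} (h : Isotopic D D') (h' : Bounds b χ D') :
      Bounds b χ D
  | saddleRemove {b : ℕ} {χ : ℤ} {n : ℕ} {u v : Word} {a : ℕ × Bool} (ha : a.1 + 1 < n)
      (h : Bounds b χ (n, u ++ v)) : Bounds b (χ - 1) (n, u ++ a :: v)
  | saddleInsert {b : ℕ} {χ : ℤ} {n : ℕ} {u v : Word} {a : ℕ × Bool} (ha : a.1 + 1 < n)
      (h : Bounds b χ (n, u ++ a :: v)) : Bounds b (χ - 1) (n, u ++ v)
  | min {b : ℕ} {χ : ℤ} {n : ℕ} {w : Word} (hw : Valid n w)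
      (h : Bounds b χ (n, w)) : Bounds b (χ + 1) (n + 1, w)
  | max {b : ℕ} {χ : ℤ} {n : ℕ} {w : Word} (hw : Valid n w)
      (h : Bounds b χ (n + 1, w)) : Bounds (b + 1) (χ + 1) (n, w)

/-- One crossing change of a negative crossing to a positive one. -/
inductive NegPosStep : ℕ × Word → ℕ × Word → Prop
  | mk (n : ℕ) (u v : Word) (i : ℕ) :
      NegPosStep (n, u ++ (i, false) :: v) (n, u ++ (i, true) :: v)

/-- `NegToPos J K`: the link `K` is obtained from `J` by a finite sequence of isotopies and
crossing changes, each of which turns a negative crossing into a positive one. -/
def NegToPos (J K : ℕ × Word) : Prop :=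
  Relation.ReflTransGen (fun A B => Isotopic A B ∨ NegPosStep A B) J K

/-- One generalized positive crossing change on four strands: the strands `i, i + 1` and the
strands `i + 2, i + 3` form two bands of two parallel strands.  The four negative crossings of the
two bands are replaced by four positive crossings, together with a negative full twist of each of
the two bands.  This is the insertion of a full twist into the four strands (two in each
direction) which meet a disk separating the two sides of the crossing of the bands. -/
inductive GenPosStep : ℕ × Word → ℕ × Word → Prop
  | mk (n : ℕ) (u v : Word) (i : ℕ) (h : i + 3 < n) :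
      GenPosStep
        (n, u ++ [(i + 1, false), (i + 2, false), (i, false), (i + 1, false)] ++ v)
        (n, u ++ [(i + 1, true), (i, true), (i + 2, true), (i + 1, true),
          (i, false), (i, false), (i + 2, false), (i + 2, false)] ++ v)

/-- `GenPos k J K`: the link `K` is obtained from `J` by isotopies and exactly `k` generalized
positive crossing changes on four strands. -/
inductive GenPos : ℕ → ℕ × Word → ℕ × Word → Prop
  | iso {J K : ℕ × Word} (h : Isotopic J K) : GenPos 0 J K
  | step {k : ℕ} {J A B K : ℕ × Word} (h : GenPos k J A) (h' : GenPosStep A B)
      (h'' : Isotopic B K) : GenPos (k + 1) J K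

/-- The permutation of the strands given by a braid word. -/
def perm (w : Word) : Equiv.Perm ℕ := (w.map fun a => Equiv.swap a.1 (a.1 + 1)).prod

/-- The closed braid `D` is a knot: there is a strand, all letters are valid, and all strands
lie in one cycle of the permutation. -/
def IsKnot (D : ℕ × Word) : Prop :=
  0 < D.1 ∧ Valid D.1 D.2 ∧ ∀ i < D.1, (perm D.2).SameCycle 0 i

end Pool.Agent.Work.MP_749b09_gt
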