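import Pool.Agent.Work.MP_749b09_gt.FormZ
import Pool.Agent.Work.MP_749b09_gt.Abs

/-!
# FConj (M): the form and conjugation

Let `a = (i, e)`, `ℓ = length v`.
`FConj_one` (`PosD_map`): `T (Z, y) = (Z + sg i (y 0) - sg (i+1) (t * y 0), y')` with
`y' k = if k < ℓ then y (k+1) else y 0`.  Claim `B (v ++ [a]) (T p) (T q) = B (a :: v) p q`
(then `Q` is preserved; only `p = q` is needed).  Let `P = nxt i p`, `R = nxt i q`; on the letters of
`v`, `T p = P + (sg (i+1) (-(t * p.2 0)), 0)` (up to letter variables `≥ ℓ`, `B_congr`).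
So `B v (T p) (T q) = B v P R + B v (sg (i+1) c, 0) R + B v P (sg (i+1) d, 0) + 0` with
`c = -(t p.2 0)`, `d = -(t q.2 0)`; by `B_Z` the second term is
`(1-t) conj c (S (i+1) - S i)`, `S k = (run v R).1 k - R.1 k`, and `(1-t) conj c = -(1-t)² conj (p.2 0)
= t conj (p.2 0)`; the third term is the conjugate of the same with `p, q` exchanged (`B_symm`).
The last letter `a` sees the strands `i, i+1` of `run v (T q)`, which are
`R.1 i + S i = q.1 i + q.2 0 + S i` and `q.1 (i+1) - t q.2 0 + S (i+1)`, and contributes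
`conj (p.2 0) t (q.1 i + q.2 0 + S i + dl e q.2 0 - q.1 (i+1) + t q.2 0 - S (i+1))` and the
conjugate part.  Compared with the first letter of `a :: v`,
`conj (p.2 0) t (q.1 i + dl e q.2 0 - q.1 (i+1))`, the terms with `S` cancel the second term above, and
`conj (p.2 0) q.2 0 (t + t²)` plus its conjugate part `(1-t) (1 + (1-t)) conj (p.2 0) q.2 0` has
the sum `(t + t² + (1-t) + (1-t)²) = 0` by `t² = t - 1`.
`FConj_two`: `T (Z, y) = (Z - sg i (y ℓ) + sg (i+1) (t * y ℓ), cns (y ℓ) y)`; it is the inverse map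
(`T_one (T_two (Z, y))` agrees with `(Z, y)` on the strands and on the letters `≤ ℓ`), so the claim
follows from the first one and `B_congr`.  Both checked by computer.
-/

namespace Pool.Agent.Work.MP_749b09_gt

open ComplexConjugate

private theorem run_Z (w : Word) (Z : ℕ → ℂ) : run w (Z, 0) = (Z, 0) := by
  induction w with
  | nil => rfl
  | cons a w ih =>
    have h1 : nxt a.1 (Z, 0) = (Z, 0) := by
      unfold nxt sg
      refine Prod.ext (funext fun k => ?_) (funext fun k => rfl)
      show Z k + (if k = a.1 then (0 : ℂ) else 0) = Z k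
      split_ifs <;> rw [add_zero]
    show run w (nxt a.1 (Z, 0)) = (Z, 0)
    rw [h1, ih]

/-- the change of variables -/
private noncomputable def T1 (i l : ℕ) : V →ₗ[ℂ] V where
  toFun p := (fun k => p.1 k + sg i (p.2 0) k - sg (i + 1) (t * p.2 0) k,
    fun k => if k < l then p.2 (k + 1) else p.2 0)
  map_add' p q := by
    refine Prod.ext (funext fun k => ?_) (funext fun k => ?_)
    · simp only [sg, Prod.fst_add, Prod.snd_add, Pi.add_apply]
      split_ifs <;> ring
    · simp only [Prod.snd_add, Pi.add_apply]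
      split_ifs <;> rfl
  map_smul' c p := by
    refine Prod.ext (funext fun k => ?_) (funext fun k => ?_)
    · simp only [sg, Prod.smul_fst, Prod.smul_snd, Pi.smul_apply, smul_eq_mul, RingHom.id_apply]
      split_ifs <;> ring
    · simp only [Prod.smul_snd, Pi.smul_apply, smul_eq_mul, RingHom.id_apply]
      split_ifs <;> rfl

private noncomputable def T2 (i l : ℕ) : V →ₗ[ℂ] V where
  toFun p := (fun k => p.1 k - sg i (p.2 l) k + sg (i + 1) (t * p.2 l) k, cns (p.2 l) p.2)
  map_add' p q := by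
    refine Prod.ext (funext fun k => ?_) (funext fun k => ?_)
    · simp only [sg, Prod.fst_add, Prod.snd_add, Pi.add_apply]
      split_ifs <;> ring
    · cases k <;> rfl
  map_smul' c p := by
    refine Prod.ext (funext fun k => ?_) (funext fun k => ?_)
    · simp only [sg, Prod.smul_fst, Prod.smul_snd, Pi.smul_apply, smul_eq_mul, RingHom.id_apply]
      split_ifs <;> ring
    · cases k <;> rfl

private theorem B_T1 (i : ℕ) (e : Bool) (v : Word) (p q : V) :
    B (v ++ [(i, e)]) (T1 i v.length p) (T1 i v.length q) = B ((i, e) :: v) p q := by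
  obtain ⟨P, hP⟩ : ∃ P, P = nxt i p := ⟨_, rfl⟩
  obtain ⟨R, hR⟩ : ∃ R, R = nxt i q := ⟨_, rfl⟩
  obtain ⟨c, hc⟩ : ∃ c, c = -(t * p.2 0) := ⟨_, rfl⟩
  obtain ⟨d, hd⟩ : ∃ d, d = -(t * q.2 0) := ⟨_, rfl⟩
  have hT1 : ∀ (x X : V), X = nxt i x → ∀ s : ℂ, s = -(t * x.2 0) →
      (T1 i v.length x).1 = (X + ((sg (i + 1) s, 0) : V)).1 := by
    intro x X hX s hs
    funext k
    subst hX hs
    show x.1 k + sg i (x.2 0) k - sg (i + 1) (t * x.2 0) k =
      x.1 k + sg i (x.2 0) k + sg (i + 1) (-(t * x.2 0)) k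
    unfold sg
    split_ifs <;> ring
  have hT2 : ∀ (x X : V), X = nxt i x → ∀ s : ℂ, ∀ j < v.length,
      (T1 i v.length x).2 j = (X + ((sg (i + 1) s, 0) : V)).2 j := by
    intro x X hX s j hj
    subst hX
    show (if j < v.length then x.2 (j + 1) else x.2 0) = x.2 (j + 1) + 0
    rw [if_pos hj, add_zero]
  have hT3 : ∀ x : V, (run v (T1 i v.length x)).2 0 = x.2 0 := by
    intro x
    rw [run_snd, zero_add]
    show (if v.length < v.length then x.2 (v.length + 1) else x.2 0) = x.2 0
    rw [if_neg (lt_irrefl _)]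
  have hT4 : ∀ (x X : V), X = nxt i x → ∀ s : ℂ, s = -(t * x.2 0) →
      ∀ k, (run v (T1 i v.length x)).1 k = (run v X).1 k + sg (i + 1) s k := by
    intro x X hX s hs k
    rw [run_congr v (hT1 x X hX s hs) (hT2 x X hX s), run_add, run_Z]
    rfl
  rw [B_append, B_congr v (hT1 p P hP c hc) (hT2 p P hP c) (hT1 q R hR d hd) (hT2 q R hR d),
    B_add_left, B_add_right, B_add_right, B_Z, B_Z, run_Z,
    B_symm v ((sg (i + 1) d, 0) : V) P, B_Z]
  have h1 : B [(i, e)] (run v (T1 i v.length p)) (run v (T1 i v.length q)) =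
      locB (i, e) (run v (T1 i v.length p)) (run v (T1 i v.length q)) := by
    show locB (i, e) (run v (T1 i v.length p)) (run v (T1 i v.length q)) + 0 = _
    rw [add_zero]
  rw [h1]
  have h2 : B ((i, e) :: v) p q = locB (i, e) p q + B v P R := by
    rw [hP, hR]
    rfl
  rw [h2]
  unfold locB
  rw [hT3, hT3, hT4 p P hP c hc, hT4 p P hP c hc, hT4 q R hR d hd, hT4 q R hR d hd]
  have h3 : sg (i + 1) d i = 0 := if_neg (by omega)
  have h4 : sg (i + 1) d (i + 1) = d := if_pos rfl
  have h5 : sg (i + 1) c i = 0 := if_neg (by omega)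
  have h6 : sg (i + 1) c (i + 1) = c := if_pos rfl
  have h7 : ∀ (x X : V), X = nxt i x → X.1 i = x.1 i + x.2 0 := by
    intro x X hX
    subst hX
    show x.1 i + (if i = i then x.2 0 else 0) = _
    rw [if_pos rfl]
  have h8 : ∀ (x X : V), X = nxt i x → X.1 (i + 1) = x.1 (i + 1) := by
    intro x X hX
    subst hX
    show x.1 (i + 1) + (if i + 1 = i then x.2 0 else 0) = _
    rw [if_neg (by omega), add_zero]
  dsimp only
  rw [h3, h4, h5, h6, h7 p P hP, h7 q R hR, h8 p P hP, h8 q R hR, hc, hd]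
  simp only [map_add, map_sub, map_mul, map_neg, Complex.conj_conj, map_one, map_zero, conj_t]
  generalize conj (p.2 0) = p0
  generalize conj ((run v P).1 i) = a1
  generalize conj ((run v P).1 (i + 1)) = a2
  generalize conj (p.1 i) = a3
  generalize conj (p.1 (i + 1)) = a4
  generalize conj (dl e) = a5
  linear_combination (2 * p0 * q.2 0 - p0 * (((run v R).1 (i + 1) - q.1 (i + 1)) -
    ((run v R).1 i - (q.1 i + q.2 0))) - q.2 0 * ((a2 - a4) - (a1 - (a3 + p0)))) * t_sq

theorem FConj_one (a : ℕ × Bool) (v : Word) {k : ℕ} (h : PosD (Q (a :: v)) k) :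
    PosD (Q (v ++ [a])) k := by
  obtain ⟨i, e⟩ := a
  refine PosD_map (T1 i v.length) (fun p => ?_) h
  unfold Q
  rw [B_T1]

theorem FConj_two (a : ℕ × Bool) (v : Word) {k : ℕ} (h : PosD (Q (v ++ [a])) k) :
    PosD (Q (a :: v)) k := by
  obtain ⟨i, e⟩ := a
  refine PosD_map (T2 i v.length) (fun p => ?_) h
  have h1 := B_T1 i e v (T2 i v.length p) (T2 i v.length p)
  have h2 : (T1 i v.length (T2 i v.length p)).1 = p.1 := by
    funext k
    show (p.1 k - sg i (p.2 v.length) k + sg (i + 1) (t * p.2 v.length) k) +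
      sg i (p.2 v.length) k - sg (i + 1) (t * p.2 v.length) k = p.1 k
    ring
  have h3 : ∀ j < (v ++ [(i, e)]).length, (T1 i v.length (T2 i v.length p)).2 j = p.2 j := by
    intro j hj
    rw [List.length_append, List.length_singleton] at hj
    show (if j < v.length then p.2 j else p.2 v.length) = p.2 j
    split_ifs with h4
    · rfl
    · have h5 : j = v.length := by omega
      rw [h5]
  rw [B_congr _ h2 h3 h2 h3] at h1
  unfold Q
  rw [h1]

end Pool.Agent.Work.MP_749b09_gt
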