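import Pool.Agent.Work.MP_749b09_gt.FormT
import Pool.Agent.Work.MP_749b09_gt.Abs

/-!
# FFar (S-M): the form and far commutation

`PosD_map` with `T (Z, y) = (Z, tl (length u) sw y)`, where `sw` exchanges the first two variables:
`sw y = cns (y 1) (cns (y 0) (fun k => y (k+2)))` (linear).  By `B_local` it is enough to show
`B ([(j, f), (i, e)] ++ v) (Z, sw y) (Z', sw y') = B ([(i, e), (j, f)] ++ v) (Z, y) (Z', y')`
and the same with the roles of the two letters exchanged: `nxt i` changes the strand `i` only,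
`nxt j` changes the strand `j` only, and the letter `(i, e)` sees the strands `i, i+1`, the letter
`(j, f)` the strands `j, j+1`; as `i + 2 ≤ j` the contributions are the same; the final states agree.
-/

namespace Pool.Agent.Work.MP_749b09_gt

open ComplexConjugate

/-- exchange of the first two variables -/
private def ffsw : (ℕ → ℂ) →ₗ[ℂ] (ℕ → ℂ) where
  toFun y := cns (y 1) (cns (y 0) (fun k => y (k + 2)))
  map_add' y z := by
    funext k
    rcases k with _ | _ | k <;> rfl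
  map_smul' c y := by
    funext k
    rcases k with _ | _ | k <;> rfl

private theorem ff_sg_ne {i k : ℕ} (c : ℂ) (h : k ≠ i) : sg i c k = 0 := if_neg h

private theorem ff_key (v : Word) (i j : ℕ) (e f : Bool) (h1 : i ≠ j) (h2 : i + 1 ≠ j) (h3 : i ≠ j + 1)
    (p q : V) :
    B ((j, f) :: (i, e) :: v) (p.1, ffsw p.2) (q.1, ffsw q.2) = B ((i, e) :: (j, f) :: v) p q := by
  have h4 : j ≠ i := h1.symm
  have h5 : j + 1 ≠ i := h3.symm
  have h6 : i + 1 ≠ j + 1 := by omega
  have h7 : j + 1 ≠ i + 1 := by omega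
  change locB (j, f) (p.1, ffsw p.2) (q.1, ffsw q.2) +
    (locB (i, e) (nxt j (p.1, ffsw p.2)) (nxt j (q.1, ffsw q.2)) +
      B v (nxt i (nxt j (p.1, ffsw p.2))) (nxt i (nxt j (q.1, ffsw q.2)))) =
    locB (i, e) p q + (locB (j, f) (nxt i p) (nxt i q) + B v (nxt j (nxt i p)) (nxt j (nxt i q)))
  have e1 : ∀ z : V, nxt i (nxt j (z.1, ffsw z.2)) = nxt j (nxt i z) := by
    intro z
    refine Prod.ext ?_ ?_
    · funext k
      change z.1 k + sg j (z.2 1) k + sg i (z.2 0) k = z.1 k + sg i (z.2 0) k + sg j (z.2 1) k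
      ring
    · funext k
      rfl
  rw [e1, e1]
  have a1 : ∀ z : V, (nxt j (z.1, ffsw z.2)).1 i = z.1 i := by
    intro z
    change z.1 i + sg j (z.2 1) i = z.1 i
    rw [ff_sg_ne _ h1, add_zero]
  have a2 : ∀ z : V, (nxt j (z.1, ffsw z.2)).1 (i + 1) = z.1 (i + 1) := by
    intro z
    change z.1 (i + 1) + sg j (z.2 1) (i + 1) = z.1 (i + 1)
    rw [ff_sg_ne _ h2, add_zero]
  have a3 : ∀ z : V, (nxt i z).1 j = z.1 j := by
    intro z
    change z.1 j + sg i (z.2 0) j = z.1 j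
    rw [ff_sg_ne _ h4, add_zero]
  have a4 : ∀ z : V, (nxt i z).1 (j + 1) = z.1 (j + 1) := by
    intro z
    change z.1 (j + 1) + sg i (z.2 0) (j + 1) = z.1 (j + 1)
    rw [ff_sg_ne _ h5, add_zero]
  have a5 : ∀ z : V, (nxt j (z.1, ffsw z.2)).2 0 = z.2 0 := fun z => rfl
  have a6 : ∀ z : V, (nxt i z).2 0 = z.2 1 := fun z => rfl
  have a7 : ∀ z : V, (ffsw z.2) 0 = z.2 1 := fun z => rfl
  simp only [locB, a1, a2, a3, a4, a5, a6, a7]
  ring

theorem FFar_one (u v : Word) (i j : ℕ) (e f : Bool) (hij : i + 2 ≤ j) {k : ℕ}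
    (h : PosD (Q (u ++ [(i, e), (j, f)] ++ v)) k) : PosD (Q (u ++ [(j, f), (i, e)] ++ v)) k := by
  obtain ⟨T, hT⟩ := exists_tlLin u.length ffsw
  refine PosD_map T (fun q => ?_) h
  have h1 := B_local u ((i, e) :: (j, f) :: v) ((j, f) :: (i, e) :: v) ffsw
    (fun p1 q1 => ff_key v i j e f (by omega) (by omega) (by omega) p1 q1) q q
  have e1 : u ++ [(i, e), (j, f)] ++ v = u ++ ((i, e) :: (j, f) :: v) := by simp
  have e2 : u ++ [(j, f), (i, e)] ++ v = u ++ ((j, f) :: (i, e) :: v) := by simp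
  rw [e1, e2, hT]
  exact (congrArg Complex.re h1).ge

theorem FFar_two (u v : Word) (i j : ℕ) (e f : Bool) (hij : i + 2 ≤ j) {k : ℕ}
    (h : PosD (Q (u ++ [(j, f), (i, e)] ++ v)) k) : PosD (Q (u ++ [(i, e), (j, f)] ++ v)) k := by
  obtain ⟨T, hT⟩ := exists_tlLin u.length ffsw
  refine PosD_map T (fun q => ?_) h
  have h1 := B_local u ((j, f) :: (i, e) :: v) ((i, e) :: (j, f) :: v) ffsw
    (fun p1 q1 => ff_key v j i f e (by omega) (by omega) (by omega) p1 q1) q q
  have e1 : u ++ [(i, e), (j, f)] ++ v = u ++ ((i, e) :: (j, f) :: v) := by simp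
  have e2 : u ++ [(j, f), (i, e)] ++ v = u ++ ((j, f) :: (i, e) :: v) := by simp
  rw [e1, e2, hT]
  exact (congrArg Complex.re h1).ge

end Pool.Agent.Work.MP_749b09_gt
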