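import Pool.Agent.Work.MP_749b09_gt.FormT
import Pool.Agent.Work.MP_749b09_gt.Abs

/-!
# FR3 (M): the form and the braid relation

`PosD_map` with `T (Z, y) = (Z, tl (length u) f y)` (one direction) and with `g` (other direction):
* `f y = cns (t * y 2) (cns (y 0 + y 2) (cns (y 1 - t * y 2) (fun k => y (k+3))))`,
* `g y = cns (y 1 - (1-t) * y 0) (cns (y 2 + y 0) (cns ((1-t) * y 0) (fun k => y (k+3))))`.
By `B_local` it is enough to show, with `a = [(i, true), (i+1, true), (i, true)] ++ v` and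
`b = [(i+1, true), (i, true), (i+1, true)] ++ v`,
`B b (Z, f y) (Z', f y') = B a (Z, y) (Z', y')` and `B a (Z, g y) (Z', g y') = B b (Z, y) (Z', y')`.
The final states agree: after `a` the strand `i` has changed by `y 0 + y 2`, the strand `i+1` by
`y 1`; after `b` (with `f y`) the strand `i+1` by `t y 2 + y 1 - t y 2 = y 1`, the strand `i` by
`y 0 + y 2`.  The three contributions `locB` (`dl true = 0`): put `Z0, Z1, Z2 = Z i, Z (i+1), Z (i+2)`
(of the second argument, the other part is the conjugate); left (word `a`, variables `y`):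
`conj y0 t (Z0 - Z1) + conj y1 t (Z1 - Z2) + conj y2 t (Z0 + y0 - Z1 - y1)`; right (word `b`):
`conj (t y2) t (Z1 - Z2) + conj (y0 + y2) t (Z0 - Z1 - t y2) + conj (y1 - t y2) t (Z1 + t y2 - Z2)`
(and the second halves `(1-t) conj(..) y`).  With `conj t = 1 - t` (generalise the conjugates as
independent variables) the difference is a multiple of `t² - t + 1`:
`linear_combination (...) * t_sq`.  Checked by computer for the sesquilinear form, both
directions.
-/

namespace Pool.Agent.Work.MP_749b09_gt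

open ComplexConjugate

private noncomputable def f1 : (ℕ → ℂ) →ₗ[ℂ] (ℕ → ℂ) where
  toFun y := cns (t * y 2) (cns (y 0 + y 2) (cns (y 1 - t * y 2) (fun k => y (k + 3))))
  map_add' y y' := by
    funext k
    rcases k with _ | _ | _ | k <;> simp only [cns, Pi.add_apply] <;> ring
  map_smul' c y := by
    funext k
    rcases k with _ | _ | _ | k <;> simp only [cns, Pi.smul_apply, smul_eq_mul,
      RingHom.id_apply] <;> ring

private noncomputable def g1 : (ℕ → ℂ) →ₗ[ℂ] (ℕ → ℂ) where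
  toFun y := cns (y 1 - (1 - t) * y 0) (cns (y 2 + y 0) (cns ((1 - t) * y 0)
    (fun k => y (k + 3))))
  map_add' y y' := by
    funext k
    rcases k with _ | _ | _ | k <;> simp only [cns, Pi.add_apply] <;> ring
  map_smul' c y := by
    funext k
    rcases k with _ | _ | _ | k <;> simp only [cns, Pi.smul_apply, smul_eq_mul,
      RingHom.id_apply] <;> ring

private theorem f1_0 (y : ℕ → ℂ) : f1 y 0 = t * y 2 := rfl
private theorem f1_1 (y : ℕ → ℂ) : f1 y 1 = y 0 + y 2 := rfl
private theorem f1_2 (y : ℕ → ℂ) : f1 y 2 = y 1 - t * y 2 := rfl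
private theorem g1_0 (y : ℕ → ℂ) : g1 y 0 = y 1 - (1 - t) * y 0 := rfl
private theorem g1_1 (y : ℕ → ℂ) : g1 y 1 = y 2 + y 0 := rfl
private theorem g1_2 (y : ℕ → ℂ) : g1 y 2 = (1 - t) * y 0 := rfl

private theorem locB_true (i : ℕ) (p q : V) : locB (i, true) p q =
    conj (p.2 0) * (t * (q.1 i - q.1 (i + 1))) +
      (1 - t) * (conj (p.1 i) - conj (p.1 (i + 1))) * q.2 0 := by
  simp [locB, dl]

private theorem nxt_fst (j : ℕ) (p : V) (k : ℕ) : (nxt j p).1 k = p.1 k + sg j (p.2 0) k := rfl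

private theorem nxt_snd (j : ℕ) (p : V) (k : ℕ) : (nxt j p).2 k = p.2 (k + 1) := rfl

private theorem sg_self (i : ℕ) (c : ℂ) : sg i c i = c := if_pos rfl

private theorem sg_ne {i k : ℕ} (c : ℂ) (h : k ≠ i) : sg i c k = 0 := if_neg h

private theorem f1_st (i : ℕ) (p : V) :
    nxt (i + 1) (nxt i (nxt (i + 1) (p.1, f1 p.2))) = nxt i (nxt (i + 1) (nxt i p)) := by
  refine Prod.ext ?_ ?_
  · funext k
    show p.1 k + sg (i + 1) (t * p.2 2) k + sg i (p.2 0 + p.2 2) k +
      sg (i + 1) (p.2 1 - t * p.2 2) k =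
        p.1 k + sg i (p.2 0) k + sg (i + 1) (p.2 1) k + sg i (p.2 2) k
    unfold sg
    split_ifs <;> ring
  · rfl

private theorem g1_st (i : ℕ) (p : V) :
    nxt i (nxt (i + 1) (nxt i (p.1, g1 p.2))) = nxt (i + 1) (nxt i (nxt (i + 1) p)) := by
  refine Prod.ext ?_ ?_
  · funext k
    show p.1 k + sg i (p.2 1 - (1 - t) * p.2 0) k + sg (i + 1) (p.2 2 + p.2 0) k +
      sg i ((1 - t) * p.2 0) k =
        p.1 k + sg (i + 1) (p.2 0) k + sg i (p.2 1) k + sg (i + 1) (p.2 2) k
    unfold sg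
    split_ifs <;> ring
  · rfl

private theorem B_three (a b c : ℕ × Bool) (v : Word) (p q : V) :
    B ([a, b, c] ++ v) p q = locB a p q + (locB b (nxt a.1 p) (nxt a.1 q) +
      (locB c (nxt b.1 (nxt a.1 p)) (nxt b.1 (nxt a.1 q)) +
        B v (nxt c.1 (nxt b.1 (nxt a.1 p))) (nxt c.1 (nxt b.1 (nxt a.1 q))))) := rfl

private theorem key1 (v : Word) (i : ℕ) (p q : V) :
    B ([(i + 1, true), (i, true), (i + 1, true)] ++ v) (p.1, f1 p.2) (q.1, f1 q.2) =
      B ([(i, true), (i + 1, true), (i, true)] ++ v) p q := by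
  have h1 : i ≠ i + 1 := by omega
  have h2 : i + 1 ≠ i := by omega
  have h3 : i + 1 + 1 ≠ i := by omega
  have h4 : i + 1 + 1 ≠ i + 1 := by omega
  rw [B_three, B_three, f1_st, f1_st, ← add_assoc, ← add_assoc, ← add_assoc, ← add_assoc]
  congr 1
  simp only [locB_true, nxt_fst, nxt_snd, sg_self, sg_ne _ h1, sg_ne _ h2, sg_ne _ h3,
    sg_ne _ h4, f1_0, f1_1, f1_2, zero_add, add_zero, map_add, map_sub, map_mul, conj_t,
    Nat.reduceAdd]
  linear_combination (-conj (p.2 0) * q.2 2 + conj (p.2 1) * q.2 2 - conj (p.2 2) * q.2 0 +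
    conj (p.2 2) * q.2 1 - conj (p.2 2) * q.2 2) * t_sq

private theorem key2 (v : Word) (i : ℕ) (p q : V) :
    B ([(i, true), (i + 1, true), (i, true)] ++ v) (p.1, g1 p.2) (q.1, g1 q.2) =
      B ([(i + 1, true), (i, true), (i + 1, true)] ++ v) p q := by
  have h1 : i ≠ i + 1 := by omega
  have h2 : i + 1 ≠ i := by omega
  have h3 : i + 1 + 1 ≠ i := by omega
  have h4 : i + 1 + 1 ≠ i + 1 := by omega
  rw [B_three, B_three, g1_st, g1_st, ← add_assoc, ← add_assoc, ← add_assoc, ← add_assoc]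
  congr 1
  simp only [locB_true, nxt_fst, nxt_snd, sg_self, sg_ne _ h1, sg_ne _ h2, sg_ne _ h3,
    sg_ne _ h4, g1_0, g1_1, g1_2, zero_add, add_zero, map_add, map_sub, map_mul, map_one, conj_t,
    Nat.reduceAdd]
  linear_combination (-conj (p.2 0) * q.2 0 + conj (p.2 0) * q.2 1 - conj (p.2 0) * q.2 2 +
    conj (p.2 1) * q.2 0 - conj (p.2 2) * q.2 0) * t_sq

theorem FR3_one (u v : Word) (i : ℕ) {k : ℕ}
    (h : PosD (Q (u ++ [(i, true), (i + 1, true), (i, true)] ++ v)) k) :
    PosD (Q (u ++ [(i + 1, true), (i, true), (i + 1, true)] ++ v)) k := by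
  obtain ⟨T, hT⟩ := exists_tlLin u.length f1
  refine PosD_map T (fun p => ?_) h
  have h1 := B_local u ([(i, true), (i + 1, true), (i, true)] ++ v)
    ([(i + 1, true), (i, true), (i + 1, true)] ++ v) f1 (key1 v i) p p
  unfold Q
  rw [List.append_assoc, List.append_assoc, hT, h1]

theorem FR3_two (u v : Word) (i : ℕ) {k : ℕ}
    (h : PosD (Q (u ++ [(i + 1, true), (i, true), (i + 1, true)] ++ v)) k) :
    PosD (Q (u ++ [(i, true), (i + 1, true), (i, true)] ++ v)) k := by
  obtain ⟨T, hT⟩ := exists_tlLin u.length g1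
  refine PosD_map T (fun p => ?_) h
  have h1 := B_local u ([(i + 1, true), (i, true), (i + 1, true)] ++ v)
    ([(i, true), (i + 1, true), (i, true)] ++ v) g1 (key2 v i) p p
  unfold Q
  rw [List.append_assoc, List.append_assoc, hT, h1]

end Pool.Agent.Work.MP_749b09_gt
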