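import Pool.Agent.Work.MP_749b09_gt.FCan
import Pool.Agent.Work.MP_749b09_gt.FFar
import Pool.Agent.Work.MP_749b09_gt.FR3
import Pool.Agent.Work.MP_749b09_gt.FConj
import Pool.Agent.Work.MP_749b09_gt.FStab

/-!
# DfcA (S-M): the defect is invariant under isotopies, and its change at the other moves

`Dfc (n, w) m` says: `PosD (Q w) k` and `n + length w ≤ 2 k + m` for some `k`.
* `Dfc_iso`: by induction on `EqvGen`, `(Dfc D m ↔ Dfc D' m)` for a Markov move; the lemmas of
  the `F` files: cancel: length changes by 2 and `k` by 1 (removal: if `k = 0`, use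
  `PosD _ 0`, which is trivial: `Dfc_zero`; the inequality `n + length - 2 ≤ 2 * 0 + m` holds as well);
  far, braid, conj: same `k`; stab: `n` and the length both change by 1, `k` by 1.
* the others: `FIns`: `n + (ℓ+1) ≤ 2 k + (m + 1)`; `FDel`: for `k = k' + 1`:
  `n + (ℓ-1) ≤ 2 k' + (m+1)`, for `k = 0` trivial; `FCross`; `min`, `max`: only `n` changes.
-/

namespace Pool.Agent.Work.MP_749b09_gt


theorem PosD_zero {W : Type*} [AddCommGroup W] [Module ℂ W] (Q1 : W → ℝ) : PosD Q1 0 :=
  ⟨0, fun a ha => absurd (Subsingleton.elim a 0) ha⟩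

private theorem da_markov {D D' : ℕ × Word} (h : Markov D D') (m : ℤ) : Dfc D m ↔ Dfc D' m := by
  cases h with
  | cancel n u v i e h =>
    constructor
    · rintro ⟨k, hk, hl⟩
      simp only [List.length_append, List.length_cons, List.length_nil] at hl
      push_cast at hl
      cases k with
      | zero =>
        refine ⟨0, PosD_zero _, ?_⟩
        simp only [List.length_append]
        push_cast at hl ⊢
        linarith
      | succ k =>
        refine ⟨k, FCan_del u v i e hk, ?_⟩
        simp only [List.length_append]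
        push_cast at hl ⊢
        linarith
    · rintro ⟨k, hk, hl⟩
      refine ⟨k + 1, FCan_ins u v i e hk, ?_⟩
      simp only [List.length_append, List.length_cons, List.length_nil] at hl ⊢
      push_cast at hl ⊢
      linarith
  | far n u v i j e f h =>
    constructor
    · rintro ⟨k, hk, hl⟩
      refine ⟨k, FFar_one u v i j e f h hk, ?_⟩
      simp only [List.length_append, List.length_cons, List.length_nil] at hl ⊢
      exact hl
    · rintro ⟨k, hk, hl⟩
      refine ⟨k, FFar_two u v i j e f h hk, ?_⟩
      simp only [List.length_append, List.length_cons, List.length_nil] at hl ⊢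
      exact hl
  | braid n u v i =>
    constructor
    · rintro ⟨k, hk, hl⟩
      refine ⟨k, FR3_one u v i hk, ?_⟩
      simp only [List.length_append, List.length_cons, List.length_nil] at hl ⊢
      exact hl
    · rintro ⟨k, hk, hl⟩
      refine ⟨k, FR3_two u v i hk, ?_⟩
      simp only [List.length_append, List.length_cons, List.length_nil] at hl ⊢
      exact hl
  | conj n a v =>
    constructor
    · rintro ⟨k, hk, hl⟩
      refine ⟨k, FConj_one a v hk, ?_⟩
      simp only [List.length_append, List.length_cons, List.length_nil] at hl ⊢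
      push_cast at hl ⊢
      linarith
    · rintro ⟨k, hk, hl⟩
      refine ⟨k, FConj_two a v hk, ?_⟩
      simp only [List.length_append, List.length_cons, List.length_nil] at hl ⊢
      push_cast at hl ⊢
      linarith
  | stab n w e h =>
    constructor
    · rintro ⟨k, hk, hl⟩
      refine ⟨k + 1, FStab_ins n w e h hk, ?_⟩
      simp only [List.length_append, List.length_cons, List.length_nil] at hl ⊢
      push_cast at hl ⊢
      linarith
    · rintro ⟨k, hk, hl⟩
      simp only [List.length_append, List.length_cons, List.length_nil] at hl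
      cases k with
      | zero =>
        refine ⟨0, PosD_zero _, ?_⟩
        push_cast at hl ⊢
        linarith
      | succ k =>
        refine ⟨k, FStab_del n w e hk, ?_⟩
        push_cast at hl ⊢
        linarith

private theorem da_iso {D D' : ℕ × Word} (h : Isotopic D D') (m : ℤ) : Dfc D m ↔ Dfc D' m := by
  unfold Isotopic at h
  induction h with
  | rel x y h => exact da_markov h m
  | refl x => exact Iff.rfl
  | symm x y _ ih => exact ih.symm
  | trans x y z _ _ ih1 ih2 => exact ih1.trans ih2

theorem Dfc_iso {D D' : ℕ × Word} (h : Isotopic D D') {m : ℤ} (hd : Dfc D m) : Dfc D' m :=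
  (da_iso h m).1 hd

theorem Dfc_ins {n : ℕ} {u v : Word} (a : ℕ × Bool) {m : ℤ} (h : Dfc (n, u ++ v) m) :
    Dfc (n, u ++ a :: v) (m + 1) := by
  obtain ⟨k, hk, hl⟩ := h
  refine ⟨k, FIns u v a hk, ?_⟩
  simp only [List.length_append, List.length_cons] at hl ⊢
  push_cast at hl ⊢
  linarith

theorem Dfc_del {n : ℕ} {u v : Word} {a : ℕ × Bool} {m : ℤ} (h : Dfc (n, u ++ a :: v) m) :
    Dfc (n, u ++ v) (m + 1) := by
  obtain ⟨k, hk, hl⟩ := h
  simp only [List.length_append, List.length_cons] at hl
  cases k with
  | zero =>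
    refine ⟨0, PosD_zero _, ?_⟩
    simp only [List.length_append]
    push_cast at hl ⊢
    linarith
  | succ k =>
    refine ⟨k, FDel u v a hk, ?_⟩
    simp only [List.length_append]
    push_cast at hl ⊢
    linarith

theorem Dfc_cross {n : ℕ} {u v : Word} {i : ℕ} {m : ℤ} (h : Dfc (n, u ++ (i, true) :: v) m) :
    Dfc (n, u ++ (i, false) :: v) m := by
  obtain ⟨k, hk, hl⟩ := h
  refine ⟨k, FCross u v i hk, ?_⟩
  simp only [List.length_append, List.length_cons] at hl ⊢
  exact hl

theorem Dfc_min {n : ℕ} {w : Word} {m : ℤ} (h : Dfc (n + 1, w) m) : Dfc (n, w) (m - 1) := by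
  obtain ⟨k, hk, hl⟩ := h
  refine ⟨k, hk, ?_⟩
  simp only at hl ⊢
  push_cast at hl ⊢
  linarith

theorem Dfc_max {n : ℕ} {w : Word} {m : ℤ} (h : Dfc (n, w) m) : Dfc (n + 1, w) (m + 1) := by
  obtain ⟨k, hk, hl⟩ := h
  refine ⟨k, hk, ?_⟩
  simp only at hl ⊢
  push_cast at hl ⊢
  linarith

end Pool.Agent.Work.MP_749b09_gt
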