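import Pool.Agent.Work.MP_749b09_gt.FormT
import Pool.Agent.Work.MP_749b09_gt.Abs

/-!
# FCan (M): the form and the cancellation of two inverse letters

Put `p = length u`, `w = u ++ v`, `w' = u ++ [(i, e), (i, !e)] ++ v`.

`FCan_ins` (hyperbolic plane, lemma `PosD_hyp`): `T (Z, y) = (Z, tl p (fun y => cns 0 (cns 0 y)) y)`
(linear: `exists_tlLin`, `exists_cnsLin`), `f = (0, fun j => sg p 1 j - sg (p+1) 1 j)`,
`h = (0, sg (p+1) 1)`.
* `B w' (T v1) (T v2) = B w v1 v2`: `B_local`; both letters see the variable `0`: `locB = 0`, and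
  `nxt i (Z, cns 0 y) = (Z, y)`.
* `B w' f (T v)`: by `B_run_zero` the word `u` is skipped; let `U = (run u v).1`
  (`run_tl`).  First letter: `t (U i - U (i+1))`; then the state of `f` is `(sg i 1, -1 at 0)`, second
  letter: `- t (U i - U (i+1))`; then the state of `f` is `(0, 0)`: sum `0`.
* `B w' f f`: first letter `dl e * t + (1-t) * dl e = dl e`, second letter
  `-(1 - dl (!e)) = - dl e`: sum `0`.
* `B w' h f`: first letter `0`, second letter `t (1 - dl (!e)) - (1-t) dl (!e)`, which is
  `-(1 - t)` for `e = true` and `t` for `e = false`; the rest: `B v _ (0, 0) = 0`.  Nonzero.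

`FCan_del` (lemma `PosD_codim`): `φ (Z, y) = y p + y (p+1)`,
`T (Z, y) = (Z, tl p (fun y k => y (k+2)) y)`.  If `y (p+1) = - y p =: -a`, the two letters contribute
`conj a * t * (U i + dl e * a - U (i+1)) - conj a * t * (U i + a - dl (!e) * a - U (i+1))`
`= conj a * t * a * (dl e - 1 + dl (!e)) = 0` (and the complex conjugate part also `0`), and after
the two letters the state is the same as if they were not there.
-/

namespace Pool.Agent.Work.MP_749b09_gt

open ComplexConjugate

private theorem fc_sg_self (i : ℕ) (c : ℂ) : sg i c i = c := by simp [sg]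

private theorem fc_sg_succ (i : ℕ) (c : ℂ) : sg i c (i + 1) = 0 := by simp [sg]

private theorem fc_sg_zero (i : ℕ) : sg i 0 = 0 := by
  funext k
  simp [sg]

private theorem fc_dl (e : Bool) : dl e + dl (!e) = 1 := by
  cases e <;> simp [dl]

private theorem fc_conj_dl (e : Bool) : conj (dl e) = dl e := by
  cases e <;> simp [dl]

private theorem fc_run_zero (u : Word) : run u 0 = 0 := by
  have h := run_smul u 0 0
  simpa using h

/-- the state after `u` of a vector which vanishes on the strands and on the letters of `u` -/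
private theorem fc_run (u : Word) (s : V) (h1 : s.1 = 0) (h2 : ∀ j < u.length, s.2 j = 0) :
    run u s = (0, fun j => s.2 (j + u.length)) := by
  refine Prod.ext ?_ ?_
  · have h3 := run_congr u (p := s) (p' := 0) h1 (fun j hj => by rw [h2 j hj]; rfl)
    rw [h3, fc_run_zero]
    rfl
  · funext j
    exact run_snd u s j

private theorem fc_two (i : ℕ) (e : Bool) (v : Word) (p q : V) :
    B ((i, e) :: (i, !e) :: v) p q =
      locB (i, e) p q + (locB (i, !e) (nxt i p) (nxt i q) + B v (nxt i (nxt i p)) (nxt i (nxt i q))) :=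
  rfl

theorem FCan_ins (u v : Word) (i : ℕ) (e : Bool) {k : ℕ} (h : PosD (Q (u ++ v)) k) :
    PosD (Q (u ++ [(i, e), (i, !e)] ++ v)) (k + 1) := by
  have hw : u ++ [(i, e), (i, !e)] ++ v = u ++ ((i, e) :: (i, !e) :: v) := by simp
  rw [hw]
  set b : Word := (i, e) :: (i, !e) :: v with hb
  set p := u.length with hp
  obtain ⟨g, hg⟩ := exists_cnsLin
  obtain ⟨T, hT⟩ := exists_tlLin p (g.comp g)
  have hgg : ∀ y : ℕ → ℂ, (g.comp g) y = cns 0 (cns 0 y) := by
    intro y
    rw [LinearMap.comp_apply, hg, hg]
  -- the vectors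
  set f : V := (0, fun j => sg p 1 j - sg (p + 1) 1 j) with hf
  set h0 : V := (0, sg (p + 1) 1) with hh0
  have hf2 : ∀ j < u.length, f.2 j = 0 := by
    intro j hj
    have h1 : j ≠ p := by omega
    have h2 : j ≠ p + 1 := by omega
    simp [hf, sg, h1, h2]
  have hh2 : ∀ j < u.length, h0.2 j = 0 := by
    intro j hj
    have h2 : j ≠ p + 1 := by omega
    simp [hh0, sg, h2]
  have hnf1 : ∀ j, f.2 (j + p) = if j = 0 then 1 else if j = 1 then -1 else 0 := by
    intro j
    rcases j with _ | _ | j
    · simp [hf, sg]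
    · simp [hf, sg, add_comm]
    · have h1 : j + 1 + 1 + p ≠ p := by omega
      have h2 : j + 1 + 1 + p ≠ p + 1 := by omega
      simp [hf, sg, h1, h2]
  have hnh1 : ∀ j, h0.2 (j + p) = if j = 1 then 1 else 0 := by
    intro j
    rcases j with _ | _ | j
    · simp [hh0, sg]
    · simp [hh0, sg, add_comm]
    · have h2 : j + 1 + 1 + p ≠ p + 1 := by omega
      simp [hh0, sg, h2]
  set f' : V := (0, fun j => if j = 0 then 1 else if j = 1 then -1 else 0) with hf'
  have hfrun : run u f = f' := by
    rw [fc_run u f rfl hf2]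
    refine Prod.ext rfl ?_
    funext j
    exact hnf1 j
  have hfshift : ((0 : ℕ → ℂ), fun j => f.2 (j + u.length)) = f' := by
    refine Prod.ext rfl ?_
    funext j
    exact hnf1 j
  set h' : V := (0, fun j => if j = 1 then 1 else 0) with hh'
  have hhshift : ((0 : ℕ → ℂ), fun j => h0.2 (j + u.length)) = h' := by
    refine Prod.ext rfl ?_
    funext j
    exact hnh1 j
  -- the states
  have hn1 : nxt i f' = (sg i 1, fun j => if j = 0 then -1 else 0) := by
    refine Prod.ext ?_ ?_
    · funext j
      simp [nxt, hf']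
    · funext j
      rcases j with _ | j <;> simp [nxt, hf']
  have hn2 : nxt i (nxt i f') = 0 := by
    rw [hn1]
    refine Prod.ext ?_ ?_
    · funext j
      by_cases hj : j = i
      · simp [nxt, sg, hj]
      · simp [nxt, sg, hj]
    · funext j
      simp [nxt]
  have hm1 : nxt i h' = (0, fun j => if j = 0 then 1 else 0) := by
    refine Prod.ext ?_ ?_
    · funext j
      simp [nxt, hh', sg]
    · funext j
      rcases j with _ | j <;> simp [nxt, hh']
  refine PosD_hyp (u ++ v) (u ++ b) T ?_ f h0 ?_ ?_ ?_ h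
  · intro q
    have h3 := B_local u v b (g.comp g) ?_ q q
    · unfold Q
      rw [hT]
      exact congrArg Complex.re h3
    · intro p1 q1
      rw [hgg, hgg, hb, fc_two]
      have e1 : ∀ z : V, nxt i (z.1, cns 0 (cns 0 z.2)) = (z.1, cns 0 z.2) := by
        intro z
        refine Prod.ext ?_ ?_
        · funext j
          simp [nxt, cns, sg]
        · funext j
          rcases j with _ | j <;> simp [nxt, cns]
      have e2 : ∀ z : V, nxt i (z.1, cns 0 z.2) = z := by
        intro z
        refine Prod.ext ?_ ?_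
        · funext j
          simp [nxt, cns, sg]
        · funext j
          simp [nxt, cns]
      rw [e1, e1, e2, e2]
      simp [locB, cns]
  · rw [B_run_zero u b f f rfl hf2, hfshift, hfrun, hb, fc_two, hn1]
    rw [← hn1, hn2, B_zero_left, hn1]
    simp only [locB, hf', Pi.zero_apply, if_true, fc_sg_self, fc_sg_succ, map_one, map_neg, map_sub,
      map_add, map_mul, map_zero, fc_conj_dl]
    have h4 := fc_dl e
    linear_combination h4
  · intro q
    rw [B_run_zero u b f _ rfl hf2, hfshift, hT, run_tl, hgg, hb, fc_two, hn2, B_zero_left, hn1]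
    simp only [locB, nxt, cns, hf', Pi.zero_apply, if_true, fc_sg_self, fc_sg_succ, fc_sg_zero, map_one,
      map_neg, map_sub, map_add, map_mul, map_zero, fc_conj_dl]
    ring
  · rw [B_run_zero u b h0 f rfl hh2, hhshift, hfrun, hb, fc_two, hn2, B_zero_right, hn1, hm1]
    have h5 : locB (i, e) h' f' = 0 := by
      simp [locB, hh', hf']
    rw [h5]
    simp only [locB, Pi.zero_apply, if_true, fc_sg_self, fc_sg_succ, map_one, map_neg, map_sub,
      map_add, map_mul, map_zero, fc_conj_dl]
    cases e
    · have h6 : dl (!false) = 0 := rfl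
      rw [h6]
      have h7 := t_ne
      intro h8
      apply h7
      linear_combination h8
    · have h6 : dl (!true) = 1 := rfl
      rw [h6]
      have h7 := one_sub_t_ne
      intro h8
      apply h7
      linear_combination -h8

theorem FCan_del (u v : Word) (i : ℕ) (e : Bool) {k : ℕ}
    (h : PosD (Q (u ++ [(i, e), (i, !e)] ++ v)) (k + 1)) : PosD (Q (u ++ v)) k := by
  have hw : u ++ [(i, e), (i, !e)] ++ v = u ++ ((i, e) :: (i, !e) :: v) := by simp
  rw [hw] at h
  set p := u.length with hp
  obtain ⟨g, hg⟩ := exists_dropLin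
  obtain ⟨T, hT⟩ := exists_tlLin p (g.comp g)
  have hgg : ∀ y : ℕ → ℂ, (g.comp g) y = fun j => y (j + 2) := by
    intro y
    rw [LinearMap.comp_apply, hg, hg]
  refine PosD_codim (k := k) T ((LinearMap.proj (R := ℂ) (φ := fun _ : ℕ => ℂ) p).comp (LinearMap.snd ℂ (ℕ → ℂ) (ℕ → ℂ)) +
    (LinearMap.proj (R := ℂ) (φ := fun _ : ℕ => ℂ) (p + 1)).comp (LinearMap.snd ℂ (ℕ → ℂ) (ℕ → ℂ))) ?_ h
  intro q hq
  have hq' : q.2 p + q.2 (p + 1) = 0 := hq
  unfold Q
  congr 1
  rw [hT, B_append, B_append, B_tl, run_tl, hgg, fc_two]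
  congr 1
  have hY0 : (run u q).2 0 = q.2 p := by rw [run_snd, Nat.zero_add]
  have hY1 : (run u q).2 1 = - q.2 p := by
    rw [run_snd]
    have : (1 : ℕ) + u.length = p + 1 := by omega
    rw [this]
    linear_combination hq'
  set U := (run u q).1 with hU
  set Y := (run u q).2 with hY
  have hr : run u q = (U, Y) := rfl
  rw [hr]
  have hn2 : nxt i (nxt i (U, Y)) = (U, fun j => Y (j + 2)) := by
    refine Prod.ext ?_ ?_
    · funext j
      simp only [nxt, sg, hY0, hY1]
      by_cases hj : j = i
      · simp [hj, hY0, hY1]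
      · simp [hj]
    · funext j
      simp [nxt]
  rw [hn2]
  have hl : locB (i, e) (U, Y) (U, Y) + locB (i, !e) (nxt i (U, Y)) (nxt i (U, Y)) = 0 := by
    simp only [locB, nxt, fc_sg_self, fc_sg_succ, hY0, zero_add, hY1, map_neg, map_sub, map_add, map_mul,
      map_zero, fc_conj_dl, add_zero]
    have h4 := fc_dl e
    linear_combination (conj (q.2 p) * q.2 p) * h4
  rw [← add_assoc, hl, zero_add]

end Pool.Agent.Work.MP_749b09_gt
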