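import Pool.Agent.Work.MP_749b09_gt.FormZ

/-!
# FSum (M): the form of a connected sum

Let `w1` be a word on the strands `0, ..., m` and `w2` any word; `w = w1 ++ shiftW m w2`,
`ℓ = length w1`.
* `B_shift`: `B (shiftW m w2) (Z, y) (Z', y') = B w2 (Z (· + m), y) (Z' (· + m), y')`: induction on
  `w2` (`nxt (i + m)` changes the strand `i + m`).
* `B_strands`: for `Valid (m+1) w1` the form of `w1` depends on the strands `≤ m` only.
* `run_strand`: a word with `Valid (m+1) w1` has no letter with index `≥ m`, so the strands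
  `k ≥ m` are the same before and after it.
* `Q_sum`: by `B_append` with these: `Q w (Z, y) = Q w1 (Z, y) + Q w2 (Z (· + m), y (· + ℓ))`.
* `FSum`: let `L1 : ℂ^k1 → V`, `L2 : ℂ^k2 → V` be positive for `w1`, `w2`.  Define
  `L : ℂ^(k1 + k2) → V` (with `Fin.castAdd`, `Fin.natAdd`, or `Fin.addCases`): for `a = (a1, a2)`,
  `(Z1, y1) = L1 a1`, `(Z2, y2) = L2 a2`, `L a = (Z, y)` with
  `Z k = if k < m then Z1 k + (Z2 0 - Z1 m) else Z2 (k - m)`,
  `y j = if j < ℓ then y1 j else y2 (j - ℓ)`.  This is linear.  The strands `≤ m` are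
  `Z1 k + (Z2 0 - Z1 m)` (also for `k = m`), so by `B_strands`, `Q_const` (and `B_congr`)
  `Q w1 (Z, y) = Q w1 (Z1, y1)`; and `Z (k + m) = Z2 k`, `y (j + ℓ) = y2 j`.  So
  `Q w (L a) = Q w1 (L1 a1) + Q w2 (L2 a2) > 0` if `a1 ≠ 0` or `a2 ≠ 0` (`Q _ 0 = 0`, `Q_zero`).
-/

namespace Pool.Agent.Work.MP_749b09_gt

open ComplexConjugate

private theorem fm_sg_shift (i m k : ℕ) (c : ℂ) : sg (i + m) c (k + m) = sg i c k := by
  unfold sg
  by_cases h : k = i
  · simp [h]
  · have h1 : ¬ (k + m = i + m) := by omega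
    rw [if_neg h, if_neg h1]

theorem B_shift (m : ℕ) (w : Word) (p q : V) :
    B (shiftW m w) p q
      = B w ((fun k => p.1 (k + m)), p.2) ((fun k => q.1 (k + m)), q.2) := by
  induction w generalizing p q with
  | nil => rfl
  | cons a w ih =>
    change locB (a.1 + m, a.2) p q + B (shiftW m w) (nxt (a.1 + m) p) (nxt (a.1 + m) q) =
      locB a ((fun k => p.1 (k + m)), p.2) ((fun k => q.1 (k + m)), q.2) +
        B w (nxt a.1 ((fun k => p.1 (k + m)), p.2)) (nxt a.1 ((fun k => q.1 (k + m)), q.2))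
    have e1 : ∀ z : V, (((fun k => (nxt (a.1 + m) z).1 (k + m)), (nxt (a.1 + m) z).2) : V) =
        nxt a.1 ((fun k => z.1 (k + m)), z.2) := by
      intro z
      refine Prod.ext ?_ rfl
      funext k
      change z.1 (k + m) + sg (a.1 + m) (z.2 0) (k + m) = z.1 (k + m) + sg a.1 (z.2 0) k
      rw [fm_sg_shift]
    rw [ih, e1, e1]
    congr 1
    have e2 : a.1 + m + 1 = a.1 + 1 + m := by omega
    simp only [locB, e2]

theorem B_strands {m : ℕ} {w : Word} (hw : Valid (m + 1) w) {p p' q q' : V}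
    (h1 : ∀ k ≤ m, p.1 k = p'.1 k) (h2 : p.2 = p'.2)
    (h3 : ∀ k ≤ m, q.1 k = q'.1 k) (h4 : q.2 = q'.2) : B w p q = B w p' q' := by
  induction w generalizing p p' q q' with
  | nil => rfl
  | cons a w ih =>
    have ha : a.1 + 1 < m + 1 := hw a List.mem_cons_self
    have hw' : Valid (m + 1) w := fun b hb => hw b (List.mem_cons_of_mem _ hb)
    change locB a p q + B w (nxt a.1 p) (nxt a.1 q) = locB a p' q' + B w (nxt a.1 p') (nxt a.1 q')
    have e1 : locB a p q = locB a p' q' := by
      simp only [locB, h1 a.1 (by omega), h1 (a.1 + 1) (by omega), h3 a.1 (by omega),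
        h3 (a.1 + 1) (by omega), h2, h4]
    have e2 : B w (nxt a.1 p) (nxt a.1 q) = B w (nxt a.1 p') (nxt a.1 q') := by
      refine ih hw' ?_ ?_ ?_ ?_
      · intro k hk
        change p.1 k + sg a.1 (p.2 0) k = p'.1 k + sg a.1 (p'.2 0) k
        rw [h1 k hk, h2]
      · funext k
        change p.2 (k + 1) = p'.2 (k + 1)
        rw [h2]
      · intro k hk
        change q.1 k + sg a.1 (q.2 0) k = q'.1 k + sg a.1 (q'.2 0) k
        rw [h3 k hk, h4]
      · funext k
        change q.2 (k + 1) = q'.2 (k + 1)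
        rw [h4]
    rw [e1, e2]

theorem run_strand {m : ℕ} {w : Word} (hw : Valid (m + 1) w) (p : V) {k : ℕ} (hk : m ≤ k) :
    (run w p).1 k = p.1 k := by
  induction w generalizing p with
  | nil => rfl
  | cons a w ih =>
    have h1 : Valid (m + 1) w := fun b hb => hw b (List.mem_cons_of_mem _ hb)
    have h2 : a.1 + 1 < m + 1 := hw a List.mem_cons_self
    change (run w (nxt a.1 p)).1 k = _
    rw [ih h1]
    have h3 : k ≠ a.1 := by omega
    simp [nxt, sg, h3]

theorem Q_sum {m : ℕ} {w1 : Word} (hw : Valid (m + 1) w1) (w2 : Word) (p : V) :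
    Q (w1 ++ shiftW m w2) p
      = Q w1 p + Q w2 ((fun k => p.1 (k + m)), fun j => p.2 (j + w1.length)) := by
  unfold Q
  rw [B_append, B_shift, Complex.add_re]
  have e1 : (((fun k => (run w1 p).1 (k + m)), (run w1 p).2) : V) =
      ((fun k => p.1 (k + m)), fun j => p.2 (j + w1.length)) := by
    refine Prod.ext ?_ ?_
    · funext k
      exact run_strand hw p (Nat.le_add_left m k)
    · funext j
      exact run_snd w1 p j
  rw [e1]

/-- the vector of the connected sum -/
private def fmG (m l : ℕ) : (V × V) →ₗ[ℂ] V where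
  toFun z := ((fun k => if k < m then z.1.1 k + (z.2.1 0 - z.1.1 m) else z.2.1 (k - m)),
    fun j => if j < l then z.1.2 j else z.2.2 (j - l))
  map_add' z z' := by
    refine Prod.ext ?_ ?_
    · funext k
      change (if k < m then (z.1.1 k + z'.1.1 k) + ((z.2.1 0 + z'.2.1 0) - (z.1.1 m + z'.1.1 m)) else
        z.2.1 (k - m) + z'.2.1 (k - m)) = (if k < m then z.1.1 k + (z.2.1 0 - z.1.1 m) else z.2.1 (k - m)) +
        (if k < m then z'.1.1 k + (z'.2.1 0 - z'.1.1 m) else z'.2.1 (k - m))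
      split_ifs
      · ring
      · rfl
    · funext j
      change (if j < l then z.1.2 j + z'.1.2 j else z.2.2 (j - l) + z'.2.2 (j - l)) =
        (if j < l then z.1.2 j else z.2.2 (j - l)) + (if j < l then z'.1.2 j else z'.2.2 (j - l))
      split_ifs <;> rfl
  map_smul' c z := by
    refine Prod.ext ?_ ?_
    · funext k
      change (if k < m then c * z.1.1 k + (c * z.2.1 0 - c * z.1.1 m) else c * z.2.1 (k - m)) =
        c * (if k < m then z.1.1 k + (z.2.1 0 - z.1.1 m) else z.2.1 (k - m))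
      split_ifs
      · ring
      · rfl
    · funext j
      change (if j < l then c * z.1.2 j else c * z.2.2 (j - l)) =
        c * (if j < l then z.1.2 j else z.2.2 (j - l))
      split_ifs <;> rfl

private theorem fmG_apply (m l : ℕ) (z : V × V) : fmG m l z =
    ((fun k => if k < m then z.1.1 k + (z.2.1 0 - z.1.1 m) else z.2.1 (k - m)),
    fun j => if j < l then z.1.2 j else z.2.2 (j - l)) := rfl

private theorem fm_Q {m : ℕ} {w1 : Word} (hw : Valid (m + 1) w1) (w2 : Word) (z : V × V) :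
    Q (w1 ++ shiftW m w2) (fmG m w1.length z) = Q w1 z.1 + Q w2 z.2 := by
  rw [Q_sum hw]
  have e1 : (((fun k => (fmG m w1.length z).1 (k + m)), fun j => (fmG m w1.length z).2 (j + w1.length)) : V)
      = z.2 := by
    refine Prod.ext ?_ ?_
    · funext k
      change (if k + m < m then z.1.1 (k + m) + (z.2.1 0 - z.1.1 m) else z.2.1 (k + m - m)) = z.2.1 k
      rw [if_neg (by omega), Nat.add_sub_cancel]
    · funext j
      change (if j + w1.length < w1.length then z.1.2 (j + w1.length) else z.2.2 (j + w1.length - w1.length)) =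
        z.2.2 j
      rw [if_neg (by omega), Nat.add_sub_cancel]
  have e2 : Q w1 (fmG m w1.length z) = Q w1 z.1 := by
    rw [← Q_const w1 (z.2.1 0 - z.1.1 m) z.1]
    unfold Q
    have h1 : ∀ k ≤ m, (fmG m w1.length z).1 k = z.1.1 k + (z.2.1 0 - z.1.1 m) := by
      intro k hk
      change (if k < m then z.1.1 k + (z.2.1 0 - z.1.1 m) else z.2.1 (k - m)) = _
      by_cases h : k < m
      · rw [if_pos h]
      · rw [if_neg h]
        have : k = m := by omega
        subst this
        rw [Nat.sub_self]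
        ring
    have h2 := B_strands (w := w1) hw (p := fmG m w1.length z) (q := fmG m w1.length z)
      (p' := ((fun k => z.1.1 k + (z.2.1 0 - z.1.1 m)), (fmG m w1.length z).2))
      (q' := ((fun k => z.1.1 k + (z.2.1 0 - z.1.1 m)), (fmG m w1.length z).2)) h1 rfl h1 rfl
    rw [h2]
    congr 1
    have h3 : ∀ j < w1.length, (fmG m w1.length z).2 j = z.1.2 j := by
      intro j hj
      change (if j < w1.length then z.1.2 j else z.2.2 (j - w1.length)) = _
      rw [if_pos hj]
    exact B_congr w1 rfl h3 rfl h3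
  rw [e1, e2]

theorem FSum {m : ℕ} {w1 : Word} (hw : Valid (m + 1) w1) (w2 : Word) {k1 k2 : ℕ}
    (h1 : PosD (Q w1) k1) (h2 : PosD (Q w2) k2) :
    PosD (Q (w1 ++ shiftW m w2)) (k1 + k2) := by
  obtain ⟨L1, hL1⟩ := h1
  obtain ⟨L2, hL2⟩ := h2
  refine ⟨(fmG m w1.length).comp ((L1.comp (LinearMap.funLeft ℂ ℂ (Fin.castAdd k2))).prod
    (L2.comp (LinearMap.funLeft ℂ ℂ (Fin.natAdd k1)))), fun a ha => ?_⟩
  rw [LinearMap.comp_apply, fm_Q hw]
  change 0 < Q w1 (L1 (fun i => a (Fin.castAdd k2 i))) + Q w2 (L2 (fun i => a (Fin.natAdd k1 i)))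
  have f1 : ∀ c : Fin k1 → ℂ, 0 ≤ Q w1 (L1 c) := by
    intro c
    by_cases hc : c = 0
    · rw [hc, map_zero, Q_zero]
    · exact (hL1 c hc).le
  have f2 : ∀ c : Fin k2 → ℂ, 0 ≤ Q w2 (L2 c) := by
    intro c
    by_cases hc : c = 0
    · rw [hc, map_zero, Q_zero]
    · exact (hL2 c hc).le
  by_cases h3 : (fun i => a (Fin.castAdd k2 i)) = (0 : Fin k1 → ℂ)
  · by_cases h4 : (fun i => a (Fin.natAdd k1 i)) = (0 : Fin k2 → ℂ)
    · exfalso
      apply ha
      funext i
      refine Fin.addCases (fun j => ?_) (fun j => ?_) i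
      · exact congrFun h3 j
      · exact congrFun h4 j
    · exact add_pos_of_nonneg_of_pos (f1 _) (hL2 _ h4)
  · exact add_pos_of_pos_of_nonneg (hL1 _ h3) (f2 _)

end Pool.Agent.Work.MP_749b09_gt
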