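import Pool.Agent.Work.MP_749b09_gt.Alg

/-!
# ImmF (S): from embedded surfaces and crossing changes to `ImmB`

* `ImmB_of_bounds`: induction on `Bounds` (forget the validity conditions).
* `ImmB_negpos`: if `K` is obtained from `J` by isotopies and negative-to-positive crossing changes
  and `J` bounds, so does `K`: induction on the `ReflTransGen` (from the right, `head`/`refl`/`tail`):
  for a step `A → B` (`B` nearer to the boundary) with `ImmB b χ A`: if `Isotopic A B`, use
  `ImmB.iso` with the symmetric isotopy (`Relation.EqvGen.symm`); if `NegPosStep A B`, use `ImmB.cross`.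
-/

namespace Pool.Agent.Work.MP_749b09_gt

theorem ImmB_of_bounds {b : ℕ} {χ : ℤ} {D : ℕ × Word} (h : Bounds b χ D) : ImmB b χ D := by
  induction h with
  | empty => exact ImmB.empty
  | iso h _ ih => exact ImmB.iso h ih
  | saddleRemove _ _ ih => exact ImmB.rem ih
  | saddleInsert _ _ ih => exact ImmB.ins ih
  | min _ _ ih => exact ImmB.min ih
  | max _ _ ih => exact ImmB.max ih

theorem ImmB_negpos {b : ℕ} {χ : ℤ} {J K : ℕ × Word} (h : ImmB b χ J) (h' : NegToPos J K) :
    ImmB b χ K := by
  unfold NegToPos at h'
  induction h' with
  | refl => exact h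
  | tail _ hs ih =>
    rcases hs with hs | hs
    · exact ImmB.iso (Relation.EqvGen.symm _ _ hs) ih
    · cases hs with
      | mk n u v i => exact ImmB.cross ih

end Pool.Agent.Work.MP_749b09_gt
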