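import Pool.Agent.Work.MP_749b09_gt.DfcA
import Pool.Agent.Work.MP_749b09_gt.Bad
import Pool.Agent.Work.MP_749b09_gt.ColIso

/-!
# Obs (M): the obstruction

Induction on `ImmB b χ D` (for all `m`).  Write `Van D L` for the last property.  Let `ℓ` be the
linear functional `x ↦ act u x a.1 - act u x (a.1 + 1)` (`exists_actLin`).
* `empty`: `Dfc (0, []) m`: the form `Q []` is `0`, so `k = 0` (else `a ≠ 0` exists with `0 < 0`) and
  `0 ≤ m`; `L = []`, `xi [] x 0 = 0`.
* `iso`: `Dfc_iso` for `D'`; `L` for `D'`; `T` from `Tr_iso` (`Tr D D'`); take `L.map (· ∘ T)`.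
* `rem` (`D = (n, u ++ a :: v)`, `D' = (n, u ++ v)`): if all closed colourings `x` of `D` have `ℓ x = 0`:
  `Dfc_del`, `L` for `m + 1`: `χ + 2 |L| ≤ m + 1 + 2 b`; closed colourings of `D` are closed for `D'` with
  the same state sum (`act1_triv`, `loc_triv`, `act_append`, `xi_append`); so
  `(χ - 1) + 2 |L| ≤ m + 2 b`.  Otherwise there is a closed `x` with `ℓ x ≠ 0`: by `Bad_del`
  `Dfc D' (m - 1)`: `L` with `χ + 2 |L| ≤ m - 1 + 2 b`; take `ℓ :: L`:
  `(χ - 1) + 2 (|L| + 1) ≤ m + 2 b`.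
* `ins`: the same with `Dfc_ins`, `Bad_ins`.
* `cross`: no closed colouring with `ℓ x ≠ 0`: `Dfc_cross`, same `L`.  Otherwise `Bad_cross`:
  `Dfc D' (m - 2)`, take `ℓ :: L`.
* `min`: `Dfc_min`, `L` for `m - 1`: `(χ + 1) + 2 |L| ≤ m + 2 b`.
* `max`: `Dfc_max`, `L` for `m + 1`: `(χ + 1) + 2 |L| ≤ m + 2 (b + 1)`.
-/

namespace Pool.Agent.Work.MP_749b09_gt

open ComplexConjugate

/-- All closed colourings in the common kernel of `L` have state sum zero. -/
def Van (D : ℕ × Word) (L : List ((ℕ → ℂ) →ₗ[ℂ] ℂ)) : Prop :=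
  ∀ x : ℕ → ℂ, act D.2 x = x → (∀ ℓ ∈ L, ℓ x = 0) → xi D.2 x 0 = 0

private theorem act_skip {u v : Word} {a : ℕ × Bool} {x : ℕ → ℂ}
    (he : act u x a.1 = act u x (a.1 + 1)) : act (u ++ a :: v) x = act (u ++ v) x := by
  rw [act_append, act_append]
  show act v (act1 a (act u x)) = _
  rw [act1_triv he]

private theorem xi_skip {u v : Word} {a : ℕ × Bool} {x : ℕ → ℂ}
    (he : act u x a.1 = act u x (a.1 + 1)) : xi (u ++ a :: v) x 0 = xi (u ++ v) x 0 := by
  rw [xi_append, xi_append]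
  show xi u x 0 + (loc a (act u x) 0 + xi v (act1 a (act u x)) 0) = _
  rw [loc_triv _ he, act1_triv he, zero_add]

private theorem exists_ell (u : Word) (i : ℕ) :
    ∃ ℓ : (ℕ → ℂ) →ₗ[ℂ] ℂ, ∀ x, ℓ x = act u x i - act u x (i + 1) := by
  obtain ⟨U, hU⟩ := exists_actLin u
  refine ⟨((LinearMap.proj i : (ℕ → ℂ) →ₗ[ℂ] ℂ) - LinearMap.proj (i + 1)) ∘ₗ U, fun x => ?_⟩
  rw [LinearMap.comp_apply, hU]
  rfl

theorem obstruct {b : ℕ} {χ : ℤ} {D : ℕ × Word} (h : ImmB b χ D) :
    ∀ m : ℤ, Dfc D m → ∃ L : List ((ℕ → ℂ) →ₗ[ℂ] ℂ),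
      χ + 2 * (L.length : ℤ) ≤ m + 2 * (b : ℤ) ∧ Van D L := by
  induction h with
  | empty =>
    intro m hd
    refine ⟨[], ?_, fun x _ _ => rfl⟩
    obtain ⟨k, hk, hle⟩ := hd
    have hk0 : k = 0 := by
      by_contra hk0
      obtain ⟨L, hL⟩ := hk
      have h1 : (fun _ => 1 : Fin k → ℂ) ≠ 0 := by
        intro h2
        have h3 := congrFun h2 ⟨0, Nat.pos_of_ne_zero hk0⟩
        exact one_ne_zero h3
      have h4 := hL _ h1
      have h5 : Q ([] : Word) (L fun _ => 1) = 0 := by simp [Q, B]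
      exact absurd h4 (by
        show ¬ 0 < Q ([] : Word) (L fun _ => 1)
        rw [h5]
        exact lt_irrefl _)
    subst hk0
    simpa using hle
  | iso h h' ih =>
    intro m hd
    obtain ⟨L, h1, h2⟩ := ih m (Dfc_iso h hd)
    obtain ⟨T, hT⟩ := (Tr_iso h).1
    refine ⟨L.map (fun ℓ => ℓ ∘ₗ T), by rw [List.length_map]; exact h1, ?_⟩
    intro x hx hℓ
    obtain ⟨h3, h4⟩ := hT x hx
    rw [← h4]
    exact h2 (T x) h3 fun ℓ hℓ' => hℓ _ (List.mem_map_of_mem (f := fun ℓ => ℓ ∘ₗ T) hℓ')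
  | @rem b χ n u v a h ih =>
    intro m hd
    by_cases hall : ∀ x, act (u ++ a :: v) x = x → act u x a.1 = act u x (a.1 + 1)
    · obtain ⟨L, h1, h2⟩ := ih (m + 1) (Dfc_del hd)
      refine ⟨L, by linarith, ?_⟩
      intro x hx hℓ
      have he := hall x hx
      show xi (u ++ a :: v) x 0 = 0
      rw [xi_skip he]
      exact h2 x (by rw [← act_skip he]; exact hx) hℓ
    · push Not at hall
      obtain ⟨x0, hx0, hne⟩ := hall
      obtain ⟨k, hk, hle⟩ := hd
      have hk' := Bad_del hx0 hne hk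
      obtain ⟨L, h1, h2⟩ := ih (m - 1) ⟨k, hk', by
        simp only [List.length_append, List.length_cons] at hle ⊢
        push_cast at hle ⊢
        linarith⟩
      obtain ⟨ℓ0, hℓ0⟩ := exists_ell u a.1
      refine ⟨ℓ0 :: L, by rw [List.length_cons]; push_cast; linarith, ?_⟩
      intro x hx hℓ
      have he : act u x a.1 = act u x (a.1 + 1) := by
        have h3 := hℓ ℓ0 List.mem_cons_self
        rw [hℓ0] at h3
        exact sub_eq_zero.1 h3
      show xi (u ++ a :: v) x 0 = 0
      rw [xi_skip he]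
      exact h2 x (by rw [← act_skip he]; exact hx) fun ℓ h3 => hℓ ℓ (List.mem_cons_of_mem _ h3)
  | @ins b χ n u v a h ih =>
    intro m hd
    by_cases hall : ∀ x, act (u ++ v) x = x → act u x a.1 = act u x (a.1 + 1)
    · obtain ⟨L, h1, h2⟩ := ih (m + 1) (Dfc_ins a hd)
      refine ⟨L, by linarith, ?_⟩
      intro x hx hℓ
      have he := hall x hx
      show xi (u ++ v) x 0 = 0
      rw [← xi_skip (a := a) he]
      exact h2 x (by
        show act (u ++ a :: v) x = x
        rw [act_skip he]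
        exact hx) hℓ
    · push Not at hall
      obtain ⟨x0, hx0, hne⟩ := hall
      obtain ⟨k, hk, hle⟩ := hd
      have hk' := Bad_ins hx0 hne hk
      obtain ⟨L, h1, h2⟩ := ih (m - 1) ⟨k + 1, hk', by
        simp only [List.length_append, List.length_cons] at hle ⊢
        push_cast at hle ⊢
        linarith⟩
      obtain ⟨ℓ0, hℓ0⟩ := exists_ell u a.1
      refine ⟨ℓ0 :: L, by rw [List.length_cons]; push_cast; linarith, ?_⟩
      intro x hx hℓ
      have he : act u x a.1 = act u x (a.1 + 1) := by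
        have h3 := hℓ ℓ0 List.mem_cons_self
        rw [hℓ0] at h3
        exact sub_eq_zero.1 h3
      show xi (u ++ v) x 0 = 0
      rw [← xi_skip (a := a) he]
      exact h2 x (by
        show act (u ++ a :: v) x = x
        rw [act_skip he]
        exact hx) fun ℓ h3 => hℓ ℓ (List.mem_cons_of_mem _ h3)
  | @min b χ n w h ih =>
    intro m hd
    obtain ⟨L, h1, h2⟩ := ih (m - 1) (Dfc_min hd)
    exact ⟨L, by linarith, h2⟩
  | @max b χ n w h ih =>
    intro m hd
    obtain ⟨L, h1, h2⟩ := ih (m + 1) (Dfc_max hd)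
    exact ⟨L, by push_cast; linarith, h2⟩
  | @cross b χ n u v i h ih =>
    intro m hd
    by_cases hall : ∀ x, act (u ++ (i, true) :: v) x = x → act u x i = act u x (i + 1)
    · obtain ⟨L, h1, h2⟩ := ih m (Dfc_cross hd)
      refine ⟨L, h1, ?_⟩
      intro x hx hℓ
      have he := hall x hx
      have h3 : act (u ++ v) x = x := by
        have h4 := act_skip (u := u) (v := v) (a := (i, true)) he
        rw [← h4]
        exact hx
      have h5 := h2 x (by
        show act (u ++ (i, false) :: v) x = x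
        rw [act_skip (a := (i, false)) he]
        exact h3) hℓ
      show xi (u ++ (i, true) :: v) x 0 = 0
      rw [xi_skip (a := (i, true)) he, ← xi_skip (a := (i, false)) he]
      exact h5
    · push Not at hall
      obtain ⟨x0, hx0, hne⟩ := hall
      obtain ⟨k, hk, hle⟩ := hd
      have hk' := Bad_cross hx0 hne hk
      obtain ⟨L, h1, h2⟩ := ih (m - 2) ⟨k + 1, hk', by
        simp only [List.length_append, List.length_cons] at hle ⊢
        push_cast at hle ⊢
        linarith⟩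
      obtain ⟨ℓ0, hℓ0⟩ := exists_ell u i
      refine ⟨ℓ0 :: L, by rw [List.length_cons]; push_cast; linarith, ?_⟩
      intro x hx hℓ
      have he : act u x i = act u x (i + 1) := by
        have h3 := hℓ ℓ0 List.mem_cons_self
        rw [hℓ0] at h3
        exact sub_eq_zero.1 h3
      have h3 : act (u ++ v) x = x := by
        have h4 := act_skip (u := u) (v := v) (a := (i, true)) he
        rw [← h4]
        exact hx
      have h5 := h2 x (by
        show act (u ++ (i, false) :: v) x = x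
        rw [act_skip (a := (i, false)) he]
        exact h3) fun ℓ h6 => hℓ ℓ (List.mem_cons_of_mem _ h6)
      show xi (u ++ (i, true) :: v) x 0 = 0
      rw [xi_skip (a := (i, true)) he, ← xi_skip (a := (i, false)) he]
      exact h5

end Pool.Agent.Work.MP_749b09_gt
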