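import Pool.Agent.Work.MP_749b09_gt.KbF
import Pool.Agent.Work.MP_749b09_gt.Obs
import Pool.Agent.Work.MP_749b09_gt.ImmF

/-!
# FinA (S-M): `KW b` bounds no surface with Euler characteristic 1, positive double points and
at most `b` local maxima

Suppose `ImmB m 1 (4 b + 5, KW b)` with `m ≤ b`.  `obstruct` with `Dfc _ 1` (`KW_dfc`) gives `L` with
`1 + 2 |L| ≤ 1 + 2 m`, so `|L| ≤ b`, and `Van`.  The map
`S : (Fin (b+1) → ℂ) → (ℕ → ℂ)`, `S a = col b 0 (fun j => if h : j < b + 1 then a ⟨j, h⟩ else 0)` is linear;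
the map `a ↦ (ℓ (S a))_(ℓ ∈ L)` from `ℂ^(b+1)` to `ℂ^|L|` has a nonzero kernel vector `a`
(`LinearMap.exists_ne_zero_of_finrank_lt` or `exists_ne_zero_...`/ rank nullity,
`LinearMap.ker_ne_bot_of_finrank_lt`).  `S a` is a closed colouring (`KW_col`), so
`0 = xi (KW b) (S a) 0 = 6 ∑ (a j conj (a j))²` (`KW_xi`) `= 6 ∑ ‖a j‖⁴ > 0` (as a complex number the
cast of a positive real), a contradiction.
-/

namespace Pool.Agent.Work.MP_749b09_gt

open ComplexConjugate

/-- The colouring as a linear map of the parameters. -/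
private noncomputable def colL (b : ℕ) : (Fin (b + 1) → ℂ) →ₗ[ℂ] (ℕ → ℂ) where
  toFun a := col b 0 (fun j => if h : j < b + 1 then a ⟨j, h⟩ else 0)
  map_add' a a' := by
    funext k
    simp only [col, Pi.add_apply, zero_add]
    rw [← Finset.sum_add_distrib]
    refine Finset.sum_congr rfl fun j hj => ?_
    have := Finset.mem_range.1 hj
    simp only [this, dif_pos]
    ring
  map_smul' c a := by
    funext k
    simp only [col, Pi.smul_apply, zero_add, smul_eq_mul, RingHom.id_apply]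
    rw [Finset.mul_sum]
    refine Finset.sum_congr rfl fun j hj => ?_
    have := Finset.mem_range.1 hj
    simp only [this, dif_pos]
    ring

/-- A family of at most `b` functionals on colourings has a common zero among the nontrivial
colourings of `KW b`. -/
theorem exists_zero (b : ℕ) (L : List ((ℕ → ℂ) →ₗ[ℂ] ℂ)) (hL : L.length ≤ b) :
    ∃ a : ℕ → ℂ, (∃ j ∈ Finset.range (b + 1), a j ≠ 0) ∧ ∀ ℓ ∈ L, ℓ (col b 0 a) = 0 := by
  let T : (Fin (b + 1) → ℂ) →ₗ[ℂ] (Fin L.length → ℂ) :=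
    LinearMap.pi fun i => (L.get i).comp (colL b)
  have hT : LinearMap.ker T ≠ ⊥ := by
    apply LinearMap.ker_ne_bot_of_finrank_lt
    simp only [Module.finrank_fin_fun]
    omega
  obtain ⟨a, haT, ha⟩ := (Submodule.ne_bot_iff _).1 hT
  refine ⟨fun j => if h : j < b + 1 then a ⟨j, h⟩ else 0, ?_, ?_⟩
  · by_contra hcon
    push Not at hcon
    apply ha
    funext i
    have := hcon i.1 (Finset.mem_range.2 i.2)
    simpa [i.2] using this
  · intro ℓ hℓ
    obtain ⟨i, hi⟩ := List.get_of_mem hℓ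
    have h1 : T a i = 0 := by
      rw [LinearMap.mem_ker.1 haT]; rfl
    rw [← hi]
    exact h1

theorem sum_ne (b : ℕ) (a : ℕ → ℂ) (h : ∃ j ∈ Finset.range (b + 1), a j ≠ 0) :
    6 * ∑ j ∈ Finset.range (b + 1), (a j * conj (a j)) ^ 2 ≠ 0 := by
  obtain ⟨j, hj, hne⟩ := h
  have h1 : ∑ j ∈ Finset.range (b + 1), (a j * conj (a j)) ^ 2
      = ((∑ j ∈ Finset.range (b + 1), (Complex.normSq (a j)) ^ 2 : ℝ) : ℂ) := by
    push_cast
    refine Finset.sum_congr rfl fun i _ => ?_
    rw [Complex.mul_conj]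
  rw [h1]
  apply mul_ne_zero (by norm_num)
  rw [Ne, Complex.ofReal_eq_zero]
  apply ne_of_gt
  apply Finset.sum_pos'
  · intro i _; positivity
  · refine ⟨j, hj, ?_⟩
    have := Complex.normSq_pos.2 hne
    positivity

theorem not_ImmB (b m : ℕ) (hm : m ≤ b) : ¬ ImmB m 1 (4 * b + 5, KW b) := by
  intro h
  obtain ⟨L, hL, hv⟩ := obstruct h 1 (KW_dfc b)
  obtain ⟨a, ha, hz⟩ := exists_zero b L (by omega)
  refine sum_ne b a ha ?_
  rw [← KW_xi b 0 a 0]
  exact hv _ (KW_col b 0 a) hz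

end Pool.Agent.Work.MP_749b09_gt
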