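import Pool.Agent.Work.MP_749b09_gt.TF

/-!
# FormA (M): the Hermitian form of a word, basic facts

All by induction on the word, generalising `p, q`, from the case of one letter (`locB`) and the
additivity of `nxt`:
* `nxt_add`, `nxt_smul`: unfold `nxt`, `sg`, `Prod.ext`, funext, split ifs, ring.
* `B_append`, `run_append`.
* `B_add_right`, `B_smul_right` (linear in the second argument), `B_add_left`, `B_smul_left`
  (conjugate linear in the first argument), `B_symm` (Hermitian; use `conj_t`,
  `conj_one_sub_t`: `conj (conj (q.2 0) * (t * A)) = (1-t) * conj A * q.2 0`; for `dl` use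
  `conj (dl e) = dl e`).
* `Q_eq`: `B w p p` is its own conjugate, hence real: `(B w p p) = (Q w p : ℂ)`.
* `Q_add`: `Q (p + q) = Q p + Q q + 2 Re B (q, p)`; `Q_smul`: `Q (c • p) = ‖c‖² Q p`.
* `B_congr`: the form depends on the letter variables `y j`, `j < length w`, only (induction,
  generalising; the first components are equal).
-/

namespace Pool.Agent.Work.MP_749b09_gt

open ComplexConjugate

private theorem fa_sg_add (i : ℕ) (a b : ℂ) (k : ℕ) : sg i (a + b) k = sg i a k + sg i b k := by
  unfold sg
  split_ifs <;> simp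

private theorem fa_sg_mul (i : ℕ) (c a : ℂ) (k : ℕ) : sg i (c * a) k = c * sg i a k := by
  unfold sg
  split_ifs <;> simp

private theorem fa_conj_dl (e : Bool) : conj (dl e) = dl e := by
  cases e <;> simp [dl]

private theorem fa_loc_symm (a : ℕ × Bool) (p q : V) : locB a q p = conj (locB a p q) := by
  unfold locB
  simp only [map_add, map_mul, map_sub, Complex.conj_conj, conj_t, map_one, fa_conj_dl]
  ring

theorem nxt_add (i : ℕ) (p q : V) : nxt i (p + q) = nxt i p + nxt i q := by
  unfold nxt
  refine Prod.ext ?_ rfl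
  funext k
  change p.1 k + q.1 k + sg i (p.2 0 + q.2 0) k = p.1 k + sg i (p.2 0) k + (q.1 k + sg i (q.2 0) k)
  rw [fa_sg_add]
  ring

theorem nxt_smul (i : ℕ) (c : ℂ) (p : V) : nxt i (c • p) = c • nxt i p := by
  unfold nxt
  refine Prod.ext ?_ rfl
  funext k
  change c * p.1 k + sg i (c * p.2 0) k = c * (p.1 k + sg i (p.2 0) k)
  rw [fa_sg_mul]
  ring

theorem run_append (u w : Word) (p : V) : run (u ++ w) p = run w (run u p) := by
  induction u generalizing p with
  | nil => rfl
  | cons a u ih => exact ih (nxt a.1 p)

theorem run_add (w : Word) (p q : V) : run w (p + q) = run w p + run w q := by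
  induction w generalizing p q with
  | nil => rfl
  | cons a w ih =>
    change run w (nxt a.1 (p + q)) = _
    rw [nxt_add]
    exact ih _ _

theorem run_smul (w : Word) (c : ℂ) (p : V) : run w (c • p) = c • run w p := by
  induction w generalizing p with
  | nil => rfl
  | cons a w ih =>
    change run w (nxt a.1 (c • p)) = _
    rw [nxt_smul]
    exact ih _

theorem B_append (u w : Word) (p q : V) :
    B (u ++ w) p q = B u p q + B w (run u p) (run u q) := by
  induction u generalizing p q with
  | nil =>
    change B w p q = 0 + B w p q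
    rw [zero_add]
  | cons a u ih =>
    change locB a p q + B (u ++ w) (nxt a.1 p) (nxt a.1 q) =
      locB a p q + B u (nxt a.1 p) (nxt a.1 q) + B w (run u (nxt a.1 p)) (run u (nxt a.1 q))
    rw [ih, add_assoc]

theorem B_add_right (w : Word) (p q r : V) : B w p (q + r) = B w p q + B w p r := by
  induction w generalizing p q r with
  | nil => simp [B]
  | cons a w ih =>
    change locB a p (q + r) + B w (nxt a.1 p) (nxt a.1 (q + r)) =
      locB a p q + B w (nxt a.1 p) (nxt a.1 q) + (locB a p r + B w (nxt a.1 p) (nxt a.1 r))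
    rw [nxt_add, ih]
    have h : locB a p (q + r) = locB a p q + locB a p r := by
      unfold locB
      simp only [Prod.fst_add, Prod.snd_add, Pi.add_apply]
      ring
    rw [h]
    ring

theorem B_smul_right (w : Word) (c : ℂ) (p q : V) : B w p (c • q) = c * B w p q := by
  induction w generalizing p q with
  | nil => simp [B]
  | cons a w ih =>
    change locB a p (c • q) + B w (nxt a.1 p) (nxt a.1 (c • q)) =
      c * (locB a p q + B w (nxt a.1 p) (nxt a.1 q))
    rw [nxt_smul, ih]
    have h : locB a p (c • q) = c * locB a p q := by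
      unfold locB
      simp only [Prod.smul_fst, Prod.smul_snd, Pi.smul_apply, smul_eq_mul]
      ring
    rw [h]
    ring

private theorem fa_symm (w : Word) (p q : V) : B w q p = conj (B w p q) := by
  induction w generalizing p q with
  | nil => simp [B]
  | cons a w ih =>
    change locB a q p + B w (nxt a.1 q) (nxt a.1 p) =
      conj (locB a p q + B w (nxt a.1 p) (nxt a.1 q))
    rw [map_add, ← ih, ← fa_loc_symm]

theorem B_add_left (w : Word) (p q r : V) : B w (p + q) r = B w p r + B w q r := by
  rw [fa_symm, B_add_right, map_add, ← fa_symm, ← fa_symm]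

theorem B_smul_left (w : Word) (c : ℂ) (p q : V) : B w (c • p) q = conj c * B w p q := by
  rw [fa_symm, B_smul_right, map_mul, ← fa_symm]

theorem B_zero_right (w : Word) (p : V) : B w p 0 = 0 := by
  have h := B_smul_right w 0 p 0
  rw [zero_smul, zero_mul] at h
  exact h

theorem B_zero_left (w : Word) (p : V) : B w 0 p = 0 := by
  have h := B_smul_left w 0 0 p
  rw [zero_smul, map_zero, zero_mul] at h
  exact h

theorem B_symm (w : Word) (p q : V) : B w q p = conj (B w p q) := by
  exact fa_symm w p q

theorem Q_eq (w : Word) (p : V) : B w p p = ((Q w p : ℝ) : ℂ) := by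
  have h := B_symm w p p
  unfold Q
  exact (Complex.conj_eq_iff_re.1 h.symm).symm

theorem Q_add (w : Word) (p q : V) : Q w (p + q) = Q w p + Q w q + 2 * (B w q p).re := by
  unfold Q
  rw [B_add_left, B_add_right, B_add_right]
  have h : (B w p q).re = (B w q p).re := by
    rw [B_symm w q p, Complex.conj_re]
  simp only [Complex.add_re]
  rw [h]
  ring

theorem Q_smul (w : Word) (c : ℂ) (p : V) : Q w (c • p) = ‖c‖ ^ 2 * Q w p := by
  have h : B w (c • p) (c • p) = ((‖c‖ ^ 2 : ℝ) : ℂ) * B w p p := by
    rw [B_smul_left, B_smul_right, ← mul_assoc, Complex.conj_mul']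
    push_cast
    ring
  unfold Q
  rw [h, Complex.re_ofReal_mul]

theorem Q_zero (w : Word) : Q w 0 = 0 := by
  unfold Q
  rw [B_zero_right, Complex.zero_re]

/-- The form as a linear functional of the second argument. -/
theorem exists_BLin (w : Word) (p : V) : ∃ φ : V →ₗ[ℂ] ℂ, ∀ q, φ q = B w p q := by
  exact ⟨⟨⟨fun q => B w p q, fun q r => B_add_right w p q r⟩, fun c q => B_smul_right w c p q⟩,
    fun _ => rfl⟩

theorem B_congr (w : Word) {p p' q q' : V} (h1 : p.1 = p'.1) (h2 : ∀ j < w.length, p.2 j = p'.2 j)
    (h3 : q.1 = q'.1) (h4 : ∀ j < w.length, q.2 j = q'.2 j) : B w p q = B w p' q' := by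
  induction w generalizing p p' q q' with
  | nil => rfl
  | cons a w ih =>
    have e1 : p.2 0 = p'.2 0 := h2 0 (Nat.zero_lt_succ _)
    have e2 : q.2 0 = q'.2 0 := h4 0 (Nat.zero_lt_succ _)
    change locB a p q + B w (nxt a.1 p) (nxt a.1 q) = locB a p' q' + B w (nxt a.1 p') (nxt a.1 q')
    have h5 : locB a p q = locB a p' q' := by
      unfold locB
      rw [h1, h3, e1, e2]
    rw [h5, ih (p := nxt a.1 p) (p' := nxt a.1 p') (q := nxt a.1 q) (q' := nxt a.1 q')
      (by
        funext k
        change p.1 k + sg a.1 (p.2 0) k = p'.1 k + sg a.1 (p'.2 0) k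
        rw [h1, e1])
      (fun j hj => h2 (j + 1) (Nat.succ_lt_succ hj))
      (by
        funext k
        change q.1 k + sg a.1 (q.2 0) k = q'.1 k + sg a.1 (q'.2 0) k
        rw [h3, e2])
      (fun j hj => h4 (j + 1) (Nat.succ_lt_succ hj))]

/-- The values of the strands after the word depend on the letter variables `y j`,
`j < length w`, only. -/
theorem run_congr (w : Word) {p p' : V} (h1 : p.1 = p'.1)
    (h2 : ∀ j < w.length, p.2 j = p'.2 j) : (run w p).1 = (run w p').1 := by
  induction w generalizing p p' with
  | nil => exact h1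
  | cons a w ih =>
    have e1 : p.2 0 = p'.2 0 := h2 0 (Nat.zero_lt_succ _)
    exact ih (p := nxt a.1 p) (p' := nxt a.1 p')
      (by
        funext k
        change p.1 k + sg a.1 (p.2 0) k = p'.1 k + sg a.1 (p'.2 0) k
        rw [h1, e1])
      (fun j hj => h2 (j + 1) (Nat.succ_lt_succ hj))

theorem run_snd (w : Word) (p : V) (j : ℕ) : (run w p).2 j = p.2 (j + w.length) := by
  induction w generalizing p j with
  | nil => rfl
  | cons a w ih =>
    change (run w (nxt a.1 p)).2 j = _
    rw [ih]
    rfl

end Pool.Agent.Work.MP_749b09_gt
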