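import Pool.Agent.Work.MP_749b09_gt.FormA

/-!
# FormT (S-M): modification of the letter variables behind a word

`tl p f y` keeps `y 0, ..., y (p - 1)` and replaces the rest `y (p + j)` by `f` of it.
* `run_tl`: the state after `u` of `(Z, tl (length u) f y)` is the state of `(Z, y)` with `f`
  applied to the letter variables (the first components agree by `run_congr`, the second
  ones by `run_snd`).
* `B_tl`: by `B_congr` (`tl p f y j = y j` for `j < p`).
* `tlLin`, `cnsLin`: the maps are linear.
* `B_local`: for words `a, b` and a linear map `f` with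
  `B a (Z, y) (Z', y') = B b (Z, f y) (Z', f y')` for all arguments, the form of `u ++ a` is the form
  of `u ++ b` after `tl (length u) f` (`B_append`, `run_tl`, `B_tl`).
-/

namespace Pool.Agent.Work.MP_749b09_gt

open ComplexConjugate

private theorem ft_tl_lt (p : ℕ) (f : (ℕ → ℂ) → (ℕ → ℂ)) (y : ℕ → ℂ) {j : ℕ} (hj : j < p) :
    tl p f y j = y j := by
  unfold tl
  rw [if_pos hj]

private theorem ft_snd (u : Word) (p : V) : (run u p).2 = fun j => p.2 (j + u.length) := by
  funext j
  exact run_snd u p j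

theorem run_tl (u : Word) (f : (ℕ → ℂ) → (ℕ → ℂ)) (p : V) :
    run u (p.1, tl u.length f p.2) = ((run u p).1, f (run u p).2) := by
  refine Prod.ext ?_ ?_
  · exact run_congr u rfl fun j hj => ft_tl_lt _ f p.2 hj
  · change (run u (p.1, tl u.length f p.2)).2 = f (run u p).2
    rw [ft_snd, ft_snd]
    funext j
    change tl u.length f p.2 (j + u.length) = _
    unfold tl
    rw [if_neg (by omega), Nat.add_sub_cancel]

theorem B_tl (u : Word) (f g : (ℕ → ℂ) → (ℕ → ℂ)) (p q : V) :
    B u (p.1, tl u.length f p.2) (q.1, tl u.length g q.2) = B u p q := by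
  exact B_congr u rfl (fun j hj => ft_tl_lt _ f p.2 hj) rfl (fun j hj => ft_tl_lt _ g q.2 hj)

/-- For a linear map `f`, the map `(Z, y) ↦ (Z, tl p f y)` is linear. -/
theorem exists_tlLin (p : ℕ) (f : (ℕ → ℂ) →ₗ[ℂ] (ℕ → ℂ)) :
    ∃ T : V →ₗ[ℂ] V, ∀ q : V, T q = (q.1, tl p f q.2) := by
  refine ⟨⟨⟨fun q => (q.1, tl p f q.2), ?_⟩, ?_⟩, fun _ => rfl⟩
  · intro q r
    refine Prod.ext rfl ?_
    funext k
    change tl p f (q.2 + r.2) k = tl p f q.2 k + tl p f r.2 k
    unfold tl
    split_ifs
    · rfl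
    · have h : (fun j => (q.2 + r.2) (j + p)) = (fun j => q.2 (j + p)) + fun j => r.2 (j + p) :=
        rfl
      rw [h, map_add]
      rfl
  · intro c q
    refine Prod.ext rfl ?_
    funext k
    change tl p f (c • q.2) k = c • tl p f q.2 k
    unfold tl
    split_ifs
    · rfl
    · have h : (fun j => (c • q.2) (j + p)) = c • (fun j => q.2 (j + p)) := rfl
      rw [h, map_smul]
      rfl

/-- Inserting a zero in front, as a linear map. -/
theorem exists_cnsLin : ∃ f : (ℕ → ℂ) →ₗ[ℂ] (ℕ → ℂ), ∀ y, f y = cns 0 y := by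
  refine ⟨⟨⟨fun y => cns 0 y, ?_⟩, ?_⟩, fun _ => rfl⟩
  · intro y z
    funext k
    cases k with
    | zero => simp [cns]
    | succ k => rfl
  · intro c y
    funext k
    cases k with
    | zero => simp [cns]
    | succ k => rfl

/-- Dropping the first value, as a linear map. -/
theorem exists_dropLin : ∃ f : (ℕ → ℂ) →ₗ[ℂ] (ℕ → ℂ), ∀ y, f y = fun k => y (k + 1) := by
  exact ⟨⟨⟨fun y k => y (k + 1), fun _ _ => rfl⟩, fun _ _ => rfl⟩, fun _ => rfl⟩

theorem B_local (u a b : Word) (f : (ℕ → ℂ) →ₗ[ℂ] (ℕ → ℂ))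
    (h : ∀ p q : V, B b (p.1, f p.2) (q.1, f q.2) = B a p q) (p q : V) :
    B (u ++ b) (p.1, tl u.length f p.2) (q.1, tl u.length f q.2) = B (u ++ a) p q := by
  rw [B_append, B_append, run_tl, run_tl, B_tl, h]

/-- The form of a word does not see the vectors which vanish on the strands and on the letters. -/
theorem B_run_zero (u w : Word) (s q : V) (h1 : s.1 = 0) (h2 : ∀ j < u.length, s.2 j = 0) :
    B (u ++ w) s q = B w (0, fun j => s.2 (j + u.length)) (run u q) := by
  rw [B_append]
  have h3 : B u s q = 0 := by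
    rw [B_congr u (p := s) (p' := 0) (q := q) (q' := q) h1 h2 rfl (fun _ _ => rfl), B_zero_left]
  have h4 : run u s = (0, fun j => s.2 (j + u.length)) := by
    refine Prod.ext ?_ (ft_snd u s)
    have h5 : (run u s).1 = (run u 0).1 := run_congr u h1 h2
    have h6 : run u 0 = 0 := by
      have h7 := run_smul u 0 0
      rw [zero_smul, zero_smul] at h7
      exact h7
    rw [h5, h6]
    rfl
  rw [h3, h4, zero_add]

end Pool.Agent.Work.MP_749b09_gt
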