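import Pool.Agent.Work.MP_749b09_gt.Words

/-!
# GPc (S-M): `KW b` is obtained from `JW b` by `b + 1` generalized positive crossing changes

* `J0 = preW ++ crN ++ (crP ++ postW)` and `K0 = preW ++ (crP ++ tw) ++ (crP ++ postW)`: one step
  `GenPosStep.mk 5 preW (crP ++ postW) 1` (the words of the definition with `i = 1` are `crN` and
  `crP ++ tw`).
* Work with words on a fixed number of strands: let `P n k w w'` be `GenPos k (n, w) (n, w')`.
  A step between words on `n` strands gives a step between the words `p ++ shiftW 4 w` on `n + 4`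
  strands, and between `w ++ s` on `n' ≥ n` strands.  Since no isotopies are used, it is convenient to
  introduce the chain `Ch n k w w'` (`k` steps `GenPosStep (n, _) (n, _)`), to prove the closure
  properties for it, and `Ch n k w w' → GenPos k (n, w) (n, w')` (isotopies = `Relation.EqvGen.refl`).
* `JW (b+1) = J0 ++ shiftW 4 (JW b) → K0 ++ shiftW 4 (JW b) → K0 ++ shiftW 4 (KW b)`.
-/

namespace Pool.Agent.Work.MP_749b09_gt

/-- Chains of generalized crossing changes without isotopies. -/
private inductive Ch (n : ℕ) : ℕ → Word → Word → Prop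
  | refl (w : Word) : Ch n 0 w w
  | step {k : ℕ} {w w' w'' : Word} (h : Ch n k w w') (h' : GenPosStep (n, w') (n, w'')) :
      Ch n (k + 1) w w''

private theorem Ch_gen {n k : ℕ} {w w' : Word} (h : Ch n k w w') : GenPos k (n, w) (n, w') := by
  induction h with
  | refl => exact GenPos.iso (Relation.EqvGen.refl _)
  | step _ h' ih => exact GenPos.step ih h' (Relation.EqvGen.refl _)

private theorem step_shift {n : ℕ} {w w' : Word} (p : Word)
    (h : GenPosStep (n, w) (n, w')) :
    GenPosStep (n + 4, p ++ shiftW 4 w) (n + 4, p ++ shiftW 4 w') := by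
  generalize hA : (n, w) = A at h
  generalize hB : (n, w') = B at h
  cases h with
  | mk m u v i hi =>
    simp only [Prod.mk.injEq] at hA hB
    obtain ⟨rfl, rfl⟩ := hA
    obtain ⟨-, rfl⟩ := hB
    have := GenPosStep.mk (n + 4) (p ++ shiftW 4 u) (shiftW 4 v) (i + 4) (by omega)
    convert this using 2
    · simp [shiftW, List.append_assoc]
    · simp [shiftW, List.append_assoc]

private theorem Ch_shift {n k : ℕ} {w w' : Word} (p : Word) (h : Ch n k w w') :
    Ch (n + 4) k (p ++ shiftW 4 w) (p ++ shiftW 4 w') := by
  induction h with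
  | refl => exact Ch.refl _
  | step _ h' ih => exact Ch.step ih (step_shift p h')

private theorem Ch_trans {n k l : ℕ} {w w' w'' : Word} (h : Ch n k w w') (h' : Ch n l w' w'') :
    Ch n (k + l) w w'' := by
  induction h' with
  | refl => exact h
  | step _ h' ih => exact Ch.step (ih h) h'

theorem J0_K0 (n : ℕ) (hn : 5 ≤ n) (s : Word) : GenPosStep (n, J0 ++ s) (n, K0 ++ s) := by
  have := GenPosStep.mk n preW (crP ++ postW ++ s) 1 (by omega)
  convert this using 2
  · simp [J0, crN, List.append_assoc]
  · simp [K0, tw, List.append_assoc, crP]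

theorem JW_KW (b : ℕ) : GenPos (b + 1) (4 * b + 5, JW b) (4 * b + 5, KW b) := by
  have key : ∀ b : ℕ, Ch (4 * b + 5) (b + 1) (JW b) (KW b) := by
    intro b
    induction b with
    | zero =>
      have := J0_K0 5 (le_refl 5) []
      simp only [List.append_nil] at this
      exact Ch.step (Ch.refl _) this
    | succ b ih =>
      have h1 : Ch (4 * b + 5 + 4) 1 (J0 ++ shiftW 4 (JW b)) (K0 ++ shiftW 4 (JW b)) :=
        Ch.step (Ch.refl _) (J0_K0 _ (by omega) _)
      have h2 := Ch_shift K0 ih
      have h3 := Ch_trans h1 h2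
      have e1 : 4 * (b + 1) + 5 = 4 * b + 5 + 4 := by ring
      rw [e1]
      rw [show b + 1 + 1 = 1 + (b + 1) by ring]
      exact h3
  exact Ch_gen (key b)

end Pool.Agent.Work.MP_749b09_gt
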