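import Pool.Agent.Work.MP_749b09_gt.XiA

/-!
# ShA (S-M): shifted words, colourings

* `act_shift`: induction on `w` (generalise `x`): one letter `(i + m, e)` changes only the positions
  `i + m, i + m + 1`; so on positions `≥ m` it is the letter `(i, e)` for `fun j => x (j + m)`.
* `act_shift_lt`: positions `< m` do not change.
* `xi_shift`: induction on `w`; `reg x s (i + m) = reg (fun j => x (j + m)) (reg x s m) i`
  (`reg_shift`), and `reg (act1 (i + m, e) x) s m = reg x s m` because `m ≠ i + m + 1`
  (`reg_act1`).
* `valid_shift`, `valid_append`, `valid_mono`: immediate.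
-/

namespace Pool.Agent.Work.MP_749b09_gt

open ComplexConjugate

private theorem act1_shift (m : ℕ) (a : ℕ × Bool) (x : ℕ → ℂ) :
    (fun j => act1 (a.1 + m, a.2) x (j + m)) = act1 a (fun j => x (j + m)) := by
  funext k
  unfold act1
  have h1 : (k + m = a.1 + m) = (k = a.1) := by
    apply propext; constructor <;> intro h <;> omega
  have h2 : (k + m = a.1 + m + 1) = (k = a.1 + 1) := by
    apply propext; constructor <;> intro h <;> omega
  have h3 : a.1 + m + 1 = a.1 + 1 + m := by ring
  simp only [h1, h3]
  simp only [show (k + m = a.1 + 1 + m) = (k = a.1 + 1) by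
    apply propext; constructor <;> intro h <;> omega]

theorem act_shift (m : ℕ) (w : Word) (x : ℕ → ℂ) (k : ℕ) :
    act (shiftW m w) x (k + m) = act w (fun j => x (j + m)) k := by
  induction w generalizing x with
  | nil => rfl
  | cons a w ih =>
    have : shiftW m (a :: w) = (a.1 + m, a.2) :: shiftW m w := rfl
    rw [this]
    change act (shiftW m w) (act1 (a.1 + m, a.2) x) (k + m) = act w (act1 a _) k
    rw [ih, act1_shift]

theorem act_shift_lt (m : ℕ) (w : Word) (x : ℕ → ℂ) {k : ℕ} (hk : k < m) :
    act (shiftW m w) x k = x k := by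
  induction w generalizing x with
  | nil => rfl
  | cons a w ih =>
    have : shiftW m (a :: w) = (a.1 + m, a.2) :: shiftW m w := rfl
    rw [this]
    change act (shiftW m w) (act1 (a.1 + m, a.2) x) k = x k
    rw [ih]
    unfold act1
    simp only
    rw [if_neg (by omega), if_neg (by omega)]

theorem xi_shift (m : ℕ) (w : Word) (x : ℕ → ℂ) (s : ℂ) :
    xi (shiftW m w) x s = xi w (fun j => x (j + m)) (reg x s m) := by
  induction w generalizing x with
  | nil => rfl
  | cons a w ih =>
    have : shiftW m (a :: w) = (a.1 + m, a.2) :: shiftW m w := rfl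
    rw [this]
    simp only [xi]
    rw [ih, act1_shift, reg_act1 (a.1 + m) a.2 x s (by omega)]
    congr 1
    have h3 : a.1 + m + 1 = a.1 + 1 + m := by ring
    unfold loc
    simp only [h3, reg_shift x s m a.1]

theorem valid_shift {m n : ℕ} {w : Word} (h : Valid n w) : Valid (n + m) (shiftW m w) := by
  intro a ha
  simp only [shiftW, List.mem_map] at ha
  obtain ⟨b, hb, rfl⟩ := ha
  have := h b hb
  simp only
  omega

theorem valid_append {n : ℕ} {u v : Word} (hu : Valid n u) (hv : Valid n v) :
    Valid n (u ++ v) := by
  intro a ha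
  rcases List.mem_append.1 ha with h | h
  · exact hu a h
  · exact hv a h

theorem valid_mono {n n' : ℕ} {w : Word} (h : Valid n w) (hn : n ≤ n') : Valid n' w :=
  fun a ha => lt_of_lt_of_le (h a ha) hn

end Pool.Agent.Work.MP_749b09_gt
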