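import Pool.Agent.Work.MP_749b09_gt.MirB
import Pool.Agent.Work.MP_749b09_gt.ShA

/-!
# K0F (S-M): the facts on `K0`

The three finite checks (`col_ok`, `sum_ok`, `gram_ok`) are proved by the kernel.
* `valid_K0`: decide.
* `X0_lt`: `X0 k = fl [0,0,0,1,1] k` for `k < 5`.
* `K0_col`: positions `< 5`: `act_congr`, `act_fl`, `col_ok`; positions `≥ 5`: `act_valid`.
* `K0_xi`: `xi_congr` (colouring `c + s * X0 k` agrees with `c + s * fl l k` for `k < 5`), `xi_aff`,
  `sum_fl`, `sum_ok`: `conj s ^ 2 * (s ^ 2 * 6)`.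
* `K0_pos`: `PosD_of_gram` with `vs a = vl (vecs.getD a ([], []))` and `B_vl`, `gram_ok`; all vectors
  have strand lists of length 5 (decide).
-/

namespace Pool.Agent.Work.MP_749b09_gt

open ComplexConjugate

set_option maxRecDepth 100000

theorem col_ok : actE K0 [(0, 0), (0, 0), (0, 0), (1, 0), (1, 0)]
    = [(0, 0), (0, 0), (0, 0), (1, 0), (1, 0)] := by decide +kernel

theorem sum_ok : sumE K0 [(0, 0), (0, 0), (0, 0), (1, 0), (1, 0)]
    = ((0, 0), (0, 0), (0, 0), (6, 0)) := by decide +kernel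

theorem gram_ok : ∀ a ∈ List.range 14, ∀ b ∈ List.range 14,
    BE K0 (vecs.getD a ([], [])) (vecs.getD b ([], [])) = if a = b then (1, 0) else (0, 0) := by
  decide +kernel

private theorem len_ok : ∀ a ∈ List.range 14, (vecs.getD a ([], [])).1.length = 5 := by
  decide +kernel

theorem valid_K0 : Valid 5 K0 := by
  unfold Valid; decide

theorem valid_J0 : Valid 5 J0 := by
  unfold Valid; decide

private def l0 : List (ℤ × ℤ) := [(0, 0), (0, 0), (0, 0), (1, 0), (1, 0)]

private theorem X0_lt : ∀ k < 5, X0 k = fl l0 k := by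
  intro k hk
  interval_cases k <;> simp [X0, fl, l0, ev]

private theorem valid_l0 : Valid l0.length K0 := valid_K0

theorem K0_col : act K0 X0 = X0 := by
  funext k
  rcases Nat.lt_or_ge k 5 with h | h
  · rw [act_congr valid_K0 X0_lt k h, act_fl valid_l0]
    have : actE K0 l0 = l0 := col_ok
    rw [this, X0_lt k h]
  · exact act_valid valid_K0 _ h

theorem K0_xi (c s v : ℂ) : xi K0 (fun k => c + s * X0 k) v = 6 * (s * conj s) ^ 2 := by
  have h1 : ∀ k < 5, (fun k => c + s * X0 k) k = (fun k => c + s * fl l0 k) k := by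
    intro k hk
    simp only [X0_lt k hk]
  rw [xi_congr valid_K0 v h1, xi_aff]
  obtain ⟨h2, h3, h4, h5⟩ := sum_fl valid_l0
  have h6 : sumE K0 l0 = ((0, 0), (0, 0), (0, 0), (6, 0)) := sum_ok
  rw [h2, h3, h4, h5, h6]
  simp [ev]
  ring

theorem K0_pos : PosD (Q K0) 14 := by
  refine PosD_of_gram K0 14 (fun a => vl (vecs.getD a.1 ([], []))) ?_
  intro a b
  have ha : a.1 ∈ List.range 14 := List.mem_range.2 a.2
  have hb : b.1 ∈ List.range 14 := List.mem_range.2 b.2
  have va : Valid (vecs.getD a.1 ([], [])).1.length K0 := by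
    rw [len_ok _ ha]; exact valid_K0
  have vb : Valid (vecs.getD b.1 ([], [])).1.length K0 := by
    rw [len_ok _ hb]; exact valid_K0
  rw [B_vl va vb, gram_ok _ ha _ hb]
  by_cases h : a = b
  · subst h; simp [ev]
  · have : a.1 ≠ b.1 := fun h' => h (Fin.ext h')
    simp [ev, h, this]

end Pool.Agent.Work.MP_749b09_gt
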