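import Pool.Agent.Work.MP_749b09_gt.K0F
import Pool.Agent.Work.MP_749b09_gt.FSum

/-!
# KbF (M): the facts on the words `KW b`

`NB b = 4 * b + 5` strands, `length (KW b) = 24 (b + 1)`.
* `valid_KW`: induction (`valid_append`, `valid_mono`, `valid_shift`).
* `len_KW`: induction (`length K0 = 24` by rfl/decide).
* `KW_pos`: induction with `FSum` (`m = 4`, `valid_K0 : Valid 5 K0`), `14 + 14 (b+1) = 14 (b+2)`.
* `KW_dfc`: `k = 14 (b + 1)`: `4 b + 5 + 24 (b + 1) ≤ 28 (b + 1) + 1` (equality).
* `col b c a k = c + ∑ j ≤ b, a j * X0 (k - 4 j)` (natural subtraction, `X0 0 = 0`).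
  `col_lt`: for `k ≤ 4`: `col (b+1) c a k = c + a 0 * X0 k` (for `j ≥ 1`, `k - 4 j = 0`); and
  `col 0 c a k = c + a 0 * X0 k` for all `k`.
  `col_shift`: `col (b+1) c a (k+4) = col b (c + a 0) (fun j => a (j+1)) k`, as `X0 (k+4) = 1` and
  `k + 4 - 4 (j+1) = k - 4 j` (`Finset.sum_range_succ'`).
* `KW_col`: induction on `b` (generalise `c, a`).  `act (K0 ++ shiftW 4 (KW b)) x`, `x = col (b+1) c a`:
  first `act K0 x = x`: positions `< 5`: `act_congr` with `c + a 0 * X0 k`, `act_aff`, `K0_col`;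
  positions `≥ 5`: `act_valid`.  Then positions `k + 4`: `act_shift`, `col_shift`, induction;
  positions `< 4`: `act_shift_lt`.
* `KW_xi`: induction: `xi_append`, `act K0 x = x`, `xi_congr` + `K0_xi` for the first part
  (`6 (a 0 conj (a 0))²`), `xi_shift`, `col_shift` and the induction hypothesis (for all `c, a, v`)
  for the second; `Finset.sum_range_succ'`.
-/

namespace Pool.Agent.Work.MP_749b09_gt

open ComplexConjugate

/-- The closed colourings of `KW b`. -/
noncomputable def col (b : ℕ) (c : ℂ) (a : ℕ → ℂ) (k : ℕ) : ℂ :=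
  c + ∑ j ∈ Finset.range (b + 1), a j * X0 (k - 4 * j)

private theorem valid_aux (w0 : Word) (h0 : Valid 5 w0) (W : ℕ → Word) (hW0 : W 0 = w0)
    (hW : ∀ b, W (b + 1) = w0 ++ shiftW 4 (W b)) (b : ℕ) : Valid (4 * b + 5) (W b) := by
  induction b with
  | zero => rw [hW0]; exact h0
  | succ b ih =>
    have e : 4 * (b + 1) + 5 = (4 * b + 5) + 4 := by ring
    rw [hW, e]
    exact valid_append (valid_mono h0 (by omega)) (valid_shift ih)

theorem valid_KW (b : ℕ) : Valid (4 * b + 5) (KW b) :=
  valid_aux K0 valid_K0 KW rfl (fun _ => rfl) b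

theorem valid_JW (b : ℕ) : Valid (4 * b + 5) (JW b) :=
  valid_aux J0 valid_J0 JW rfl (fun _ => rfl) b

theorem len_KW (b : ℕ) : (KW b).length = 24 * (b + 1) := by
  induction b with
  | zero => rfl
  | succ b ih =>
    have h : KW (b + 1) = K0 ++ shiftW 4 (KW b) := rfl
    rw [h, List.length_append, shiftW, List.length_map, ih]
    have : K0.length = 24 := rfl
    rw [this]; ring

theorem KW_pos (b : ℕ) : PosD (Q (KW b)) (14 * (b + 1)) := by
  induction b with
  | zero => exact K0_pos
  | succ b ih =>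
    have h := FSum (m := 4) valid_K0 (KW b) K0_pos ih
    have e : 14 + 14 * (b + 1) = 14 * (b + 1 + 1) := by ring
    rw [e] at h
    exact h

theorem KW_dfc (b : ℕ) : Dfc (4 * b + 5, KW b) 1 := by
  refine ⟨14 * (b + 1), KW_pos b, ?_⟩
  simp only [len_KW]
  push_cast
  omega

private theorem X0_zero : X0 0 = 0 := by simp [X0]

private theorem X0_four (k : ℕ) : X0 (k + 4) = 1 := by
  unfold X0
  rw [if_neg (by omega)]

private theorem col_zero (c : ℂ) (a : ℕ → ℂ) : col 0 c a = fun k => c + a 0 * X0 k := by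
  funext k
  simp [col]

private theorem col_lt (b : ℕ) (c : ℂ) (a : ℕ → ℂ) {k : ℕ} (hk : k < 5) :
    col (b + 1) c a k = c + a 0 * X0 k := by
  unfold col
  rw [Finset.sum_range_succ']
  have : ∀ j ∈ Finset.range (b + 1), a (j + 1) * X0 (k - 4 * (j + 1)) = 0 := by
    intro j _
    have e : k - 4 * (j + 1) = 0 := by omega
    rw [e, X0_zero, mul_zero]
  rw [Finset.sum_eq_zero this]
  simp

private theorem col_shift (b : ℕ) (c : ℂ) (a : ℕ → ℂ) (k : ℕ) :
    col (b + 1) c a (k + 4) = col b (c + a 0) (fun j => a (j + 1)) k := by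
  unfold col
  rw [Finset.sum_range_succ']
  have h1 : X0 (k + 4 - 4 * 0) = 1 := by
    rw [Nat.mul_zero, Nat.sub_zero]; exact X0_four k
  rw [h1]
  have h2 : ∀ j ∈ Finset.range (b + 1), a (j + 1) * X0 (k + 4 - 4 * (j + 1))
      = a (j + 1) * X0 (k - 4 * j) := by
    intro j _
    have e : k + 4 - 4 * (j + 1) = k - 4 * j := by omega
    rw [e]
  rw [Finset.sum_congr rfl h2]
  ring

private theorem first_col (b : ℕ) (c : ℂ) (a : ℕ → ℂ) :
    act K0 (col (b + 1) c a) = col (b + 1) c a := by
  funext k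
  rcases Nat.lt_or_ge k 5 with h | h
  · rw [act_congr valid_K0 (y := fun k => c + a 0 * X0 k) (fun j hj => col_lt b c a hj) k h,
      act_aff, K0_col, col_lt b c a h]
  · exact act_valid valid_K0 _ h

theorem KW_col (b : ℕ) (c : ℂ) (a : ℕ → ℂ) : act (KW b) (col b c a) = col b c a := by
  induction b generalizing c a with
  | zero =>
    rw [col_zero]
    change act K0 _ = _
    rw [act_aff, K0_col]
  | succ b ih =>
    have h : KW (b + 1) = K0 ++ shiftW 4 (KW b) := rfl
    rw [h, act_append, first_col]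
    funext k
    rcases Nat.lt_or_ge k 4 with hk | hk
    · exact act_shift_lt 4 _ _ hk
    · obtain ⟨j, rfl⟩ : ∃ j, k = j + 4 := ⟨k - 4, by omega⟩
      rw [act_shift]
      have e : (fun j => col (b + 1) c a (j + 4)) = col b (c + a 0) (fun j => a (j + 1)) := by
        funext j; exact col_shift b c a j
      rw [e, ih, col_shift]

theorem KW_xi (b : ℕ) (c : ℂ) (a : ℕ → ℂ) (v : ℂ) :
    xi (KW b) (col b c a) v = 6 * ∑ j ∈ Finset.range (b + 1), (a j * conj (a j)) ^ 2 := by
  induction b generalizing c a v with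
  | zero =>
    rw [col_zero]
    change xi K0 _ _ = _
    rw [K0_xi]
    simp
  | succ b ih =>
    have h : KW (b + 1) = K0 ++ shiftW 4 (KW b) := rfl
    rw [h, xi_append, first_col, xi_shift]
    have e : (fun j => col (b + 1) c a (j + 4)) = col b (c + a 0) (fun j => a (j + 1)) := by
      funext j; exact col_shift b c a j
    rw [e, ih, xi_congr valid_K0 v (y := fun k => c + a 0 * X0 k) (fun j hj => col_lt b c a hj),
      K0_xi, Finset.sum_range_succ' _ (b + 1)]
    ring

end Pool.Agent.Work.MP_749b09_gt
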