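import Pool.Agent.Work.MP_749b09_gt.ActA

/-!
# RegA (S-M): the region labels

* `reg_congr`: induction on `k`.
* `reg_aff`: induction on `k`: with `r = reg x 0 k`,
  `(1-t) (c + s x_k) + t (c + s r + t^k (v-c)) = c + s ((1-t) x_k + t r) + t^(k+1) (v-c)`.
* `reg_act1`: for `k ≤ i` only the colours `x 0, ..., x (k-1)` with indices `< i` are used.
  For `k = i + 2` with `ρ = reg x v i`, `l = x i`, `r = x (i+1)`, `m = mix l r`: the value after the
  letter is `(1-t) x'_(i+1) + t ((1-t) x'_i + t ρ)`.  Positive: `(1-t) l + t (1-t) m + t² ρ`,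
  negative: `(1-t) m + t (1-t) r + t² ρ`; both are `(1-t) r + t (1-t) l + t² ρ` by
  `t² = t - 1`.  For `k > i + 2` induction (the colours do not change there).
-/

namespace Pool.Agent.Work.MP_749b09_gt

open ComplexConjugate

private theorem reg_succ (x : ℕ → ℂ) (v : ℂ) (k : ℕ) :
    reg x v (k + 1) = (1 - t) * x k + t * reg x v k := rfl

private theorem reg_zero (x : ℕ → ℂ) (v : ℂ) : reg x v 0 = v := rfl

theorem reg_congr {x y : ℕ → ℂ} (v : ℂ) {k : ℕ} (h : ∀ j < k, x j = y j) :
    reg x v k = reg y v k := by
  induction k with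
  | zero => rfl
  | succ k ih =>
    rw [reg_succ, reg_succ, ih fun j hj => h j (by omega), h k (by omega)]

theorem reg_aff (x : ℕ → ℂ) (c s v : ℂ) (k : ℕ) :
    reg (fun j => c + s * x j) v k = c + s * reg x 0 k + t ^ k * (v - c) := by
  induction k with
  | zero => rw [reg_zero, reg_zero]; ring
  | succ k ih =>
    rw [reg_succ, reg_succ, ih]; ring

theorem reg_add (x y : ℕ → ℂ) (v w : ℂ) (k : ℕ) :
    reg (fun j => x j + y j) (v + w) k = reg x v k + reg y w k := by
  induction k with
  | zero => rfl
  | succ k ih =>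
    rw [reg_succ, reg_succ, reg_succ, ih]; ring

theorem reg_act1 (i : ℕ) (e : Bool) (x : ℕ → ℂ) (v : ℂ) {k : ℕ} (hk : k ≠ i + 1) :
    reg (act1 (i, e) x) v k = reg x v k := by
  have hlt : ∀ j, j < i → act1 (i, e) x j = x j := by
    intro j hj
    unfold act1
    rw [if_neg (by show j ≠ i; omega), if_neg (by show j ≠ i + 1; omega)]
  have hgt : ∀ j, i + 1 < j → act1 (i, e) x j = x j := by
    intro j hj
    unfold act1
    rw [if_neg (by show j ≠ i; omega), if_neg (by show j ≠ i + 1; omega)]
  have h1 : act1 (i, e) x i = if e then mix (x i) (x (i + 1)) else x (i + 1) := by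
    unfold act1
    rw [if_pos rfl]
  have h2 : act1 (i, e) x (i + 1) = if e then x i else mix (x i) (x (i + 1)) := by
    unfold act1
    rw [if_neg (by show i + 1 ≠ i; omega), if_pos rfl]
  rcases Nat.lt_or_ge i k with h | h
  · obtain ⟨j, rfl⟩ : ∃ j, k = i + 2 + j := ⟨k - (i + 2), by omega⟩
    clear h hk
    induction j with
    | zero =>
      have h0 : reg (act1 (i, e) x) v i = reg x v i := reg_congr v hlt
      show reg (act1 (i, e) x) v (i + 1 + 1) = reg x v (i + 1 + 1)
      rw [reg_succ, reg_succ, reg_succ, reg_succ, h0, h1, h2]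
      cases e
      · simp only [mix]
        simp only [Bool.false_eq_true, if_false]
        ring
      · simp only [mix, if_true]
        linear_combination ((1 - t) * (x i - x (i + 1))) * t_sq
    | succ j ih =>
      show reg (act1 (i, e) x) v (i + 2 + j + 1) = reg x v (i + 2 + j + 1)
      rw [reg_succ, reg_succ, ih, hgt _ (by omega)]
  · exact reg_congr v fun j hj => hlt j (by omega)

/-- The label of the region between the two strands of the crossing changes by
`(if e then t else t - 1) * (l - r)`. -/
theorem reg_act1_mid (i : ℕ) (e : Bool) (x : ℕ → ℂ) (v : ℂ) :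
    reg (act1 (i, e) x) v (i + 1)
      = reg x v (i + 1) + (if e then t else t - 1) * (x i - x (i + 1)) := by
  have hlt : ∀ j, j < i → act1 (i, e) x j = x j := by
    intro j hj
    unfold act1
    rw [if_neg (by show j ≠ i; omega), if_neg (by show j ≠ i + 1; omega)]
  have h1 : act1 (i, e) x i = if e then mix (x i) (x (i + 1)) else x (i + 1) := by
    unfold act1
    rw [if_pos rfl]
  rw [reg_succ, reg_succ, h1, reg_congr v hlt]
  cases e
  · simp only [mix]
    simp only [Bool.false_eq_true, if_false]
    ring
  · simp only [mix, if_true]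
    linear_combination (x (i + 1) - x i) * t_sq

theorem reg_shift (x : ℕ → ℂ) (v : ℂ) (m k : ℕ) :
    reg x v (k + m) = reg (fun j => x (j + m)) (reg x v m) k := by
  induction k with
  | zero => rw [Nat.zero_add, reg_zero]
  | succ k ih =>
    have h : k + 1 + m = k + m + 1 := by omega
    rw [h, reg_succ, reg_succ, ih]

end Pool.Agent.Work.MP_749b09_gt
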