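import Pool.Agent.Work.MP_749b09_gt.FormT
import Pool.Agent.Work.MP_749b09_gt.RegA

/-!
# Ker (M): the kernel vector of a closed colouring

Fix a base colouring `x0`.  For a colouring `x` put `Rg k = reg x 0 k - reg x0 0 k` (`Rg 0 = 0`),
`Ust k = (1-t) x0 k + Rg (k+1)`, `ph k = (1-t) (Rg (k+1) - Rg k)`, and for `M` and `Z : ℕ → ℂ`
`Pot M Z = ∑ k < M, conj (Z k) * ph k`.
* `ust_diff`: put `ρ = reg x 0 i`, `ρ' = reg x 0 (i+1) = (1-t) x i + t ρ`, `σ = reg x0 0 i`,
  `σ' = (1-t) x0 i + t σ`, `reg x 0 (i+2) = (1-t) x (i+1) + t ρ'`, etc.  A polynomial identity modulo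
  `t² = t - 1`, linear in `x i, x (i+1), x0 i, x0 (i+1), ρ, σ`: `linear_combination (..) * t_sq`
  (checked by computer).
* `nxt_ust`: by `reg_act1`, `reg_act1_mid`: only `Rg (i+1)`, that is `Ust i`, changes, by
  `c = (if e then t else t - 1) * (x i - x (i+1))`.
* `run_kv`: induction on `u` from `nxt_ust`.
* `pot_step`: by `ust_diff` with `δ = x i - x (i+1)`: `t (U i - U (i+1)) = ph i + δ`.  The potential
  changes by (the strand `i` of `Z` changes by `y' = p.2 0`, `ph i` by `(1-t) c`, `ph (i+1)` by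
  `-(1-t) c`; here `i + 1 < M` is used):
  `conj y' (ph i + (1-t) c) + conj (Z i) (1-t) c - conj (Z (i+1)) (1-t) c`, and `locB` is
  `conj y' t (U i + dl e c - U (i+1)) + (1-t) conj (Z i + dl e y' - Z (i+1)) c`.  The difference is
  `conj y' (δ + dl e c - (1-t) c) = 0`: for `e = true`: `c = t δ`, `(1-t) t = 1`; for `e = false`:
  `c = (t-1) δ`, `δ + (t-1) δ = t δ = (1-t) (t-1) δ`.  (For the sums: write both sums over `range M`
  with `Finset.sum_congr` on the complement of `{i, i+1}`; e.g. `Finset.sum_sub_distrib` and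
  `Finset.sum_eq_add_of_mem`/`sum_ite_eq` after expressing the new values with `sg`.)
* `B_kv`: induction on `w` (generalise `p, x`), `pot_step`, `nxt_ust`.
* `Ker_closed`: take `x0 = x`: `Ust = (1-t) x`, `act w x = x`, so both potentials vanish
  (`ph = 0`); `M` with `Valid M w` exists (`exists_valid`).
* `kv_at`: induction on `u`.
* `Ker_ins`: `x1 = act u x`.  By `B_run_zero`, `run_tl`, `run_kv` the left side is
  `B ((i, e) :: v) (0, sg 0 1) (Ust x1 x, cns 0 (kv v x1))`.  First letter:
  `t (U i - U (i+1))` (its own variable is `0`); the state becomes `(sg i 1, 0)` and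
  `(Ust x1 x, kv v x1)`; `B_kv` (for `v`, start `x1`, base `x`, end `act v x1 = x` where the potential
  is `0`) gives `- Pot M (sg i 1) = - ph i`.  Total `x1 i - x1 (i+1)` by `ust_diff`.
-/

namespace Pool.Agent.Work.MP_749b09_gt

open ComplexConjugate

/-- Difference of region labels. -/
noncomputable def Rg (x x0 : ℕ → ℂ) (k : ℕ) : ℂ := reg x 0 k - reg x0 0 k

/-- The state of the strand variables of the kernel vector. -/
noncomputable def Ust (x x0 : ℕ → ℂ) (k : ℕ) : ℂ := (1 - t) * x0 k + Rg x x0 (k + 1)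

/-- The coefficients of the potential. -/
noncomputable def ph (x x0 : ℕ → ℂ) (k : ℕ) : ℂ := (1 - t) * (Rg x x0 (k + 1) - Rg x x0 k)

/-- The potential. -/
noncomputable def Pot (M : ℕ) (Z : ℕ → ℂ) (x x0 : ℕ → ℂ) : ℂ :=
  ∑ k ∈ Finset.range M, conj (Z k) * ph x x0 k

private theorem ker_sum {M i : ℕ} (hi : i < M) (c : ℂ) (f : ℕ → ℂ) :
    ∑ k ∈ Finset.range M, f k * sg i c k = f i * c := by
  rw [Finset.sum_eq_single i]
  · simp [sg]
  · intro b _ hb
    simp [sg, hb]
  · intro h
    exact absurd (Finset.mem_range.2 hi) h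

private theorem ker_conj_sg (i : ℕ) (c : ℂ) (k : ℕ) : conj (sg i c k) = sg i (conj c) k := by
  unfold sg
  split_ifs <;> simp

private theorem ker_conj_dl (e : Bool) : conj (dl e) = dl e := by
  cases e <;> simp [dl]

private theorem ker_Rg (i : ℕ) (e : Bool) (x x0 : ℕ → ℂ) (k : ℕ) :
    Rg (act1 (i, e) x) x0 k =
      Rg x x0 k + sg (i + 1) ((if e then t else t - 1) * (x i - x (i + 1))) k := by
  unfold Rg sg
  by_cases h : k = i + 1
  · subst h
    rw [if_pos rfl, reg_act1_mid]
    ring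
  · rw [if_neg h, reg_act1 i e x 0 h]
    ring

private theorem ker_ph (i : ℕ) (e : Bool) (x x0 : ℕ → ℂ) (k : ℕ) :
    ph (act1 (i, e) x) x0 k =
      ph x x0 k + (1 - t) * (sg i ((if e then t else t - 1) * (x i - x (i + 1))) k -
        sg (i + 1) ((if e then t else t - 1) * (x i - x (i + 1))) k) := by
  unfold ph
  rw [ker_Rg, ker_Rg]
  have h : sg (i + 1) ((if e then t else t - 1) * (x i - x (i + 1))) (k + 1) =
      sg i ((if e then t else t - 1) * (x i - x (i + 1))) k := by
    simp only [sg, Nat.add_right_cancel_iff]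
  rw [h]
  ring

private theorem ker_ph_self (x : ℕ → ℂ) (k : ℕ) : ph x x k = 0 := by
  unfold ph Rg
  ring

private theorem ker_pot_self (M : ℕ) (Z x : ℕ → ℂ) : Pot M Z x x = 0 := by
  unfold Pot
  exact Finset.sum_eq_zero fun k _ => by rw [ker_ph_self, mul_zero]

private theorem ker_KV (w : Word) (x : ℕ → ℂ) : KV w x = (Ust x x, kv w x) := by
  unfold KV
  congr 1
  funext k
  unfold Ust Rg
  ring

theorem exists_valid (w : Word) : ∃ M : ℕ, Valid M w := by
  induction w with
  | nil => exact ⟨0, fun a ha => absurd ha List.not_mem_nil⟩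
  | cons a w ih =>
    obtain ⟨M, hM⟩ := ih
    refine ⟨max M (a.1 + 2), fun b hb => ?_⟩
    rcases List.mem_cons.1 hb with rfl | hb
    · exact lt_of_lt_of_le (by omega) (le_max_right _ _)
    · exact lt_of_lt_of_le (hM b hb) (le_max_left _ _)

theorem ust_diff (x x0 : ℕ → ℂ) (i : ℕ) :
    t * (Ust x x0 i - Ust x x0 (i + 1)) = ph x x0 i + (x i - x (i + 1)) := by
  simp only [Ust, ph, Rg, reg]
  linear_combination (-(x i - x (i + 1)) - (1 - t) * ((x i - x0 i) -
    (reg x 0 i - reg x0 0 i))) * t_sq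

theorem nxt_ust (i : ℕ) (e : Bool) (x x0 : ℕ → ℂ) (y : ℕ → ℂ) :
    nxt i (Ust x x0, cns ((if e then t else t - 1) * (x i - x (i + 1))) y)
      = (Ust (act1 (i, e) x) x0, y) := by
  unfold nxt
  refine Prod.ext ?_ rfl
  funext k
  change Ust x x0 k + sg i ((if e then t else t - 1) * (x i - x (i + 1))) k =
    Ust (act1 (i, e) x) x0 k
  unfold Ust
  rw [ker_Rg]
  have h : sg (i + 1) ((if e then t else t - 1) * (x i - x (i + 1))) (k + 1) =
      sg i ((if e then t else t - 1) * (x i - x (i + 1))) k := by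
    simp only [sg, Nat.add_right_cancel_iff]
  rw [h]
  ring

theorem run_kv (u v : Word) (x x0 : ℕ → ℂ) :
    run u (Ust x x0, kv (u ++ v) x) = (Ust (act u x) x0, kv v (act u x)) := by
  induction u generalizing x with
  | nil => rfl
  | cons a u ih =>
    change run u (nxt a.1 (Ust x x0, cns ((if a.2 then t else t - 1) * (x a.1 - x (a.1 + 1)))
      (kv (u ++ v) (act1 a x)))) = _
    rw [nxt_ust]
    exact ih (act1 a x)

theorem pot_step (M i : ℕ) (hi : i + 1 < M) (e : Bool) (x x0 : ℕ → ℂ) (y : ℕ → ℂ) (p : V) :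
    locB (i, e) p (Ust x x0, cns ((if e then t else t - 1) * (x i - x (i + 1))) y)
      = Pot M (nxt i p).1 (act1 (i, e) x) x0 - Pot M p.1 x x0 := by
  set c : ℂ := (if e then t else t - 1) * (x i - x (i + 1)) with hc
  have h1 : Pot M (nxt i p).1 (act1 (i, e) x) x0 - Pot M p.1 x x0 =
      ∑ k ∈ Finset.range M, (ph x x0 k * sg i (conj (p.2 0)) k +
        (1 - t) * (conj (p.1 k + sg i (p.2 0) k)) * sg i c k -
        (1 - t) * (conj (p.1 k + sg i (p.2 0) k)) * sg (i + 1) c k) := by
    unfold Pot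
    rw [← Finset.sum_sub_distrib]
    refine Finset.sum_congr rfl fun k _ => ?_
    rw [ker_ph, ← hc]
    change conj (p.1 k + sg i (p.2 0) k) * _ - _ = _
    rw [map_add, ker_conj_sg]
    ring
  rw [h1, Finset.sum_sub_distrib, Finset.sum_add_distrib, ker_sum (by omega) (conj (p.2 0)),
    ker_sum (by omega) c, ker_sum hi c]
  have h2 := ust_diff x x0 i
  have h3 : sg i (p.2 0) i = p.2 0 := by simp [sg]
  have h4 : sg i (p.2 0) (i + 1) = 0 := by simp [sg]
  rw [h3, h4, add_zero]
  unfold locB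
  change conj (p.2 0) * (t * (Ust x x0 i + dl e * c - Ust x x0 (i + 1))) +
    (1 - t) * conj (p.1 i + dl e * p.2 0 - p.1 (i + 1)) * c = _
  rw [map_sub, map_add, map_add, map_mul, ker_conj_dl]
  have h5 : (x i - x (i + 1)) + dl e * c - (1 - t) * c = 0 := by
    rw [hc]
    cases e
    · simp only [dl, Bool.false_eq_true, if_false]
      linear_combination (x i - x (i + 1)) * t_sq
    · simp only [dl, if_true]
      linear_combination (x i - x (i + 1)) * t_sq
  linear_combination conj (p.2 0) * h2 + conj (p.2 0) * h5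

theorem B_kv {M : ℕ} {w : Word} (hw : Valid M w) (x x0 : ℕ → ℂ) (p : V) :
    B w p (Ust x x0, kv w x) = Pot M (run w p).1 (act w x) x0 - Pot M p.1 x x0 := by
  induction w generalizing p x with
  | nil =>
    change (0 : ℂ) = Pot M p.1 x x0 - Pot M p.1 x x0
    rw [sub_self]
  | cons a w ih =>
    have ha : a.1 + 1 < M := hw a List.mem_cons_self
    have hw' : Valid M w := fun b hb => hw b (List.mem_cons_of_mem _ hb)
    change locB a p (Ust x x0, cns ((if a.2 then t else t - 1) * (x a.1 - x (a.1 + 1)))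
      (kv w (act1 a x))) + B w (nxt a.1 p) (nxt a.1 (Ust x x0,
      cns ((if a.2 then t else t - 1) * (x a.1 - x (a.1 + 1))) (kv w (act1 a x)))) = _
    rw [nxt_ust]
    have h1 := pot_step M a.1 ha a.2 x x0 (kv w (act1 a x)) p
    have h2 := ih hw' (act1 a x) (nxt a.1 p)
    change locB a p _ = _ at h1
    rw [h1]
    change _ + B w (nxt a.1 p) (Ust (act1 a x) x0, kv w (act1 a x)) = _
    rw [h2]
    change _ = Pot M (run w (nxt a.1 p)).1 (act w (act1 a x)) x0 - Pot M p.1 x x0
    change Pot M (nxt a.1 p).1 (act1 a x) x0 - _ + _ = _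
    ring

theorem Ker_closed {w : Word} {x : ℕ → ℂ} (hx : act w x = x) (p : V) : B w p (KV w x) = 0 := by
  obtain ⟨M, hM⟩ := exists_valid w
  rw [ker_KV, B_kv hM, hx, ker_pot_self, ker_pot_self, sub_self]

theorem kv_at (u v : Word) (a : ℕ × Bool) (x : ℕ → ℂ) :
    kv (u ++ a :: v) x u.length
      = (if a.2 then t else t - 1) * (act u x a.1 - act u x (a.1 + 1)) := by
  induction u generalizing x with
  | nil => rfl
  | cons b u ih => exact ih (act1 b x)

theorem Ker_ins {u v : Word} {x : ℕ → ℂ} (hx : act (u ++ v) x = x) (a : ℕ × Bool) :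
    B (u ++ a :: v) (0, sg u.length 1)
        ((KV (u ++ v) x).1, tl u.length (cns 0) (KV (u ++ v) x).2)
      = act u x a.1 - act u x (a.1 + 1) := by
  obtain ⟨M, hM⟩ := exists_valid (a :: v)
  have ha : a.1 + 1 < M := hM a List.mem_cons_self
  have hv : Valid M v := fun b hb => hM b (List.mem_cons_of_mem _ hb)
  rw [ker_KV, B_run_zero u (a :: v) (0, sg u.length 1) _ rfl (by
    intro j hj
    change sg u.length 1 j = 0
    simp [sg, hj.ne])]
  have h1 := run_tl u (cns 0) (Ust x x, kv (u ++ v) x)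
  rw [run_kv] at h1
  change run u (Ust x x, tl u.length (cns 0) (kv (u ++ v) x)) =
    (Ust (act u x) x, cns 0 (kv v (act u x))) at h1
  change B (a :: v) (0, fun j => sg u.length 1 (j + u.length))
    (run u (Ust x x, tl u.length (cns 0) (kv (u ++ v) x))) = _
  rw [h1]
  have h2 : (fun j => sg u.length 1 (j + u.length)) = sg 0 1 := by
    funext j
    simp [sg]
  rw [h2]
  have h3 : nxt a.1 ((0 : ℕ → ℂ), sg 0 1) = (sg a.1 1, 0) := by
    unfold nxt
    refine Prod.ext ?_ ?_
    · funext k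
      simp [sg]
    · funext k
      simp [sg]
  have h4 : nxt a.1 (Ust (act u x) x, cns 0 (kv v (act u x))) =
      (Ust (act u x) x, kv v (act u x)) := by
    unfold nxt
    refine Prod.ext ?_ rfl
    funext k
    change Ust (act u x) x k + sg a.1 0 k = _
    simp [sg]
  have h5 : act v (act u x) = x := by
    rw [← act_append]
    exact hx
  change locB a (0, sg 0 1) (Ust (act u x) x, cns 0 (kv v (act u x))) +
    B v (nxt a.1 (0, sg 0 1)) (nxt a.1 (Ust (act u x) x, cns 0 (kv v (act u x)))) = _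
  rw [h3, h4, B_kv hv, h5, ker_pot_self]
  have h6 : Pot M (sg a.1 1) (act u x) x = ph (act u x) x a.1 := by
    unfold Pot
    have h7 : ∀ k ∈ Finset.range M, conj (sg a.1 1 k) * ph (act u x) x k =
        ph (act u x) x k * sg a.1 1 k := by
      intro k _
      rw [ker_conj_sg, map_one]
      ring
    rw [Finset.sum_congr rfl h7, ker_sum (by omega), mul_one]
  change _ + (0 - Pot M (sg a.1 1) (act u x) x) = _
  rw [h6]
  have h8 := ust_diff (act u x) x a.1
  unfold locB
  change conj (sg 0 1 0) * (t * (Ust (act u x) x a.1 + dl a.2 * 0 - Ust (act u x) x (a.1 + 1))) +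
    (1 - t) * _ * 0 + _ = _
  have h9 : sg 0 1 0 = (1 : ℂ) := by simp [sg]
  rw [h9, map_one]
  linear_combination h8

end Pool.Agent.Work.MP_749b09_gt
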