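import Pool.Agent.Work.MP_749b09_gt.Words

/-!
# Knt (M): `JW b` and `KW b` are knots

* `perm_append`: `perm (u ++ v) = perm u * perm v`.
* `perm_shift`: `perm (shiftW m w) (x + m) = perm w x + m`, and `perm (shiftW m w) x = x` for `x < m`.
* `perm_fix`: `Valid n w`, `n ≤ x` imply `perm w x = x`; `perm w x < n` for `x < n`.
* `cyc_K0`, `cyc_J0`: all `i < 5` are in the cycle of `0` (`SameCycle 0 i`: give the integer power;
  the permutation of `0..4` is computed by decide/simp from the list of swaps).
* `cyc_sum` (general): let `A = perm w1` with `Valid (m+1) w1` and all `i < m + 1` in the `A`-cycle of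
  `0`; `C = perm w2`, all `i < n` in the `C`-cycle of `0`; `P = perm (w1 ++ shiftW m w2) = A * S`,
  `S = perm (shiftW m w2)`.  Then all `i < n + m` are in the `P`-cycle of `0`:
  (1) for all `z` in the `S`-cycle of `m`: `P.SameCycle m z`: induction along powers: if `S z ≠ m`
  then `S z > m` (it is `≥ m`), so `A` fixes it and `P z = S z`; if `S z = m` trivial.
  (2) for all powers `P.SameCycle 0 (A^k 0)`: let `y = A^k 0 ≤ m`; if `y ≠ m` then `S y = y` and
  `P y = A y`; if `y = m` then `A m = P (S⁻¹ m)` and `S⁻¹ m` is in the `S`-cycle of `m`, so by (1) in the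
  `P`-cycle of `m`.  (All cycles are finite: natural powers suffice: `SameCycle.exists_pow_eq`,
  or use integer powers with both directions.)  Then `m` is in the `P`-cycle of `0` and (1)
  gives the positions `> m`.
* `knot_KW`, `knot_JW`: induction on `b` with `m = 4`, `n = 4 b + 5`.
-/

namespace Pool.Agent.Work.MP_749b09_gt

private theorem perm_append (u v : Word) : perm (u ++ v) = perm u * perm v := by
  simp [perm, List.map_append, List.prod_append]

private theorem perm_cons (a : ℕ × Bool) (v : Word) (x : ℕ) :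
    perm (a :: v) x = Equiv.swap a.1 (a.1 + 1) (perm v x) := by
  simp [perm]

private theorem perm_fix {n : ℕ} {w : Word} (hw : Valid n w) {x : ℕ} (hx : n ≤ x) :
    perm w x = x := by
  induction w with
  | nil => rfl
  | cons a w ih =>
    have ha : a.1 + 1 < n := hw a (List.mem_cons_self)
    rw [perm_cons, ih (fun b hb => hw b (List.mem_cons_of_mem _ hb))]
    exact Equiv.swap_apply_of_ne_of_ne (by omega) (by omega)

private theorem perm_shift_lt (m : ℕ) (w : Word) {x : ℕ} (hx : x < m) :
    perm (shiftW m w) x = x := by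
  induction w with
  | nil => rfl
  | cons a w ih =>
    have : shiftW m (a :: w) = (a.1 + m, a.2) :: shiftW m w := rfl
    rw [this, perm_cons, ih]
    exact Equiv.swap_apply_of_ne_of_ne (by simp only; omega) (by simp only; omega)

private theorem perm_shift (m : ℕ) (w : Word) (x : ℕ) :
    perm (shiftW m w) (x + m) = perm w x + m := by
  induction w with
  | nil => rfl
  | cons a w ih =>
    have : shiftW m (a :: w) = (a.1 + m, a.2) :: shiftW m w := rfl
    rw [this, perm_cons, ih, perm_cons]
    simp only [Equiv.swap_apply_def]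
    split_ifs <;> omega

private theorem cyc5 {w : Word} (h0 : perm w 0 = 1) (h1 : perm w 1 = 4) (h4 : perm w 4 = 3)
    (h3 : perm w 3 = 2) : ∀ i < 5, (perm w).SameCycle 0 i := by
  have step : ∀ x y, perm w x = y → (perm w).SameCycle 0 x → (perm w).SameCycle 0 y := by
    intro x y h hx
    rw [← h]
    exact Equiv.Perm.sameCycle_apply_right.2 hx
  have c0 : (perm w).SameCycle 0 0 := Equiv.Perm.SameCycle.refl _ _
  have c1 := step 0 1 h0 c0
  have c4 := step 1 4 h1 c1
  have c3 := step 4 3 h4 c4
  have c2 := step 3 2 h3 c3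
  intro i hi
  interval_cases i
  · exact c0
  · exact c1
  · exact c2
  · exact c3
  · exact c4

theorem cyc_K0 : ∀ i < 5, (perm K0).SameCycle 0 i :=
  cyc5 (by decide) (by decide) (by decide) (by decide)

theorem cyc_J0 : ∀ i < 5, (perm J0).SameCycle 0 i :=
  cyc5 (by decide) (by decide) (by decide) (by decide)

private theorem perm_lt {n : ℕ} {w : Word} (hw : Valid n w) {x : ℕ} (hx : x < n) :
    perm w x < n := by
  by_contra h
  push Not at h
  have h1 := perm_fix hw h
  have h2 := (perm w).injective h1
  omega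

private theorem exists_period {n : ℕ} {w : Word} (hw : Valid n w) {x : ℕ} (hx : x < n) :
    ∃ N : ℕ, 0 < N ∧ (perm w ^ N) x = x := by
  have hlt : ∀ k : ℕ, (perm w ^ k) x < n := by
    intro k
    induction k with
    | zero => simpa using hx
    | succ k ih =>
      rw [pow_succ', Equiv.Perm.mul_apply]
      exact perm_lt hw ih
  obtain ⟨a, ha, b, hb, hab, he⟩ := Finset.exists_ne_map_eq_of_card_lt_of_maps_to
    (s := Finset.range (n + 1)) (t := Finset.range n) (f := fun k => (perm w ^ k) x)
    (by simp) (fun k _ => Finset.mem_coe.2 (Finset.mem_range.2 (hlt k)))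
  have key : ∀ a b : ℕ, a < b → (perm w ^ a) x = (perm w ^ b) x →
      ∃ N : ℕ, 0 < N ∧ (perm w ^ N) x = x := by
    intro a b hab he
    refine ⟨b - a, by omega, ?_⟩
    have h1 : b = a + (b - a) := by omega
    rw [h1, pow_add, Equiv.Perm.mul_apply] at he
    exact ((perm w ^ a).injective he).symm
  rcases lt_or_gt_of_ne hab with h | h
  · exact key a b h he
  · exact key b a h he.symm

private theorem exists_nat {n : ℕ} {w : Word} (hw : Valid n w) {x y : ℕ} (hx : x < n)
    (h : (perm w).SameCycle x y) : ∃ k : ℕ, (perm w ^ k) x = y := by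
  obtain ⟨N, hN, hx'⟩ := exists_period hw hx
  obtain ⟨j, hj⟩ := h
  have hNz : (N : ℤ) ≠ 0 := by exact_mod_cast hN.ne'
  refine ⟨(j % N).toNat, ?_⟩
  have h1 : ((j % N).toNat : ℤ) = j % N := Int.toNat_of_nonneg (Int.emod_nonneg _ hNz)
  have h2 : (perm w ^ (N : ℤ)) x = x := by rw [zpow_natCast]; exact hx'
  have h3 : ((perm w ^ (N : ℤ)) ^ (j / N)) x = x :=
    Equiv.Perm.zpow_apply_eq_self_of_apply_eq_self h2 _
  rw [← zpow_natCast, h1, ← hj]
  have h4 : j = j % N + N * (j / N) := (Int.emod_add_mul_ediv j N).symm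
  conv_rhs => rw [h4, zpow_add, zpow_mul, Equiv.Perm.mul_apply, h3]

theorem cyc_sum {m n : ℕ} {w1 w2 : Word} (h1 : Valid (m + 1) w1)
    (c1 : ∀ i < m + 1, (perm w1).SameCycle 0 i) (c2 : ∀ i < n, (perm w2).SameCycle 0 i)
    (hn : 0 < n) (h2 : Valid n w2) :
    ∀ i < n + m, (perm (w1 ++ shiftW m w2)).SameCycle 0 i := by
  rw [perm_append]
  set A := perm w1 with hA
  set S := perm (shiftW m w2) with hS
  have hSpow : ∀ (k : ℕ) (x : ℕ), (S ^ k) (x + m) = (perm w2 ^ k) x + m := by
    intro k
    induction k with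
    | zero => intro x; rfl
    | succ k ih =>
      intro x
      rw [pow_succ', Equiv.Perm.mul_apply, ih, perm_shift, pow_succ', Equiv.Perm.mul_apply]
  have one : ∀ k : ℕ, (A * S).SameCycle m ((S ^ k) m) := by
    intro k
    induction k with
    | zero => exact Equiv.Perm.SameCycle.refl _ _
    | succ k ih =>
      have e1 : (S ^ (k + 1)) m = S ((S ^ k) m) := by rw [pow_succ', Equiv.Perm.mul_apply]
      have e2 : (S ^ (k + 1)) m = (perm w2 ^ (k + 1)) 0 + m := by
        have := hSpow (k + 1) 0
        rwa [Nat.zero_add] at this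
      by_cases hm : (S ^ (k + 1)) m = m
      · rw [hm]
      · have hgt : m + 1 ≤ (S ^ (k + 1)) m := by omega
        have e3 : A ((S ^ (k + 1)) m) = (S ^ (k + 1)) m := perm_fix h1 hgt
        have e4 : (A * S) ((S ^ k) m) = (S ^ (k + 1)) m := by
          rw [Equiv.Perm.mul_apply, ← e1, e3]
        rw [← e4]
        exact Equiv.Perm.sameCycle_apply_right.2 ih
  obtain ⟨N, hN, hNp⟩ := exists_period h2 hn
  have hback : (S ^ N) m = m := by
    have := hSpow N 0
    rw [Nat.zero_add, hNp, Nat.zero_add] at this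
    exact this
  have two : ∀ k : ℕ, (A * S).SameCycle 0 ((A ^ k) 0) := by
    intro k
    induction k with
    | zero => exact Equiv.Perm.SameCycle.refl _ _
    | succ k ih =>
      have hlt : (A ^ k) 0 < m + 1 := by
        clear ih
        induction k with
        | zero => simp
        | succ k ih =>
          rw [pow_succ', Equiv.Perm.mul_apply]
          exact perm_lt h1 ih
      have e1 : (A ^ (k + 1)) 0 = A ((A ^ k) 0) := by rw [pow_succ', Equiv.Perm.mul_apply]
      rcases Nat.lt_or_ge ((A ^ k) 0) m with h | h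
      · have e2 : S ((A ^ k) 0) = (A ^ k) 0 := perm_shift_lt m w2 h
        have e3 : (A * S) ((A ^ k) 0) = (A ^ (k + 1)) 0 := by
          rw [Equiv.Perm.mul_apply, e2, e1]
        rw [← e3]
        exact Equiv.Perm.sameCycle_apply_right.2 ih
      · have hm : (A ^ k) 0 = m := by omega
        have e2 : (A * S) ((S ^ (N - 1)) m) = (A ^ (k + 1)) 0 := by
          rw [Equiv.Perm.mul_apply, ← Equiv.Perm.mul_apply S, ← pow_succ',
            Nat.sub_add_cancel hN, hback, e1, hm]
        rw [← e2]
        refine Equiv.Perm.sameCycle_apply_right.2 (ih.trans ?_)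
        rw [hm]
        exact one _
  intro i hi
  have c0m : (A * S).SameCycle 0 m := by
    obtain ⟨k, hk⟩ := exists_nat h1 (Nat.succ_pos m) (c1 m (Nat.lt_succ_self m))
    have := two k
    rw [hA, hk, ← hA] at this
    exact this
  rcases Nat.lt_or_ge i m with h | h
  · obtain ⟨k, hk⟩ := exists_nat h1 (Nat.succ_pos m) (c1 i (by omega))
    have := two k
    rw [hA, hk, ← hA] at this
    exact this
  · obtain ⟨k, hk⟩ := exists_nat h2 hn (c2 (i - m) (by omega))
    have e := hSpow k 0
    rw [Nat.zero_add, hk] at e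
    have := one k
    rw [e, Nat.sub_add_cancel h] at this
    exact c0m.trans this

private theorem valid_shift' {m n : ℕ} {w : Word} (h : Valid n w) :
    Valid (n + m) (shiftW m w) := by
  intro a ha
  simp only [shiftW, List.mem_map] at ha
  obtain ⟨b, hb, rfl⟩ := ha
  have := h b hb
  simp only
  omega

private theorem valid_app {n : ℕ} {u v : Word} (hu : Valid n u) (hv : Valid n v) :
    Valid n (u ++ v) := by
  intro a ha
  rcases List.mem_append.1 ha with h | h
  · exact hu a h
  · exact hv a h

private theorem valid_mono' {n n' : ℕ} {w : Word} (h : Valid n w) (hn : n ≤ n') :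
    Valid n' w := fun a ha => lt_of_lt_of_le (h a ha) hn

private theorem valid_K0' : Valid 5 K0 := by unfold Valid; decide

private theorem valid_J0' : Valid 5 J0 := by unfold Valid; decide

private theorem knot_aux (w0 : Word) (h0 : Valid 5 w0)
    (c0 : ∀ i < 5, (perm w0).SameCycle 0 i) (W : ℕ → Word) (hW0 : W 0 = w0)
    (hW : ∀ b, W (b + 1) = w0 ++ shiftW 4 (W b)) (b : ℕ) : IsKnot (4 * b + 5, W b) := by
  induction b with
  | zero => rw [hW0]; exact ⟨by norm_num, h0, c0⟩
  | succ b ih =>
    obtain ⟨-, i2, i3⟩ := ih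
    have e : 4 * (b + 1) + 5 = (4 * b + 5) + 4 := by ring
    rw [hW, e]
    refine ⟨by simp, ?_, ?_⟩
    · exact valid_app (valid_mono' h0 (by simp only; omega)) (valid_shift' i2)
    · exact cyc_sum (m := 4) (n := 4 * b + 5) h0 c0 i3 (by omega) i2

theorem knot_KW (b : ℕ) : IsKnot (4 * b + 5, KW b) :=
  knot_aux K0 valid_K0' cyc_K0 KW rfl (fun _ => rfl) b

theorem knot_JW (b : ℕ) : IsKnot (4 * b + 5, JW b) :=
  knot_aux J0 valid_J0' cyc_J0 JW rfl (fun _ => rfl) b

end Pool.Agent.Work.MP_749b09_gt
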