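import Pool.Agent.Work.MP_749b09_gt.Words

/-!
# Rib (M): `JW b` is ribbon

`Bounds 0 1 (4 b + 5, JW b)`: read from the boundary: remove four letters in each of the `b + 1`
blocks (saddles), cancel all remaining letters, remove all `4 b + 5` strands (minima):
`χ = (4 b + 5) - 4 (b + 1) = 1`.

Details.  `J0` (24 letters in `K0`, 20 in `J0`):
`[(3,f),(2,t),(3,f),(2,t),(2,f),(3,f),(1,f),(2,f),(2,t),(1,t),(3,t),(2,t),(3,f),(2,f),(3,t),(2,f),
(0,t),(1,f),(0,f),(0,f)]` (`t` = true, `f` = false).  The block number 4..11 (`crN ++ crP`) cancels
completely (from the inside: `(2,f)(2,t)`, `(1,f)(1,t)`, `(3,f)(3,t)`, `(2,f)(2,t)`); there remain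
`(3,f)(2,t)(3,f)(2,t) (3,f)(2,f)(3,t)(2,f)(0,t)(1,f)(0,f)(0,f)`.  Remove the first `(3,f)`, the third
`(3,f)`, the letter `(1,f)` and the last `(0,f)`:
`(2,t)(3,f)(2,t)(2,f)(3,t)(2,f)(0,t)(0,f)`, which cancels completely.

* `Red n m w w'`: the word `w'` is obtained from `w` (on `n` strands) by cancellations of adjacent
  inverse letters and `m` removals of letters.  `Red_bounds`: `Bounds 0 χ (n, w')` implies
  `Bounds 0 (χ - m) (n, w)` (`Bounds.iso` with one `Markov.cancel` step, `Bounds.saddleRemove`).
* `Red_app`: `Red n m w w' → Red n m (p ++ w ++ s) (p ++ w' ++ s)`; `Red_shift`: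
  `Red n m w w' → Red (n + d) m (shiftW d w) (shiftW d w')`; `Red_mono`: `n ≤ n'`; `Red_trans`.
* `J0_red`: `Red 5 4 J0 []` (12 explicit steps, or a small decision procedure proved correct and run
  by decide).
* `JW_red`: `Red (4 b + 5) (4 (b + 1)) (JW b) []` by induction.
* `Bounds_nil`: `Bounds 0 n (n, [])` by `Bounds.min`.
-/

namespace Pool.Agent.Work.MP_749b09_gt

/-- Cancellations and `m` removals of letters. -/
inductive Red (n : ℕ) : ℕ → Word → Word → Prop
  | refl (w : Word) : Red n 0 w w
  | can {m : ℕ} {u v w' : Word} {i : ℕ} {e : Bool} (hi : i + 1 < n)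
      (h : Red n m (u ++ v) w') : Red n m (u ++ [(i, e), (i, !e)] ++ v) w'
  | del {m : ℕ} {u v w' : Word} {a : ℕ × Bool} (ha : a.1 + 1 < n)
      (h : Red n m (u ++ v) w') : Red n (m + 1) (u ++ a :: v) w'

theorem Red_bounds {n m : ℕ} {w w' : Word} {χ : ℤ} (h : Red n m w w')
    (h' : Bounds 0 χ (n, w')) : Bounds 0 (χ - m) (n, w) := by
  induction h with
  | refl w => simpa using h'
  | can hi _ ih =>
    exact Bounds.iso (Relation.EqvGen.rel _ _ (Markov.cancel n _ _ _ _ hi)) (ih h')
  | del ha _ ih =>
    have := Bounds.saddleRemove ha (ih h')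
    convert this using 1
    push_cast
    ring

private theorem Red_trans {n m m' : ℕ} {w w' w'' : Word} (h : Red n m w w')
    (h' : Red n m' w' w'') : Red n (m + m') w w'' := by
  induction h with
  | refl w => simpa using h'
  | can hi _ ih => exact Red.can hi (ih h')
  | @del m u v _ a ha _ ih =>
    have := Red.del ha (ih h')
    rw [show m + 1 + m' = m + m' + 1 by ring]
    exact this

private theorem Red_app {n m : ℕ} {w w' : Word} (p s : Word) (h : Red n m w w') :
    Red n m (p ++ w ++ s) (p ++ w' ++ s) := by
  induction h with
  | refl w => exact Red.refl _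
  | @can m u v _ i e hi _ ih =>
    have h1 : p ++ (u ++ [(i, e), (i, !e)] ++ v) ++ s
        = (p ++ u) ++ [(i, e), (i, !e)] ++ (v ++ s) := by simp
    have h2 : p ++ (u ++ v) ++ s = (p ++ u) ++ (v ++ s) := by simp
    rw [h1]
    rw [h2] at ih
    exact Red.can hi ih
  | @del m u v _ a ha _ ih =>
    have h1 : p ++ (u ++ a :: v) ++ s = (p ++ u) ++ a :: (v ++ s) := by simp
    have h2 : p ++ (u ++ v) ++ s = (p ++ u) ++ (v ++ s) := by simp
    rw [h1]
    rw [h2] at ih
    exact Red.del ha ih

private theorem Red_mono {n n' m : ℕ} {w w' : Word} (hn : n ≤ n') (h : Red n m w w') :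
    Red n' m w w' := by
  induction h with
  | refl w => exact Red.refl _
  | can hi _ ih => exact Red.can (by omega) ih
  | del ha _ ih => exact Red.del (by omega) ih

private theorem Red_shift {n m : ℕ} {w w' : Word} (d : ℕ) (h : Red n m w w') :
    Red (n + d) m (shiftW d w) (shiftW d w') := by
  induction h with
  | refl w => exact Red.refl _
  | @can m u v _ i e hi _ ih =>
    have h1 : shiftW d (u ++ [(i, e), (i, !e)] ++ v)
        = shiftW d u ++ [(i + d, e), (i + d, !e)] ++ shiftW d v := by simp [shiftW]
    have h2 : shiftW d (u ++ v) = shiftW d u ++ shiftW d v := by simp [shiftW]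
    rw [h1]
    rw [h2] at ih
    exact Red.can (by omega) ih
  | @del m u v _ a ha _ ih =>
    have h1 : shiftW d (u ++ a :: v) = shiftW d u ++ (a.1 + d, a.2) :: shiftW d v := by
      simp [shiftW]
    have h2 : shiftW d (u ++ v) = shiftW d u ++ shiftW d v := by simp [shiftW]
    rw [h1]
    rw [h2] at ih
    exact Red.del (a := (a.1 + d, a.2)) (by simp only; omega) ih

theorem J0_red : Red 5 4 J0 [] := by
  show Red 5 4 [(3, false), (2, true), (3, false), (2, true), (2, false), (3, false), (1, false), (2, false), (2, true), (1, true), (3, true), (2, true), (3, false), (2, false), (3, true), (2, false), (0, true), (1, false), (0, false), (0, false)] []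
  refine Red.can (n := 5) (u := [(3, false), (2, true), (3, false), (2, true), (2, false), (3, false), (1, false)]) (v := [(1, true), (3, true), (2, true), (3, false), (2, false), (3, true), (2, false), (0, true), (1, false), (0, false), (0, false)]) (i := 2) (e := false) (by norm_num) ?_
  show Red 5 4 [(3, false), (2, true), (3, false), (2, true), (2, false), (3, false), (1, false), (1, true), (3, true), (2, true), (3, false), (2, false), (3, true), (2, false), (0, true), (1, false), (0, false), (0, false)] []
  refine Red.can (n := 5) (u := [(3, false), (2, true), (3, false), (2, true), (2, false), (3, false)]) (v := [(3, true), (2, true), (3, false), (2, false), (3, true), (2, false), (0, true), (1, false), (0, false), (0, false)]) (i := 1) (e := false) (by norm_num) ?_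
  show Red 5 4 [(3, false), (2, true), (3, false), (2, true), (2, false), (3, false), (3, true), (2, true), (3, false), (2, false), (3, true), (2, false), (0, true), (1, false), (0, false), (0, false)] []
  refine Red.can (n := 5) (u := [(3, false), (2, true), (3, false), (2, true), (2, false)]) (v := [(2, true), (3, false), (2, false), (3, true), (2, false), (0, true), (1, false), (0, false), (0, false)]) (i := 3) (e := false) (by norm_num) ?_
  show Red 5 4 [(3, false), (2, true), (3, false), (2, true), (2, false), (2, true), (3, false), (2, false), (3, true), (2, false), (0, true), (1, false), (0, false), (0, false)] []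
  refine Red.can (n := 5) (u := [(3, false), (2, true), (3, false), (2, true)]) (v := [(3, false), (2, false), (3, true), (2, false), (0, true), (1, false), (0, false), (0, false)]) (i := 2) (e := false) (by norm_num) ?_
  show Red 5 4 [(3, false), (2, true), (3, false), (2, true), (3, false), (2, false), (3, true), (2, false), (0, true), (1, false), (0, false), (0, false)] []
  refine Red.del (n := 5) (u := [(3, false), (2, true), (3, false), (2, true), (3, false), (2, false), (3, true), (2, false), (0, true), (1, false), (0, false)]) (v := []) (a := (0, false)) (by norm_num) ?_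
  show Red 5 3 [(3, false), (2, true), (3, false), (2, true), (3, false), (2, false), (3, true), (2, false), (0, true), (1, false), (0, false)] []
  refine Red.del (n := 5) (u := [(3, false), (2, true), (3, false), (2, true), (3, false), (2, false), (3, true), (2, false), (0, true)]) (v := [(0, false)]) (a := (1, false)) (by norm_num) ?_
  show Red 5 2 [(3, false), (2, true), (3, false), (2, true), (3, false), (2, false), (3, true), (2, false), (0, true), (0, false)] []
  refine Red.del (n := 5) (u := [(3, false), (2, true), (3, false), (2, true)]) (v := [(2, false), (3, true), (2, false), (0, true), (0, false)]) (a := (3, false)) (by norm_num) ?_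
  show Red 5 1 [(3, false), (2, true), (3, false), (2, true), (2, false), (3, true), (2, false), (0, true), (0, false)] []
  refine Red.del (n := 5) (u := []) (v := [(2, true), (3, false), (2, true), (2, false), (3, true), (2, false), (0, true), (0, false)]) (a := (3, false)) (by norm_num) ?_
  show Red 5 0 [(2, true), (3, false), (2, true), (2, false), (3, true), (2, false), (0, true), (0, false)] []
  refine Red.can (n := 5) (u := [(2, true), (3, false)]) (v := [(3, true), (2, false), (0, true), (0, false)]) (i := 2) (e := true) (by norm_num) ?_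
  show Red 5 0 [(2, true), (3, false), (3, true), (2, false), (0, true), (0, false)] []
  refine Red.can (n := 5) (u := [(2, true)]) (v := [(2, false), (0, true), (0, false)]) (i := 3) (e := false) (by norm_num) ?_
  show Red 5 0 [(2, true), (2, false), (0, true), (0, false)] []
  refine Red.can (n := 5) (u := []) (v := [(0, true), (0, false)]) (i := 2) (e := true) (by norm_num) ?_
  show Red 5 0 [(0, true), (0, false)] []
  refine Red.can (n := 5) (u := []) (v := []) (i := 0) (e := true) (by norm_num) ?_
  show Red 5 0 ([] : Word) []
  exact Red.refl _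

theorem JW_red (b : ℕ) : Red (4 * b + 5) (4 * (b + 1)) (JW b) [] := by
  induction b with
  | zero => exact J0_red
  | succ b ih =>
    have h1 : Red (4 * b + 5 + 4) 4 ([] ++ J0 ++ shiftW 4 (JW b)) ([] ++ [] ++ shiftW 4 (JW b)) :=
      Red_app [] _ (Red_mono (by omega) J0_red)
    simp only [List.nil_append] at h1
    have h2 := Red_shift 4 ih
    have h3 := Red_trans h1 h2
    rw [show 4 * (b + 1) + 5 = 4 * b + 5 + 4 by ring,
      show 4 * (b + 1 + 1) = 4 + 4 * (b + 1) by ring]
    exact h3

theorem Bounds_nil (n : ℕ) : Bounds 0 n (n, []) := by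
  induction n with
  | zero => exact Bounds.empty
  | succ n ih =>
    have := Bounds.min (w := []) (by intro a ha; simp at ha) ih
    push_cast
    exact this

theorem JW_ribbon (b : ℕ) : Bounds 0 1 (4 * b + 5, JW b) := by
  have h := Red_bounds (JW_red b) (Bounds_nil (4 * b + 5))
  have e : ((4 * b + 5 : ℕ) : ℤ) - ((4 * (b + 1) : ℕ) : ℤ) = 1 := by push_cast; ring
  rw [e] at h
  exact h

end Pool.Agent.Work.MP_749b09_gt
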