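import Pool.Agent.Work.MP_749b09_gt.FinA
import Pool.Agent.Work.MP_749b09_gt.Rib
import Pool.Agent.Work.MP_749b09_gt.GPc
import Pool.Agent.Work.MP_749b09_gt.Knt

/-! Assembly. -/

namespace Pool.Agent.Work.MP_749b09_gt

theorem main (b : ℕ) :
    ∃ J K : ℕ × Word, IsKnot J ∧ IsKnot K ∧ Bounds 0 1 J ∧ GenPos (b + 1) J K ∧
      ∀ (m : ℕ) (J' : ℕ × Word), m ≤ b → Bounds m 1 J' → ¬ NegToPos J' K := by
  refine ⟨(4 * b + 5, JW b), (4 * b + 5, KW b), knot_JW b, knot_KW b, JW_ribbon b, JW_KW b, ?_⟩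
  intro m J' hm hJ hN
  exact not_ImmB b m hm (ImmB_negpos (ImmB_of_bounds hJ) hN)

end Pool.Agent.Work.MP_749b09_gt
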