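import Pool.Agent.Work.MP_749b09_gt.Words

/-!
# Mirror of the definitions in Eisenstein integers (fixed, computable)

The pair `(a, b)` of integers stands for `a + b t`.
-/

namespace Pool.Agent.Work.MP_749b09_gt

/-- The complex number `a + b t`. -/
noncomputable def ev (z : ℤ × ℤ) : ℂ := (z.1 : ℂ) + (z.2 : ℂ) * t

/-- Product of Eisenstein integers. -/
def em (x y : ℤ × ℤ) : ℤ × ℤ := (x.1 * y.1 - x.2 * y.2, x.1 * y.2 + x.2 * y.1 + x.2 * y.2)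

/-- Complex conjugation. -/
def ec (x : ℤ × ℤ) : ℤ × ℤ := (x.1 + x.2, -x.2)

/-- The function given by a list. -/
noncomputable def fl (l : List (ℤ × ℤ)) : ℕ → ℂ := fun k => ev (l.getD k (0, 0))

/-- Mirror of `mix`. -/
def mixE (l r : ℤ × ℤ) : ℤ × ℤ := em (0, 1) l + em (1, -1) r

/-- Mirror of `act1`. -/
def act1E (a : ℕ × Bool) (x : List (ℤ × ℤ)) : List (ℤ × ℤ) :=
  let l := x.getD a.1 (0, 0)
  let r := x.getD (a.1 + 1) (0, 0)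
  if a.2 then (x.set a.1 (mixE l r)).set (a.1 + 1) l
  else (x.set a.1 r).set (a.1 + 1) (mixE l r)

/-- Mirror of `act`. -/
def actE : Word → List (ℤ × ℤ) → List (ℤ × ℤ)
  | [], x => x
  | a :: w, x => actE w (act1E a x)

/-- Mirror of `reg x 0`. -/
def regE (x : List (ℤ × ℤ)) : ℕ → ℤ × ℤ
  | 0 => (0, 0)
  | k + 1 => em (1, -1) (x.getD k (0, 0)) + em (0, 1) (regE x k)

/-- The power of `t`. -/
def powE : ℕ → ℤ × ℤ
  | 0 => (1, 0)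
  | k + 1 => em (0, 1) (powE k)

/-- Mirror of the four sums of one crossing: with `o` the upper colour, `d` the new lower colour,
`R` the label, `c = conj (o - d) ^ 2` and the sign:
`(d - R) c`, `t ^ i c`, `t ^ i o c`, `o (d - R) c`. -/
def locE (a : ℕ × Bool) (x : List (ℤ × ℤ)) : (ℤ × ℤ) × (ℤ × ℤ) × (ℤ × ℤ) × (ℤ × ℤ) :=
  let l := x.getD a.1 (0, 0)
  let r := x.getD (a.1 + 1) (0, 0)
  let o := if a.2 then l else r
  let d := if a.2 then mixE l r else l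
  let R := regE x a.1
  let c := em (ec (o - d)) (ec (o - d))
  let c' := if a.2 then c else -c
  (em (d - R) c', em (powE a.1) c', em (em (powE a.1) o) c', em (em o (d - R)) c')

/-- Mirror of the four sums. -/
def sumE : Word → List (ℤ × ℤ) → (ℤ × ℤ) × (ℤ × ℤ) × (ℤ × ℤ) × (ℤ × ℤ)
  | [], _ => ((0, 0), (0, 0), (0, 0), (0, 0))
  | a :: w, x => locE a x + sumE w (act1E a x)

/-- Mirror of `dl`. -/
def dlE (e : Bool) : ℤ × ℤ := if e then (0, 0) else (1, 0)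

/-- Mirror of `locB`; a vector is a pair of lists. -/
def locBE (a : ℕ × Bool) (p q : List (ℤ × ℤ) × List (ℤ × ℤ)) : ℤ × ℤ :=
  em (ec (p.2.getD 0 (0, 0)))
      (em (0, 1) (q.1.getD a.1 (0, 0) + em (dlE a.2) (q.2.getD 0 (0, 0))
        - q.1.getD (a.1 + 1) (0, 0)))
    + em (em (1, -1) (ec (p.1.getD a.1 (0, 0) + em (dlE a.2) (p.2.getD 0 (0, 0))
        - p.1.getD (a.1 + 1) (0, 0)))) (q.2.getD 0 (0, 0))

/-- Mirror of `nxt`. -/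
def nxtE (i : ℕ) (p : List (ℤ × ℤ) × List (ℤ × ℤ)) : List (ℤ × ℤ) × List (ℤ × ℤ) :=
  (p.1.set i (p.1.getD i (0, 0) + p.2.getD 0 (0, 0)), p.2.tail)

/-- Mirror of `B`. -/
def BE : Word → List (ℤ × ℤ) × List (ℤ × ℤ) → List (ℤ × ℤ) × List (ℤ × ℤ) → ℤ × ℤ
  | [], _, _ => (0, 0)
  | a :: w, p, q => locBE a p q + BE w (nxtE a.1 p) (nxtE a.1 q)

/-- Fourteen orthonormal vectors for the form of `K0`. -/
def vecs : List (List (ℤ × ℤ) × List (ℤ × ℤ)) :=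
[
  ([(0, 0), (0, 0), (0, 0), (0, 0), (0, 0)],
   [(0, 0), (0, 0), (0, 0), (0, 0), (0, 0), (0, 0), (0, 0), (0, 0), (0, 0), (0, 0), (0, 0), (0, 0), (0, 0), (0, 0), (0, 0), (0, 0), (0, 0), (1, 0), (0, 0), (0, 0), (0, 0), (0, 0), (0, 0), (0, 0)]),
  ([(0, 0), (0, 0), (0, 0), (0, 0), (0, 0)],
   [(0, 0), (0, 0), (0, 0), (0, 0), (0, 0), (0, 0), (0, 0), (0, 0), (0, 0), (1, 0), (0, 0), (0, 0), (0, 0), (0, 0), (0, 0), (0, 0), (0, 0), (0, 0), (0, 0), (0, 0), (0, 0), (0, 0), (0, 0), (0, 0)]),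
  ([(0, 0), (0, 0), (0, 0), (0, 0), (0, 0)],
   [(0, 0), (0, 0), (1, 0), (0, 0), (0, 0), (0, 0), (0, 0), (0, 0), (0, 0), (0, 0), (0, 0), (-1, 0), (0, 0), (0, 0), (0, 0), (0, 0), (0, 0), (0, 0), (0, 0), (0, 0), (0, 0), (0, 0), (0, 0), (0, 0)]),
  ([(0, 0), (0, 0), (0, 0), (0, 0), (0, 0)],
   [(0, 0), (0, 0), (0, 0), (0, 0), (0, 0), (0, 0), (0, 0), (0, 0), (0, 0), (0, 0), (0, 0), (0, 0), (1, 0), (0, 0), (0, 0), (0, 0), (1, 0), (0, 0), (0, 0), (0, 0), (0, 0), (0, 0), (0, 0), (0, 0)]),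
  ([(0, 0), (0, 0), (0, 0), (0, 0), (0, 0)],
   [(0, 0), (0, 0), (0, 0), (0, 0), (0, 0), (0, 0), (0, 0), (0, 0), (1, 0), (0, 0), (0, 0), (0, 0), (0, 0), (0, 0), (0, 0), (0, 0), (0, 0), (0, 0), (0, 0), (0, 0), (0, 0), (0, 0), (0, 0), (-1, 1)]),
  ([(0, 0), (0, 0), (0, 0), (0, 0), (0, 0)],
   [(1, 0), (0, 0), (0, 0), (0, 0), (0, 0), (0, 0), (0, 0), (0, 0), (0, 0), (0, 0), (0, 0), (0, 0), (0, 0), (0, 0), (0, 0), (0, 0), (0, 0), (0, 0), (0, 0), (-1, 1), (0, 0), (0, 0), (0, 0), (0, 0)]),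
  ([(0, 0), (0, 0), (0, 0), (0, 0), (0, 0)],
   [(0, 0), (0, 0), (0, 0), (0, 0), (0, 0), (0, 0), (0, 0), (0, 0), (0, 0), (1, 0), (0, 0), (0, 0), (0, 0), (0, 0), (0, 0), (0, 0), (0, 0), (0, 0), (0, 0), (0, 0), (1, 0), (0, 0), (-1, 1), (0, 0)]),
  ([(0, 0), (0, 0), (0, 0), (0, 0), (0, 0)],
   [(0, 0), (0, 0), (0, 0), (0, -1), (0, 0), (0, 0), (-1, 0), (0, 1), (0, 0), (0, 0), (1, 0), (0, 0), (0, 0), (0, 0), (0, 0), (0, 0), (0, 0), (0, 0), (0, 0), (0, 0), (0, 0), (0, 0), (0, 0), (0, 0)]),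
  ([(0, 0), (0, 0), (0, 0), (0, 0), (0, 0)],
   [(0, 0), (0, 0), (0, 1), (0, 0), (0, 0), (0, 0), (0, 0), (0, 0), (0, 0), (0, 0), (0, 0), (1, -1), (0, -1), (0, 0), (0, 0), (0, 0), (-1, 0), (-1, 1), (0, 1), (0, 0), (0, 0), (0, 0), (0, 0), (0, 0)]),
  ([(0, 0), (0, 0), (0, 1), (0, 1), (1, 0)],
   [(1, -1), (0, -1), (0, 0), (0, 0), (0, 0), (0, 0), (0, 0), (0, 0), (0, 0), (0, 0), (0, 0), (0, 0), (1, -1), (0, 0), (1, -1), (0, 0), (-1, 1), (-1, 1), (0, 0), (0, 0), (0, 0), (0, 0), (0, 0), (0, 0)]),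
  ([(0, 0), (0, 1), (1, 0), (1, 0), (1, 0)],
   [(0, 0), (0, 0), (0, 0), (0, 0), (0, 0), (0, 0), (0, 0), (0, 0), (1, -1), (-1, 1), (0, 0), (0, 0), (0, 0), (0, 0), (0, 0), (0, 0), (0, 0), (0, 0), (0, 0), (0, 0), (0, 0), (0, 0), (0, 0), (-1, 0)]),
  ([(0, 0), (0, 0), (-1, 1), (0, 1), (0, 0)],
   [(0, -1), (0, -1), (1, 0), (1, -1), (0, 1), (0, 0), (0, 1), (0, 0), (0, 0), (0, 0), (0, -1), (0, 0), (0, 0), (0, 0), (0, 0), (0, 0), (0, 0), (0, 0), (0, 0), (-1, 1), (0, 0), (0, 0), (0, 0), (0, 0)]),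
  ([(0, 0), (0, 0), (-1, 1), (-1, 1), (0, 0)],
   [(1, -1), (0, -1), (0, -1), (0, 0), (0, 0), (-1, 1), (1, 0), (0, 0), (1, -1), (-1, 0), (-1, 0), (-1, 1), (-1, 1), (1, 0), (0, 0), (1, -1), (1, 0), (0, 1), (-1, 1), (0, 0), (0, 0), (0, 0), (0, 0), (0, 0)]),
  ([(0, 0), (0, 1), (0, 0), (0, 1), (0, 1)],
   [(0, 0), (1, 0), (0, 1), (0, 1), (-1, 0), (0, 0), (-1, 0), (0, 0), (0, 0), (0, 0), (1, 0), (0, -1), (0, -1), (-1, 0), (0, 0), (0, 0), (0, 0), (0, 0), (0, 0), (0, 0), (0, 1), (1, 0), (1, -1), (-1, 0)])]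

end Pool.Agent.Work.MP_749b09_gt
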