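import Pool.Agent.Work.MP_749b09_gt.XiA

/-!
# XiAff (S-M): the state sum of an affine image of a colouring

For one crossing `a = (i, e)` of the colouring `x` put `o` = upper colour (`x i` if `e`, else
`x (i+1)`), `d` = new lower colour (`mix (x i) (x (i+1))` if `e`, else `x i`), `R = reg x 0 i`,
`ε = 1` if `e`, else `-1`, `C = conj (o - d) ^ 2`.
* `loc_aff`: `loc a (c + s x) v = conj s ^ 2 * (c s sA1 - c (v - c) sB1 + s² sD1 - s (v - c) sC1)`: the
  upper colour is `c + s o`, the lower one is `c + s d` (`mix (c + s l) (c + s r) = c + s mix l r`),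
  the label is `c + s R + t^i (v - c)` (`reg_aff`), and `conj (s (o - d))² = conj s ² C`; multiply out.
* `xi_aff`: induction on `w` with `act1_aff`.
-/

namespace Pool.Agent.Work.MP_749b09_gt

open ComplexConjugate

/-- Upper colour of a crossing. -/
noncomputable def ovr (a : ℕ × Bool) (x : ℕ → ℂ) : ℂ := if a.2 then x a.1 else x (a.1 + 1)

/-- Lower colour used in the state sum. -/
noncomputable def und (a : ℕ × Bool) (x : ℕ → ℂ) : ℂ :=
  if a.2 then mix (x a.1) (x (a.1 + 1)) else x a.1

/-- Signed square of the conjugate difference. -/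
noncomputable def sqc (a : ℕ × Bool) (x : ℕ → ℂ) : ℂ :=
  (if a.2 then 1 else -1) * (conj (ovr a x - und a x)) ^ 2

/-- First sum. -/
noncomputable def sA : Word → (ℕ → ℂ) → ℂ
  | [], _ => 0
  | a :: w, x => (und a x - reg x 0 a.1) * sqc a x + sA w (act1 a x)

/-- Second sum. -/
noncomputable def sB : Word → (ℕ → ℂ) → ℂ
  | [], _ => 0
  | a :: w, x => t ^ a.1 * sqc a x + sB w (act1 a x)

/-- Third sum. -/
noncomputable def sC : Word → (ℕ → ℂ) → ℂ
  | [], _ => 0
  | a :: w, x => t ^ a.1 * ovr a x * sqc a x + sC w (act1 a x)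

/-- Fourth sum. -/
noncomputable def sD : Word → (ℕ → ℂ) → ℂ
  | [], _ => 0
  | a :: w, x => ovr a x * (und a x - reg x 0 a.1) * sqc a x + sD w (act1 a x)

private theorem mix_aff (c s l r : ℂ) : mix (c + s * l) (c + s * r) = c + s * mix l r := by
  unfold mix; ring

theorem loc_aff (a : ℕ × Bool) (x : ℕ → ℂ) (c s v : ℂ) :
    loc a (fun k => c + s * x k) v
      = (conj s) ^ 2 * (c * s * ((und a x - reg x 0 a.1) * sqc a x)
        - c * (v - c) * (t ^ a.1 * sqc a x)
        + s ^ 2 * (ovr a x * (und a x - reg x 0 a.1) * sqc a x)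
        - s * (v - c) * (t ^ a.1 * ovr a x * sqc a x)) := by
  obtain ⟨i, e⟩ := a
  cases e
  · simp only [loc, und, sqc, ovr, reg_aff, Bool.false_eq_true, if_false]
    have : (c + s * x (i + 1) - (c + s * x i)) = s * (x (i + 1) - x i) := by ring
    rw [this, map_mul]
    ring
  · simp only [loc, und, sqc, ovr, reg_aff, if_true, mix_aff]
    have : (c + s * x i - (c + s * mix (x i) (x (i + 1)))) = s * (x i - mix (x i) (x (i + 1))) := by
      ring
    rw [this, map_mul]
    ring

theorem xi_aff (w : Word) (x : ℕ → ℂ) (c s v : ℂ) :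
    xi w (fun k => c + s * x k) v
      = (conj s) ^ 2 * (c * s * sA w x - c * (v - c) * sB w x + s ^ 2 * sD w x
        - s * (v - c) * sC w x) := by
  induction w generalizing x with
  | nil => simp [xi, sA, sB, sC, sD]
  | cons a w ih =>
    simp only [xi, sA, sB, sC, sD]
    rw [act1_aff, ih, loc_aff]
    ring

end Pool.Agent.Work.MP_749b09_gt
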