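import Pool.Agent.Work.MP_749b09_gt.Mir
import Pool.Agent.Work.MP_749b09_gt.XiAff

/-!
# MirA (M): the mirror of colourings and of the four sums is correct

* `ev_add`, `ev_neg`, `ev_sub`, `ev_em`, `ev_ec`: `t² = t - 1`, `conj t = 1 - t`;
  `ev (0, 0) = 0`, `ev (0, 1) = t`, `ev (1, -1) = 1 - t`, `ev (1, 0) = 1`.
* `act1_fl`: for `i + 1 < length x`: `act1 a (fl x) = fl (act1E a x)`: funext `k`, `List.getD_set` or
  `List.getElem_set`, cases `k = i`, `k = i + 1`, other (for `k ≥ length` both sides are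
  `ev (0, 0) = 0`); the length does not change.
* `act_fl`, `reg_fl`, `pow_ev`, `sum_fl`: inductions.
-/

namespace Pool.Agent.Work.MP_749b09_gt

open ComplexConjugate

private theorem ev_zero : ev (0, 0) = 0 := by simp [ev]

private theorem ev_t : ev (0, 1) = t := by simp [ev]

private theorem ev_s : ev (1, -1) = 1 - t := by simp [ev]; ring

private theorem ev_one : ev (1, 0) = 1 := by simp [ev]

private theorem getD_set' {x : List (ℤ × ℤ)} {i : ℕ} (k : ℕ) (v : ℤ × ℤ) (h : i < x.length) :
    (x.set i v).getD k (0, 0) = if k = i then v else x.getD k (0, 0) := by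
  rw [List.getD_eq_getElem?_getD, List.getD_eq_getElem?_getD, List.getElem?_set]
  by_cases hk : k = i
  · subst hk
    rw [if_pos rfl, if_pos h, if_pos rfl]
    rfl
  · rw [if_neg (fun he => hk he.symm), if_neg hk]

private theorem valid_tail {n : ℕ} {a : ℕ × Bool} {w : Word} (h : Valid n (a :: w)) :
    a.1 + 1 < n ∧ Valid n w :=
  ⟨h a List.mem_cons_self, fun b hb => h b (List.mem_cons_of_mem _ hb)⟩

theorem ev_add (x y : ℤ × ℤ) : ev (x + y) = ev x + ev y := by
  unfold ev
  rw [Prod.fst_add, Prod.snd_add]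
  push_cast
  ring

theorem ev_neg (x : ℤ × ℤ) : ev (-x) = -ev x := by
  unfold ev
  rw [Prod.fst_neg, Prod.snd_neg]
  push_cast
  ring

theorem ev_sub (x y : ℤ × ℤ) : ev (x - y) = ev x - ev y := by
  rw [sub_eq_add_neg, ev_add, ev_neg, ← sub_eq_add_neg]

theorem ev_em (x y : ℤ × ℤ) : ev (em x y) = ev x * ev y := by
  unfold ev em
  push_cast
  linear_combination (-(x.2 : ℂ) * (y.2 : ℂ)) * t_sq

theorem ev_ec (x : ℤ × ℤ) : ev (ec x) = conj (ev x) := by
  unfold ev ec
  rw [map_add, map_mul, conj_t, map_intCast, map_intCast]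
  push_cast
  ring

theorem ev_mixE (x y : ℤ × ℤ) : ev (mixE x y) = mix (ev x) (ev y) := by
  unfold mixE mix
  rw [ev_add, ev_em, ev_em, ev_t, ev_s]

theorem length_act1E (a : ℕ × Bool) (x : List (ℤ × ℤ)) : (act1E a x).length = x.length := by
  unfold act1E
  split_ifs
  · rw [List.length_set, List.length_set]
  · rw [List.length_set, List.length_set]

theorem act1_fl {a : ℕ × Bool} {x : List (ℤ × ℤ)} (h : a.1 + 1 < x.length) :
    act1 a (fl x) = fl (act1E a x) := by
  obtain ⟨i, e⟩ := a
  have h0 : i + 1 < x.length := h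
  have h1 : i < x.length := by omega
  funext k
  cases e
  · have e1 : act1E (i, false) x =
        (x.set i (x.getD (i + 1) (0, 0))).set (i + 1)
          (mixE (x.getD i (0, 0)) (x.getD (i + 1) (0, 0))) := rfl
    have e2 : act1 (i, false) (fl x) k = if k = i then fl x (i + 1) else
        if k = i + 1 then mix (fl x i) (fl x (i + 1)) else fl x k := rfl
    rw [e1, e2]
    unfold fl
    rw [getD_set' k _ (by rw [List.length_set]; exact h0), getD_set' k _ h1]
    by_cases hk : k = i
    · have hk1 : ¬ k = i + 1 := by omega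
      rw [if_pos hk, if_neg hk1, if_pos hk]
    · rw [if_neg hk]
      by_cases hk1 : k = i + 1
      · rw [if_pos hk1, if_pos hk1, ev_mixE]
      · rw [if_neg hk1, if_neg hk1, if_neg hk]
  · have e1 : act1E (i, true) x =
        (x.set i (mixE (x.getD i (0, 0)) (x.getD (i + 1) (0, 0)))).set (i + 1)
          (x.getD i (0, 0)) := rfl
    have e2 : act1 (i, true) (fl x) k = if k = i then mix (fl x i) (fl x (i + 1)) else
        if k = i + 1 then fl x i else fl x k := rfl
    rw [e1, e2]
    unfold fl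
    rw [getD_set' k _ (by rw [List.length_set]; exact h0), getD_set' k _ h1]
    by_cases hk : k = i
    · have hk1 : ¬ k = i + 1 := by omega
      rw [if_pos hk, if_neg hk1, if_pos hk, ev_mixE]
    · rw [if_neg hk]
      by_cases hk1 : k = i + 1
      · rw [if_pos hk1, if_pos hk1]
      · rw [if_neg hk1, if_neg hk1, if_neg hk]

theorem act_fl {w : Word} {x : List (ℤ × ℤ)} (h : Valid x.length w) :
    act w (fl x) = fl (actE w x) := by
  induction w generalizing x with
  | nil => rfl
  | cons a w ih =>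
    obtain ⟨h1, h2⟩ := valid_tail h
    show act w (act1 a (fl x)) = fl (actE w (act1E a x))
    rw [act1_fl h1]
    exact ih (by rw [length_act1E]; exact h2)

theorem reg_fl (x : List (ℤ × ℤ)) (k : ℕ) : reg (fl x) 0 k = ev (regE x k) := by
  induction k with
  | zero => exact ev_zero.symm
  | succ k ih =>
    show (1 - t) * fl x k + t * reg (fl x) 0 k =
      ev (em (1, -1) (x.getD k (0, 0)) + em (0, 1) (regE x k))
    rw [ev_add, ev_em, ev_em, ev_t, ev_s, ih]
    rfl

theorem pow_ev (k : ℕ) : ev (powE k) = t ^ k := by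
  induction k with
  | zero =>
    rw [pow_zero]
    exact ev_one
  | succ k ih =>
    show ev (em (0, 1) (powE k)) = t ^ (k + 1)
    rw [ev_em, ev_t, ih, pow_succ]
    ring

theorem sum_fl {w : Word} {x : List (ℤ × ℤ)} (h : Valid x.length w) :
    sA w (fl x) = ev (sumE w x).1 ∧ sB w (fl x) = ev (sumE w x).2.1
      ∧ sC w (fl x) = ev (sumE w x).2.2.1 ∧ sD w (fl x) = ev (sumE w x).2.2.2 := by
  induction w generalizing x with
  | nil => exact ⟨ev_zero.symm, ev_zero.symm, ev_zero.symm, ev_zero.symm⟩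
  | cons a w ih =>
    obtain ⟨h1, h2⟩ := valid_tail h
    obtain ⟨i1, i2, i3, i4⟩ := ih (x := act1E a x) (by rw [length_act1E]; exact h2)
    obtain ⟨l, hl⟩ : ∃ l, l = x.getD a.1 (0, 0) := ⟨_, rfl⟩
    obtain ⟨r, hr⟩ : ∃ r, r = x.getD (a.1 + 1) (0, 0) := ⟨_, rfl⟩
    obtain ⟨o, ho⟩ : ∃ o, o = if a.2 then l else r := ⟨_, rfl⟩
    obtain ⟨d, hd⟩ : ∃ d, d = if a.2 then mixE l r else l := ⟨_, rfl⟩
    obtain ⟨c', hc'⟩ : ∃ c', c' = if a.2 then em (ec (o - d)) (ec (o - d)) else
      -em (ec (o - d)) (ec (o - d)) := ⟨_, rfl⟩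
    have hloc : locE a x = (em (d - regE x a.1) c', em (powE a.1) c', em (em (powE a.1) o) c',
        em (em o (d - regE x a.1)) c') := by
      rw [hc', hd, ho, hl, hr]
      rfl
    have eo : ovr a (fl x) = ev o := by
      rw [ho]
      unfold ovr
      cases a.2
      · rw [hr]; rfl
      · rw [hl]; rfl
    have ed : und a (fl x) = ev d := by
      rw [hd]
      unfold und
      cases a.2
      · rw [hl]; rfl
      · rw [hl, hr]
        simp only [if_true]
        rw [ev_mixE]
        rfl
    have es : sqc a (fl x) = ev c' := by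
      unfold sqc
      rw [hc', eo, ed]
      cases a.2
      · simp only [Bool.false_eq_true, if_false]
        rw [ev_neg, ev_em, ev_ec, ev_sub]
        ring
      · simp only [if_true]
        rw [ev_em, ev_ec, ev_sub]
        ring
    have er : reg (fl x) 0 a.1 = ev (regE x a.1) := reg_fl x a.1
    have hsum : sumE (a :: w) x = locE a x + sumE w (act1E a x) := rfl
    rw [hsum, hloc]
    refine ⟨?_, ?_, ?_, ?_⟩
    · show (und a (fl x) - reg (fl x) 0 a.1) * sqc a (fl x) + sA w (act1 a (fl x)) =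
        ev (em (d - regE x a.1) c' + (sumE w (act1E a x)).1)
      rw [act1_fl h1, i1, ev_add, ev_em, ev_sub, ed, er, es]
    · show t ^ a.1 * sqc a (fl x) + sB w (act1 a (fl x)) =
        ev (em (powE a.1) c' + (sumE w (act1E a x)).2.1)
      rw [act1_fl h1, i2, ev_add, ev_em, pow_ev, es]
    · show t ^ a.1 * ovr a (fl x) * sqc a (fl x) + sC w (act1 a (fl x)) =
        ev (em (em (powE a.1) o) c' + (sumE w (act1E a x)).2.2.1)
      rw [act1_fl h1, i3, ev_add, ev_em, ev_em, pow_ev, eo, es]
    · show ovr a (fl x) * (und a (fl x) - reg (fl x) 0 a.1) * sqc a (fl x) +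
          sD w (act1 a (fl x)) =
        ev (em (em o (d - regE x a.1)) c' + (sumE w (act1E a x)).2.2.2)
      rw [act1_fl h1, i4, ev_add, ev_em, ev_em, ev_sub, eo, ed, er, es]

end Pool.Agent.Work.MP_749b09_gt
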