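import Pool.Agent.Work.MP_749b09_gt.MirA
import Pool.Agent.Work.MP_749b09_gt.FormA

/-!
# MirB (S-M): the mirror of the form is correct

For `p = (Z, y)` (lists) put `vl p = (fl Z, fl y) : V`.
* `dl_ev`: cases.
* `locB_vl`: `ev_em`, `ev_add`, `ev_sub`, `ev_ec`.
* `nxt_vl`: for `i < length Z`: `nxt i (vl p) = vl (nxtE i p)` (`fl y (k+1) = fl y.tail k`;
  `getD` of `set`).
* `B_vl`: induction on `w` (the length of `Z` does not change).
* `PosD_of_gram`: `L c = ∑ a, c a • vl (vs a)`.  By `B_add_left`, ... (sums: `map_sum` for the linear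
  functional `exists_BLin`, and `B_symm`), `B w (L c) (L c) = ∑ a, ∑ b, conj (c a) * c b * B w (vl (vs a))
  (vl (vs b)) = ∑ a, conj (c a) * c a`, so `Q w (L c) = ∑ ‖c a‖² > 0` for `c ≠ 0`.
-/

namespace Pool.Agent.Work.MP_749b09_gt

open ComplexConjugate

/-- The vector given by two lists. -/
noncomputable def vl (p : List (ℤ × ℤ) × List (ℤ × ℤ)) : V := (fl p.1, fl p.2)

private theorem mb_zero : ev (0, 0) = 0 := by simp [ev]

private theorem mb_t : ev (0, 1) = t := by simp [ev]

private theorem mb_s : ev (1, -1) = 1 - t := by simp [ev]; ring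

private theorem mb_getD_set {x : List (ℤ × ℤ)} {i : ℕ} (k : ℕ) (v : ℤ × ℤ) (h : i < x.length) :
    (x.set i v).getD k (0, 0) = if k = i then v else x.getD k (0, 0) := by
  rw [List.getD_eq_getElem?_getD, List.getD_eq_getElem?_getD, List.getElem?_set]
  by_cases hk : k = i
  · subst hk
    rw [if_pos rfl, if_pos h, if_pos rfl]
    rfl
  · rw [if_neg (fun he => hk he.symm), if_neg hk]

theorem dl_ev (e : Bool) : ev (dlE e) = dl e := by
  cases e <;> simp [dlE, dl, ev]

theorem locB_vl (a : ℕ × Bool) (p q : List (ℤ × ℤ) × List (ℤ × ℤ)) :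
    locB a (vl p) (vl q) = ev (locBE a p q) := by
  unfold locB locBE
  simp only [ev_add, ev_sub, ev_em, ev_ec, dl_ev, mb_t, mb_s]
  rfl

theorem nxt_vl {i : ℕ} {p : List (ℤ × ℤ) × List (ℤ × ℤ)} (h : i < p.1.length) :
    nxt i (vl p) = vl (nxtE i p) := by
  refine Prod.ext ?_ ?_
  · funext k
    change ev (p.1.getD k (0, 0)) + sg i (ev (p.2.getD 0 (0, 0))) k =
      ev ((p.1.set i (p.1.getD i (0, 0) + p.2.getD 0 (0, 0))).getD k (0, 0))
    rw [mb_getD_set k _ h]
    unfold sg
    by_cases hk : k = i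
    · rw [if_pos hk, if_pos hk, ev_add, hk]
    · rw [if_neg hk, if_neg hk, add_zero]
  · funext k
    change ev (p.2.getD (k + 1) (0, 0)) = ev (p.2.tail.getD k (0, 0))
    congr 1
    rcases p.2 with _ | ⟨x, l⟩
    · simp
    · simp

theorem B_vl {w : Word} {p q : List (ℤ × ℤ) × List (ℤ × ℤ)} (hp : Valid p.1.length w)
    (hq : Valid q.1.length w) : B w (vl p) (vl q) = ev (BE w p q) := by
  induction w generalizing p q with
  | nil =>
    change (0 : ℂ) = ev (0, 0)
    rw [mb_zero]
  | cons a w ih =>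
    have hpa : a.1 < p.1.length := by
      have := hp a List.mem_cons_self
      omega
    have hqa : a.1 < q.1.length := by
      have := hq a List.mem_cons_self
      omega
    have lp : (nxtE a.1 p).1.length = p.1.length := by
      unfold nxtE
      rw [List.length_set]
    have lq : (nxtE a.1 q).1.length = q.1.length := by
      unfold nxtE
      rw [List.length_set]
    change locB a (vl p) (vl q) + B w (nxt a.1 (vl p)) (nxt a.1 (vl q)) =
      ev (locBE a p q + BE w (nxtE a.1 p) (nxtE a.1 q))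
    rw [ev_add, locB_vl, nxt_vl hpa, nxt_vl hqa, ih]
    · rw [lp]
      exact fun b hb => hp b (List.mem_cons_of_mem _ hb)
    · rw [lq]
      exact fun b hb => hq b (List.mem_cons_of_mem _ hb)

private theorem mb_right (w : Word) (k : ℕ) (vs : Fin k → V) (c : Fin k → ℂ) (p : V) :
    B w p (∑ a, c a • vs a) = ∑ a, c a * B w p (vs a) := by
  obtain ⟨φ, hφ⟩ := exists_BLin w p
  rw [← hφ, map_sum]
  refine Finset.sum_congr rfl fun a _ => ?_
  rw [map_smul, hφ, smul_eq_mul]

private theorem mb_left (w : Word) (k : ℕ) (vs : Fin k → V) (c : Fin k → ℂ) (p : V) :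
    B w (∑ a, c a • vs a) p = ∑ a, conj (c a) * B w (vs a) p := by
  rw [B_symm w p, mb_right, map_sum]
  refine Finset.sum_congr rfl fun a _ => ?_
  rw [map_mul, ← B_symm w p (vs a)]

theorem PosD_of_gram (w : Word) (k : ℕ) (vs : Fin k → V)
    (h : ∀ a b, B w (vs a) (vs b) = if a = b then 1 else 0) : PosD (Q w) k := by
  refine ⟨⟨⟨fun c => ∑ a, c a • vs a, ?_⟩, ?_⟩, ?_⟩
  · intro c d
    rw [← Finset.sum_add_distrib]
    exact Finset.sum_congr rfl fun a _ => by rw [Pi.add_apply, add_smul]
  · intro r c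
    change ∑ a, (r • c) a • vs a = r • ∑ a, c a • vs a
    rw [Finset.smul_sum]
    exact Finset.sum_congr rfl fun a _ => by rw [Pi.smul_apply, smul_eq_mul, mul_smul]
  · intro c hc
    change 0 < Q w (∑ a, c a • vs a)
    have h1 : B w (∑ a, c a • vs a) (∑ a, c a • vs a) = ∑ a, ((‖c a‖ ^ 2 : ℝ) : ℂ) := by
      rw [mb_right]
      refine Finset.sum_congr rfl fun a _ => ?_
      rw [mb_left, Finset.sum_eq_single a]
      · rw [h a a, if_pos rfl, mul_one, Complex.mul_conj']
        push_cast
        rfl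
      · intro b _ hb
        rw [h b a, if_neg hb, mul_zero]
      · intro ha
        exact absurd (Finset.mem_univ a) ha
    unfold Q
    rw [h1, ← Complex.ofReal_sum, Complex.ofReal_re]
    obtain ⟨a, ha⟩ := Function.ne_iff.1 hc
    refine Finset.sum_pos' (fun b _ => by positivity) ⟨a, Finset.mem_univ a, ?_⟩
    have h2 : 0 < ‖c a‖ := norm_pos_iff.2 ha
    positivity

end Pool.Agent.Work.MP_749b09_gt
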