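import Pool.Agent.Work.MP_749b09_gt.Alg

/-! Facts about `t` (proved). -/

namespace Pool.Agent.Work.MP_749b09_gt

open ComplexConjugate

theorem sq3 : Real.sqrt 3 * Real.sqrt 3 = 3 := Real.mul_self_sqrt (by norm_num)

theorem t_sq : t ^ 2 = t - 1 := by
  have h := sq3
  apply Complex.ext
  · simp only [t, pow_two, Complex.mul_re, Complex.sub_re, Complex.one_re]
    nlinarith [h]
  · simp only [t, pow_two, Complex.mul_im, Complex.sub_im, Complex.one_im]
    ring

theorem t_mul : t * (1 - t) = 1 := by linear_combination - t_sq

theorem conj_t : conj t = 1 - t := by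
  apply Complex.ext
  · simp only [t, Complex.conj_re, Complex.sub_re, Complex.one_re]; norm_num
  · simp only [t, Complex.conj_im, Complex.sub_im, Complex.one_im]; ring

theorem t_ne : t ≠ 0 := by
  intro h
  have := t_mul
  rw [h] at this
  simp at this

theorem one_sub_t_ne : (1 : ℂ) - t ≠ 0 := by
  intro h
  have := t_mul
  rw [h] at this
  simp at this

theorem conj_one_sub_t : conj (1 - t) = t := by
  rw [map_sub, map_one, conj_t]; ring

theorem t_re : t.re = 1 / 2 := rfl

theorem two_re_t (z : ℂ) : 2 * (t * (z * conj z)).re = Complex.normSq z := by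
  rw [Complex.mul_conj, Complex.mul_re, Complex.ofReal_re, Complex.ofReal_im, t_re]; ring

end Pool.Agent.Work.MP_749b09_gt
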