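import Pool.Agent.Work.MP_749b09_gt.Alg

/-!
# The words of the knots (fixed)
-/

namespace Pool.Agent.Work.MP_749b09_gt

/-- First part of the words. -/
def preW : Word := [(3, false), (2, true), (3, false), (2, true)]

/-- Last part of the words. -/
def postW : Word :=
  [(3, false), (2, false), (3, true), (2, false), (0, true), (1, false), (0, false), (0, false)]

/-- The crossing of two bands, all crossings negative. -/
def crN : Word := [(2, false), (3, false), (1, false), (2, false)]

/-- The crossing of two bands, all crossings positive. -/
def crP : Word := [(2, true), (1, true), (3, true), (2, true)]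

/-- The negative full twists of the two bands. -/
def tw : Word := [(1, false), (1, false), (3, false), (3, false)]

/-- The ribbon knot `J 0`. -/
def J0 : Word := preW ++ crN ++ crP ++ postW

/-- The knot `K 0`. -/
def K0 : Word := preW ++ (crP ++ tw) ++ crP ++ postW

/-- The connected sum of `b + 1` copies of `J0`. -/
def JW : ℕ → Word
  | 0 => J0
  | b + 1 => J0 ++ shiftW 4 (JW b)

/-- The connected sum of `b + 1` copies of `K0`. -/
def KW : ℕ → Word
  | 0 => K0
  | b + 1 => K0 ++ shiftW 4 (KW b)

/-- The colouring of `K0` (strands `0, 1, 2` have the colour `0`, the others `1`). -/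
def X0 (k : ℕ) : ℂ := if k < 3 then 0 else 1

end Pool.Agent.Work.MP_749b09_gt
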