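import Pool.Agent.Work.MP_749b09_gt.RegA

/-!
# XiA (S-M): basic facts on the state sum

* `xi_append`: induction on `u`.
* `xi_congr`: induction on `w` (generalise `x, y`), with `act1` preserving the agreement on
  `k < n` (this is `act_congr` for the one letter word) and `reg_congr` in `loc`.
* `loc_triv`: if `l = r` then `mix l r = l`, so the factor `conj (over - under)` vanishes.
-/

namespace Pool.Agent.Work.MP_749b09_gt

open ComplexConjugate

theorem xi_append (u v : Word) (x : ℕ → ℂ) (s : ℂ) :
    xi (u ++ v) x s = xi u x s + xi v (act u x) s := by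
  induction u generalizing x with
  | nil => simp [xi, act]
  | cons a u ih =>
    rw [List.cons_append]
    simp only [xi, act]
    rw [ih, add_assoc]

theorem loc_triv {a : ℕ × Bool} {x : ℕ → ℂ} (s : ℂ) (h : x a.1 = x (a.1 + 1)) :
    loc a x s = 0 := by
  have hm : mix (x (a.1 + 1)) (x (a.1 + 1)) = x (a.1 + 1) := by unfold mix; ring
  unfold loc
  rw [h, hm]
  simp

theorem xi_congr {n : ℕ} {w : Word} (hw : Valid n w) {x y : ℕ → ℂ} (s : ℂ)
    (h : ∀ k < n, x k = y k) : xi w x s = xi w y s := by
  induction w generalizing x y with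
  | nil => rfl
  | cons a w ih =>
    have ha : a.1 + 1 < n := hw a (List.mem_cons_self)
    have hw' : Valid n w := fun b hb => hw b (List.mem_cons_of_mem _ hb)
    have h1 : x a.1 = y a.1 := h _ (by omega)
    have h2 : x (a.1 + 1) = y (a.1 + 1) := h _ ha
    have h3 : reg x s a.1 = reg y s a.1 := reg_congr s (fun j hj => h j (by omega))
    have h4 : ∀ k < n, act1 a x k = act1 a y k := by
      intro k hk
      unfold act1
      rw [h1, h2, h k hk]
    simp only [xi]
    rw [ih hw' h4]
    congr 1
    unfold loc
    rw [h1, h2, h3]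

end Pool.Agent.Work.MP_749b09_gt
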